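import Pool.Agent.Zk62.QS.Family

/-!
Weighted averages of probability measures: from a countable family of functions to all bounded
continuous functions.
-/

set_option autoImplicit false
set_option linter.unusedSectionVars false

open MeasureTheory Filter Topology TopologicalSpace

namespace Zk62.QS

section

variable {X : Type*} [MetricSpace X] [SecondCountableTopology X] [CompleteSpace X]
  [MeasurableSpace X] [BorelSpace X]

theorem avg_prob {w : ℕ → ℝ} (hw0 : ∀ k, 0 ≤ w k) (ν : ℕ → ProbabilityMeasure X) {K : ℕ}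
    (h : 0 < ∑ k ∈ Finset.range K, w k) : IsProbabilityMeasure
      (∑ k ∈ Finset.range K, ENNReal.ofReal (w k / ∑ k ∈ Finset.range K, w k) •
        (ν k : Measure X)) := by
  constructor
  rw [Measure.finsetSum_apply]
  simp only [Measure.smul_apply, measure_univ, smul_eq_mul, mul_one]
  rw [← ENNReal.ofReal_sum_of_nonneg (fun k _ => div_nonneg (hw0 k) h.le), ← Finset.sum_div,
    div_self h.ne', ENNReal.ofReal_one]

/-- The weighted average of probability measures, for a positive total weight. -/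
noncomputable def avgP (w : ℕ → ℝ) (hw0 : ∀ k, 0 ≤ w k) (ν : ℕ → ProbabilityMeasure X) (K : ℕ)
    (h : 0 < ∑ k ∈ Finset.range K, w k) : ProbabilityMeasure X :=
  ⟨∑ k ∈ Finset.range K, ENNReal.ofReal (w k / ∑ k ∈ Finset.range K, w k) •
        (ν k : Measure X), avg_prob hw0 ν h⟩

open Classical in
/-- The weighted average of probability measures. -/
noncomputable def avg (w : ℕ → ℝ) (hw0 : ∀ k, 0 ≤ w k) (ν : ℕ → ProbabilityMeasure X) (K : ℕ) :
    ProbabilityMeasure X :=
  if h : 0 < ∑ k ∈ Finset.range K, w k then avgP w hw0 ν K h else ν 0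

theorem avg_pos {w : ℕ → ℝ} (hw0 : ∀ k, 0 ≤ w k) (ν : ℕ → ProbabilityMeasure X) {K : ℕ}
    (h : 0 < ∑ k ∈ Finset.range K, w k) : (avg w hw0 ν K : Measure X) = ∑ k ∈ Finset.range K,
      ENNReal.ofReal (w k / ∑ k ∈ Finset.range K, w k) • (ν k : Measure X) := by
  have e : avg w hw0 ν K = avgP w hw0 ν K h := by
    unfold avg
    exact dif_pos h
  rw [e]
  rfl

theorem avg_neg {w : ℕ → ℝ} (hw0 : ∀ k, 0 ≤ w k) (ν : ℕ → ProbabilityMeasure X) {K : ℕ}
    (h : ¬ 0 < ∑ k ∈ Finset.range K, w k) : avg w hw0 ν K = ν 0 := by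
  unfold avg
  exact dif_neg h

theorem avg_int {w : ℕ → ℝ} (hw0 : ∀ k, 0 ≤ w k) (ν : ℕ → ProbabilityMeasure X) {K : ℕ}
    (h : 0 < ∑ k ∈ Finset.range K, w k) {F : X → ℝ} (hF : Continuous F) {C : ℝ}
    (hC : ∀ x, |F x| ≤ C) :
    ∫ x, F x ∂(avg w hw0 ν K : Measure X) =
      (∑ k ∈ Finset.range K, w k * ∫ x, F x ∂(ν k : Measure X)) /
        ∑ k ∈ Finset.range K, w k := by
  have e := avg_pos hw0 ν h
  have hi : ∀ k, Integrable F (ν k : Measure X) := fun k =>
    Integrable.of_bound hF.aestronglyMeasurable C (Eventually.of_forall fun x => by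
      rw [Real.norm_eq_abs]; exact hC x)
  rw [e, integral_finsetSum_measure fun k _ => (hi k).smul_measure ENNReal.ofReal_ne_top,
    Finset.sum_div]
  refine Finset.sum_congr rfl fun k _ => ?_
  rw [integral_smul_measure, ENNReal.toReal_ofReal (div_nonneg (hw0 k) h.le), smul_eq_mul]
  ring

theorem avg_tight {w : ℕ → ℝ} (hw0 : ∀ k, 0 ≤ w k) (ν : ℕ → ProbabilityMeasure X)
    (ht : IsTightMeasureSet {((μ : ProbabilityMeasure X) : Measure X) | μ ∈ Set.range ν}) :
    IsTightMeasureSet {((μ : ProbabilityMeasure X) : Measure X) | μ ∈ Set.range (avg w hw0 ν)} := by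
  rw [isTightMeasureSet_iff_exists_isCompact_measure_compl_le] at ht ⊢
  intro ε hε
  obtain ⟨Kc, hKc, hp⟩ := ht ε hε
  refine ⟨Kc, hKc, ?_⟩
  rintro μ' ⟨μ'', ⟨K, rfl⟩, rfl⟩
  by_cases h : 0 < ∑ k ∈ Finset.range K, w k
  · rw [avg_pos hw0 ν h, Measure.finsetSum_apply]
    simp only [Measure.smul_apply, smul_eq_mul]
    calc ∑ k ∈ Finset.range K, ENNReal.ofReal (w k / ∑ k ∈ Finset.range K, w k) *
          (ν k : Measure X) Kcᶜ
        ≤ ∑ k ∈ Finset.range K, ENNReal.ofReal (w k / ∑ k ∈ Finset.range K, w k) * ε :=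
          Finset.sum_le_sum fun k _ => mul_le_mul_right (hp _ ⟨ν k, ⟨k, rfl⟩, rfl⟩) _
      _ = ε := by
          rw [← Finset.sum_mul,
            ← ENNReal.ofReal_sum_of_nonneg (fun k _ => div_nonneg (hw0 k) h.le),
            ← Finset.sum_div, div_self h.ne', ENNReal.ofReal_one, one_mul]
  · rw [avg_neg hw0 ν h]
    exact hp _ ⟨ν 0, ⟨0, rfl⟩, rfl⟩

/-- From the countable family to all bounded continuous functions. -/
theorem to_all {w : ℕ → ℝ} (hw0 : ∀ k, 0 ≤ w k)
    (hW : Tendsto (fun K => ∑ k ∈ Finset.range K, w k) atTop atTop)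
    {μs νs : ℕ → ProbabilityMeasure X}
    (ht : IsTightMeasureSet {((μ : ProbabilityMeasure X) : Measure X) | μ ∈ Set.range μs})
    (hf : ∀ (T : Finset (countableBasis X)) (m : ℕ), Tendsto (fun K =>
      (∑ k ∈ Finset.range K, w k * (∫ x, gf T m x ∂(νs k : Measure X) -
        ∫ x, gf T m x ∂(μs k : Measure X))) / ∑ k ∈ Finset.range K, w k) atTop (𝓝 0))
    (F : BoundedContinuousFunction X ℝ) : Tendsto (fun K =>
      (∑ k ∈ Finset.range K, w k * (∫ x, F x ∂(νs k : Measure X) -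
        ∫ x, F x ∂(μs k : Measure X))) / ∑ k ∈ Finset.range K, w k) atTop (𝓝 0) := by
  have hcomp : IsCompact (closure (Set.range (avg w hw0 μs))) :=
    isCompact_closure_of_isTightMeasureSet (avg_tight hw0 μs ht)
  refine tendsto_of_subseq_tendsto fun ns hns => ?_
  obtain ⟨ν, _, ψ, hψ, hν⟩ := hcomp.tendsto_subseq
    (x := fun i => avg w hw0 μs (ns i)) (fun i => subset_closure ⟨ns i, rfl⟩)
  refine ⟨ψ, ?_⟩
  have hnψ : Tendsto (fun i => ns (ψ i)) atTop atTop := hns.comp hψ.tendsto_atTop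
  have hWp : ∀ᶠ i in atTop, 0 < ∑ k ∈ Finset.range (ns (ψ i)), w k :=
    (hW.comp hnψ).eventually_gt_atTop 0
  have hdiff : ∀ (G : X → ℝ) (_ : Continuous G) (C : ℝ) (_ : ∀ x, |G x| ≤ C), ∀ᶠ i in atTop,
      (∑ k ∈ Finset.range (ns (ψ i)), w k * (∫ x, G x ∂(νs k : Measure X) -
        ∫ x, G x ∂(μs k : Measure X))) / ∑ k ∈ Finset.range (ns (ψ i)), w k =
      (∫ x, G x ∂(avg w hw0 νs (ns (ψ i)) : Measure X)) -
        ∫ x, G x ∂(avg w hw0 μs (ns (ψ i)) : Measure X) := by
    intro G hG C hC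
    filter_upwards [hWp] with i hi
    rw [avg_int hw0 νs hi hG hC, avg_int hw0 μs hi hG hC, ← sub_div, ← Finset.sum_sub_distrib]
    congr 1
    refine Finset.sum_congr rfl fun k _ => ?_
    ring
  have hB : Tendsto (fun i => avg w hw0 νs (ns (ψ i))) atTop (𝓝 ν) := by
    apply family
    intro T m
    have h1 := (hf T m).comp hnψ
    have h2 := h1.congr' (hdiff (gf T m) (gf_cont T m) 1 (gf_abs T m))
    have h3 : Tendsto (fun i => ∫ x, gf T m x ∂(avg w hw0 μs (ns (ψ i)) : Measure X)) atTop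
        (𝓝 (∫ x, gf T m x ∂(ν : Measure X))) :=
      (ProbabilityMeasure.tendsto_iff_forall_integral_tendsto.1 hν) (gb T m)
    have h4 := h2.add h3
    rw [zero_add] at h4
    refine h4.congr fun i => ?_
    ring
  have h5 := (ProbabilityMeasure.tendsto_iff_forall_integral_tendsto.1 hB) F
  have h6 := (ProbabilityMeasure.tendsto_iff_forall_integral_tendsto.1 hν) F
  have h7 := h5.sub h6
  rw [sub_self] at h7
  refine h7.congr' ?_
  filter_upwards [hdiff F F.continuous ‖F‖ (fun x => F.norm_coe_le_norm x)] with i hi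
  exact hi.symm

end

end Zk62.QS
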