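import Mathlib

/-!
Weighted strong law for bounded random variables with small variances of the sums.
-/

set_option autoImplicit false

open MeasureTheory Filter Topology

namespace Zk62.QS

theorem slln {Ω : Type*} [MeasurableSpace Ω] {P : Measure Ω} [IsProbabilityMeasure P]
    {w : ℕ → ℝ} (hw0 : ∀ k, 0 ≤ w k) (hw1 : ∀ k, w k ≤ 1)
    (hW : Tendsto (fun K => ∑ k ∈ Finset.range K, w k) atTop atTop)
    {Y : ℕ → Ω → ℝ} (hYm : ∀ k, Measurable (Y k)) (hYb : ∀ k ω, |Y k ω| ≤ 2) {B : ℝ}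
    (hV : ∀ K, ∫ ω, (∑ k ∈ Finset.range K, w k * Y k ω) ^ 2 ∂P ≤
      B * ∑ k ∈ Finset.range K, w k) :
    ∀ᵐ ω ∂P, Tendsto (fun K => (∑ k ∈ Finset.range K, w k * Y k ω) /
      ∑ k ∈ Finset.range K, w k) atTop (𝓝 0) := by
  classical
  set W : ℕ → ℝ := fun K => ∑ k ∈ Finset.range K, w k with hWdef
  set S : ℕ → Ω → ℝ := fun K ω => ∑ k ∈ Finset.range K, w k * Y k ω with hSdef
  have hWmono : Monotone W := monotone_nat_of_le_succ fun K => by
    simp only [hWdef, Finset.sum_range_succ]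
    linarith [hw0 K]
  have hWsucc : ∀ K, W (K + 1) ≤ W K + 1 := fun K => by
    simp only [hWdef, Finset.sum_range_succ]
    linarith [hw1 K]
  have hW0 : W 0 = 0 := by simp [hWdef]
  have hWnn : ∀ K, 0 ≤ W K := fun K => by rw [← hW0]; exact hWmono (Nat.zero_le K)
  have hSm : ∀ K, Measurable (S K) := fun K =>
    Finset.measurable_sum _ fun k _ => (hYm k).const_mul _
  have hSb : ∀ K K' ω, K ≤ K' → |S K' ω - S K ω| ≤ 2 * (W K' - W K) := by
    intro K K' ω h
    have e1 : S K' ω - S K ω = ∑ k ∈ Finset.Ico K K', w k * Y k ω := by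
      simp only [hSdef]
      rw [Finset.sum_Ico_eq_sub _ h]
    have e2 : W K' - W K = ∑ k ∈ Finset.Ico K K', w k := by
      simp only [hWdef]
      rw [Finset.sum_Ico_eq_sub _ h]
    rw [e1, e2, Finset.mul_sum]
    refine (Finset.abs_sum_le_sum_abs _ _).trans (Finset.sum_le_sum fun k _ => ?_)
    rw [abs_mul, abs_of_nonneg (hw0 k), mul_comm]
    exact mul_le_mul_of_nonneg_right (hYb k ω) (hw0 k)
  -- the times
  have hex : ∀ j : ℕ, ∃ K, (j : ℝ) ^ 2 ≤ W K := fun j =>
    (hW.eventually_ge_atTop ((j : ℝ) ^ 2)).exists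
  set T : ℕ → ℕ := fun j => Nat.find (hex j) with hT
  have hT1 : ∀ j : ℕ, (j : ℝ) ^ 2 ≤ W (T j) := fun j => Nat.find_spec (hex j)
  have hT2 : ∀ j : ℕ, W (T j) ≤ (j : ℝ) ^ 2 + 1 := by
    intro j
    rcases Nat.eq_zero_or_pos (T j) with h | h
    · rw [h, hW0]
      positivity
    · have h1 := Nat.find_min (hex j) (m := T j - 1) (Nat.sub_lt h one_pos)
      push Not at h1
      have h2 := hWsucc (T j - 1)
      rw [Nat.sub_add_cancel h] at h2
      linarith
  have hB0 : 0 ≤ B := by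
    have h1 := hV (T 1)
    have h2 : 0 ≤ ∫ ω, (∑ k ∈ Finset.range (T 1), w k * Y k ω) ^ 2 ∂P :=
      integral_nonneg fun ω => sq_nonneg _
    have h3 : (1 : ℝ) ≤ W (T 1) := by simpa using hT1 1
    by_contra hcon
    push Not at hcon
    have h4 : B * W (T 1) < 0 := mul_neg_of_neg_of_pos hcon (by linarith)
    have h5 : ∫ ω, (∑ k ∈ Finset.range (T 1), w k * Y k ω) ^ 2 ∂P ≤ B * W (T 1) := h1
    linarith
  have hSint : ∀ K, Integrable (fun ω => (S K ω) ^ 2) P := by
    intro K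
    refine Integrable.of_bound ((hSm K).pow_const 2).aestronglyMeasurable ((2 * W K) ^ 2)
      (Eventually.of_forall fun ω => ?_)
    rw [Real.norm_eq_abs, abs_of_nonneg (sq_nonneg _), sq_le_sq, abs_of_nonneg (a := 2 * W K)
      (by linarith [hWnn K])]
    have := hSb 0 K ω (Nat.zero_le K)
    rw [hW0, sub_zero] at this
    have e : S 0 ω = 0 := by simp [hSdef]
    rwa [e, sub_zero] at this
  -- almost sure convergence along the times
  have hae : ∀ᵐ ω ∂P, Tendsto (fun j : ℕ => (S (T (j + 1)) ω / W (T (j + 1))) ^ 2) atTop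
      (𝓝 0) := by
    have hm : ∀ j : ℕ, Measurable fun ω => ENNReal.ofReal ((S (T (j + 1)) ω /
        W (T (j + 1))) ^ 2) := fun j => (((hSm _).div_const _).pow_const 2).ennreal_ofReal
    have hb : ∀ j : ℕ, ∫⁻ ω, ENNReal.ofReal ((S (T (j + 1)) ω / W (T (j + 1))) ^ 2) ∂P ≤
        ENNReal.ofReal (2 * B / ((j : ℝ) + 1) ^ 2) := by
      intro j
      have hj1 : ((j + 1 : ℕ) : ℝ) ^ 2 ≤ W (T (j + 1)) := hT1 (j + 1)
      have hj2 : W (T (j + 1)) ≤ ((j + 1 : ℕ) : ℝ) ^ 2 + 1 := hT2 (j + 1)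
      push_cast at hj1 hj2
      have hj0 : (1 : ℝ) ≤ ((j : ℝ) + 1) ^ 2 := by
        have : (0 : ℝ) ≤ j := Nat.cast_nonneg j
        nlinarith
      have hWp : 0 < W (T (j + 1)) := by linarith
      have hi : Integrable (fun ω => (S (T (j + 1)) ω / W (T (j + 1))) ^ 2) P := by
        have := (hSint (T (j + 1))).div_const (W (T (j + 1)) ^ 2)
        refine this.congr (Eventually.of_forall fun ω => ?_)
        exact (div_pow _ _ 2).symm
      rw [← ofReal_integral_eq_lintegral_ofReal hi (Eventually.of_forall fun ω => sq_nonneg _)]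
      apply ENNReal.ofReal_le_ofReal
      have e : ∫ ω, (S (T (j + 1)) ω / W (T (j + 1))) ^ 2 ∂P =
          (∫ ω, (S (T (j + 1)) ω) ^ 2 ∂P) / W (T (j + 1)) ^ 2 := by
        rw [← integral_div]
        refine integral_congr_ae (Eventually.of_forall fun ω => ?_)
        exact div_pow _ _ 2
      rw [e]
      have hv : ∫ ω, (S (T (j + 1)) ω) ^ 2 ∂P ≤ B * W (T (j + 1)) := hV (T (j + 1))
      rw [div_le_div_iff₀ (by positivity) (by positivity)]
      calc (∫ ω, (S (T (j + 1)) ω) ^ 2 ∂P) * ((j : ℝ) + 1) ^ 2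
          ≤ (B * W (T (j + 1))) * W (T (j + 1)) :=
            mul_le_mul hv hj1 (by positivity) (by positivity)
        _ ≤ 2 * B * W (T (j + 1)) ^ 2 := by nlinarith [sq_nonneg (W (T (j + 1)))]
    have hsum : ∑' j : ℕ, ENNReal.ofReal (2 * B / ((j : ℝ) + 1) ^ 2) ≠ ⊤ := by
      have hs : Summable fun j : ℕ => 2 * B / ((j : ℝ) + 1) ^ 2 := by
        have h1 := (Real.summable_one_div_nat_pow (p := 2)).2 (by norm_num)
        have h2 := (summable_nat_add_iff 1).2 h1
        refine (h2.mul_left (2 * B)).congr fun j => ?_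
        push_cast
        ring
      rw [← ENNReal.ofReal_tsum_of_nonneg (fun j => by positivity) hs]
      exact ENNReal.ofReal_ne_top
    have htot : ∫⁻ ω, ∑' j : ℕ, ENNReal.ofReal ((S (T (j + 1)) ω / W (T (j + 1))) ^ 2) ∂P ≠ ⊤ := by
      rw [lintegral_tsum fun j => (hm j).aemeasurable]
      exact ne_top_of_le_ne_top hsum (ENNReal.tsum_le_tsum hb)
    filter_upwards [ae_lt_top' (AEMeasurable.ennreal_tsum fun j => (hm j).aemeasurable) htot]
      with ω hω
    have h1 := ENNReal.tendsto_atTop_zero_of_tsum_ne_top hω.ne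
    have h2 := (ENNReal.tendsto_toReal ENNReal.zero_ne_top).comp h1
    refine h2.congr fun j => ?_
    show (ENNReal.ofReal _).toReal = _
    exact ENNReal.toReal_ofReal (sq_nonneg _)
  filter_upwards [hae] with ω hω
  have hω1 : Tendsto (fun j : ℕ => |S (T (j + 1)) ω / W (T (j + 1))|) atTop (𝓝 0) := by
    have := hω.sqrt
    rw [Real.sqrt_zero] at this
    refine this.congr fun j => Real.sqrt_sq_eq_abs _
  have hω2 : Tendsto (fun j : ℕ => |S (T j) ω / W (T j)| + (4 * (j : ℝ) + 4) / (j : ℝ) ^ 2) atTop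
      (𝓝 0) := by
    have h1 : Tendsto (fun j : ℕ => |S (T j) ω / W (T j)|) atTop (𝓝 0) :=
      (tendsto_add_atTop_iff_nat 1).1 hω1
    have h2 : Tendsto (fun j : ℕ => (4 * (j : ℝ) + 4) / (j : ℝ) ^ 2) atTop (𝓝 0) := by
      have h3 : Tendsto (fun j : ℕ => (1 : ℝ) / (j : ℝ)) atTop (𝓝 0) :=
        tendsto_one_div_atTop_nhds_zero_nat
      have h4 := (h3.const_mul 4).add ((h3.mul h3).const_mul 4)
      simp only [mul_zero, add_zero] at h4
      refine h4.congr' ?_
      filter_upwards [eventually_gt_atTop 0] with j hj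
      have : (0 : ℝ) < j := by exact_mod_cast hj
      field_simp
    simpa using h1.add h2
  -- interpolation
  have hJ : Tendsto (fun K => ⌊Real.sqrt (W K)⌋₊) atTop atTop :=
    tendsto_nat_floor_atTop.comp (Real.tendsto_sqrt_atTop.comp hW)
  refine squeeze_zero_norm' ?_ (hω2.comp hJ)
  filter_upwards [hJ.eventually_ge_atTop 1] with K hK
  set j := ⌊Real.sqrt (W K)⌋₊ with hj
  have hj1 : (j : ℝ) ≤ Real.sqrt (W K) := Nat.floor_le (Real.sqrt_nonneg _)
  have hj2 : Real.sqrt (W K) < j + 1 := Nat.lt_floor_add_one _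
  have hjp : (1 : ℝ) ≤ j := by exact_mod_cast hK
  have hWj : (j : ℝ) ^ 2 ≤ W K := by
    calc (j : ℝ) ^ 2 ≤ Real.sqrt (W K) ^ 2 := by gcongr
      _ = W K := Real.sq_sqrt (hWnn K)
  have hWj2 : W K < ((j : ℝ) + 1) ^ 2 := by
    calc W K = Real.sqrt (W K) ^ 2 := (Real.sq_sqrt (hWnn K)).symm
      _ < ((j : ℝ) + 1) ^ 2 := by
          have := Real.sqrt_nonneg (W K)
          nlinarith
  have hTK : T j ≤ K := Nat.find_min' (hex j) hWj
  have hWT : 0 < W (T j) := by
    have := hT1 j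
    nlinarith
  have hWK : 0 < W K := by nlinarith
  have hdiff := hSb (T j) K ω hTK
  have hWTK := hWmono hTK
  rw [Real.norm_eq_abs, abs_div, abs_of_pos hWK]
  have h1 : |S K ω| ≤ |S (T j) ω| + (4 * (j : ℝ) + 4) := by
    have h2 : |S K ω| ≤ |S (T j) ω| + |S K ω - S (T j) ω| := by
      have := abs_add_le (S (T j) ω) (S K ω - S (T j) ω)
      rwa [add_sub_cancel] at this
    have h3 := hT1 j
    have h4 : 2 * (W K - W (T j)) ≤ 4 * (j : ℝ) + 4 := by nlinarith
    linarith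
  calc |S K ω| / W K ≤ (|S (T j) ω| + (4 * (j : ℝ) + 4)) / W K := by gcongr
    _ ≤ (|S (T j) ω| + (4 * (j : ℝ) + 4)) / W (T j) := by
        apply div_le_div_of_nonneg_left _ hWT hWTK
        positivity
    _ = |S (T j) ω| / W (T j) + (4 * (j : ℝ) + 4) / W (T j) := by ring
    _ ≤ |S (T j) ω / W (T j)| + (4 * (j : ℝ) + 4) / (j : ℝ) ^ 2 := by
        rw [abs_div, abs_of_pos hWT]
        have h5 : (4 * (j : ℝ) + 4) / W (T j) ≤ (4 * (j : ℝ) + 4) / (j : ℝ) ^ 2 :=
          div_le_div_of_nonneg_left (by positivity) (by positivity) (hT1 j)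
        linarith

end Zk62.QS
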