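import Pool.Agent.Zk62.QS.Sing
import Pool.Agent.Zk62.QS.Slln
import Pool.Agent.Zk62.QS.Avg

/-!
The germ of almost every curve determines the averages of the rescaled limits.
-/

set_option autoImplicit false

namespace Zk62.QS

open H974 Finset H342P H984P H984H MeasureTheory Filter Topology TopologicalSpace

theorem var_abs {Ω : Type*} [MeasurableSpace Ω] {P : Measure Ω} [IsProbabilityMeasure P]
    {Y : ℕ → Ω → ℝ} (hYm : ∀ k, Measurable (Y k)) (hYb : ∀ k ω, |Y k ω| ≤ 2) {B ρ : ℝ}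
    (hB : 0 ≤ B) (hρ0 : 0 ≤ ρ) (hρ1 : ρ < 1)
    (hcov : ∀ j k, j ≤ k → |∫ ω, Y j ω * Y k ω ∂P| ≤ B * ρ ^ (k - j)) (K : ℕ) :
    ∫ ω, (∑ k ∈ range K, (1 : ℝ) * Y k ω) ^ 2 ∂P ≤
      (2 * (B * (1 - ρ)⁻¹)) * ∑ _k ∈ range K, (1 : ℝ) := by
  have hYi : ∀ j k, Integrable (fun ω => Y j ω * Y k ω) P := by
    intro j k
    refine Integrable.of_bound ((hYm j).mul (hYm k)).aestronglyMeasurable 4
      (Eventually.of_forall fun ω => ?_)
    rw [Real.norm_eq_abs, abs_mul]
    calc |Y j ω| * |Y k ω| ≤ 2 * 2 := mul_le_mul (hYb j ω) (hYb k ω) (abs_nonneg _) (by norm_num)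
      _ = 4 := by norm_num
  have hgeo : ∀ K : ℕ, ∑ j ∈ range (K + 1), ρ ^ (K - j) ≤ (1 - ρ)⁻¹ := by
    intro K
    have e : ∑ j ∈ range (K + 1), ρ ^ (K - j) = ∑ i ∈ range (K + 1), ρ ^ i := by
      rw [← Finset.sum_range_reflect (fun i => ρ ^ i) (K + 1)]
      refine Finset.sum_congr rfl fun j _ => ?_
      congr 1
    rw [e, ← tsum_geometric_of_lt_one hρ0 hρ1]
    exact (summable_geometric_of_lt_one hρ0 hρ1).sum_le_tsum _ fun i _ => pow_nonneg hρ0 i
  simp only [one_mul]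
  induction K with
  | zero => simp
  | succ K ih =>
    have hSm : Measurable fun ω => ∑ k ∈ range K, Y k ω :=
      Finset.measurable_sum _ fun k _ => hYm k
    have hSi : Integrable (fun ω => (∑ k ∈ range K, Y k ω) ^ 2) P := by
      refine Integrable.of_bound (hSm.pow_const 2).aestronglyMeasurable
        ((∑ _k ∈ range K, (2 : ℝ)) ^ 2) (Eventually.of_forall fun ω => ?_)
      have hb : |∑ k ∈ range K, Y k ω| ≤ ∑ _k ∈ range K, (2 : ℝ) :=
        (Finset.abs_sum_le_sum_abs _ _).trans (Finset.sum_le_sum fun k _ => hYb k ω)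
      rw [Real.norm_eq_abs, abs_of_nonneg (sq_nonneg _), sq_le_sq]
      exact hb.trans (le_abs_self _)
    have hci : Integrable (fun ω => ∑ j ∈ range K, (Y j ω * Y K ω)) P :=
      integrable_finsetSum _ fun j _ => hYi j K
    have e1 : ∀ ω, (∑ k ∈ range (K + 1), Y k ω) ^ 2 =
        (∑ k ∈ range K, Y k ω) ^ 2 +
          2 * ∑ j ∈ range K, (Y j ω * Y K ω) + Y K ω * Y K ω := by
      intro ω
      rw [Finset.sum_range_succ, ← Finset.sum_mul]
      ring
    have e2 : ∫ ω, (∑ k ∈ range (K + 1), Y k ω) ^ 2 ∂P =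
        ∫ ω, (∑ k ∈ range K, Y k ω) ^ 2 ∂P +
          2 * ∑ j ∈ range K, ∫ ω, Y j ω * Y K ω ∂P + ∫ ω, Y K ω * Y K ω ∂P := by
      simp only [e1]
      have i1 : Integrable (fun ω => 2 * ∑ j ∈ range K, (Y j ω * Y K ω)) P := hci.const_mul _
      have i3 : Integrable (fun ω => (∑ k ∈ range K, Y k ω) ^ 2 +
          2 * ∑ j ∈ range K, (Y j ω * Y K ω)) P := hSi.add i1
      rw [integral_add i3 (hYi K K), integral_add hSi i1, integral_const_mul,
        integral_finsetSum _ fun j _ => hYi j K]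
    rw [e2]
    have h3 : ∑ j ∈ range K, ∫ ω, Y j ω * Y K ω ∂P ≤ ∑ j ∈ range K, B * ρ ^ (K - j) :=
      Finset.sum_le_sum fun j hj =>
        (le_abs_self _).trans (hcov j K (Finset.mem_range.1 hj).le)
    have h4 : ∫ ω, Y K ω * Y K ω ∂P ≤ B * ρ ^ (K - K) :=
      (le_abs_self _).trans (hcov K K le_rfl)
    have h5 : ∑ j ∈ range K, B * ρ ^ (K - j) + B * ρ ^ (K - K) ≤ B * (1 - ρ)⁻¹ := by
      rw [← Finset.sum_range_succ (fun j => B * ρ ^ (K - j)), ← Finset.mul_sum]
      exact mul_le_mul_of_nonneg_left (hgeo K) hB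
    have h6 : 0 ≤ B * ρ ^ (K - K) := by positivity
    rw [Finset.sum_range_succ]
    linarith

/-- The rescalings of almost every curve. -/
theorem germ {μ : ProbabilityMeasure C(unitInterval, ℂ)} {c C q : ℝ} (hc : 0 < c) (hC : 0 < C)
    (hq0 : 0 < q) (hq1 : q < 1) (hmx : ∀ k : ℕ, Mx (LS.S (4/7) (q ^ k) μ) c C)
    (ht : IsTightMeasureSet {((ν : ProbabilityMeasure C(unitInterval, ℂ)) :
      Measure C(unitInterval, ℂ)) | ν ∈ Set.range fun k : ℕ => LS.S (4/7) (q ^ k) μ}) :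
    ∀ᵐ f ∂(μ : Measure C(unitInterval, ℂ)), ∀ F : BoundedContinuousFunction C(unitInterval, ℂ) ℝ,
      Tendsto (fun K : ℕ => (∑ k ∈ range K, (F (LS.sc (4/7) (q ^ k) f) -
        ∫ g, F (LS.sc (4/7) (q ^ k) g) ∂(μ : Measure C(unitInterval, ℂ)))) / K) atTop (𝓝 0) := by
  set ρ : Measure C(unitInterval, ℂ) := (μ : Measure C(unitInterval, ℂ)) with hρ
  have hqk0 : ∀ k : ℕ, 0 < q ^ k := fun k => pow_pos hq0 k
  have hqk1 : ∀ k : ℕ, q ^ k ≤ 1 := fun k => pow_le_one₀ hq0.le hq1.le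
  have hSint : ∀ (k : ℕ) {G : C(unitInterval, ℂ) → ℝ}, Continuous G →
      ∫ f, G f ∂(LS.S (4/7) (q ^ k) μ : Measure C(unitInterval, ℂ)) =
        ∫ f, G (LS.sc (4/7) (q ^ k) f) ∂ρ := by
    intro k G hG
    show ∫ f, G f ∂(ρ.map (LS.sc (4/7) (q ^ k))) = _
    rw [integral_map (LS.sc_meas _ _).aemeasurable hG.aestronglyMeasurable]
  have hone : ∀ K : ℕ, ∑ _k ∈ range K, (1 : ℝ) = K := fun K => by simp
  have hfam : ∀ᵐ f ∂ρ, ∀ (T : Finset (countableBasis C(unitInterval, ℂ))) (m : ℕ),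
      Tendsto (fun K => (∑ k ∈ range K, (1 : ℝ) * (gf T m (LS.sc (4/7) (q ^ k) f) -
        ∫ g, gf T m (LS.sc (4/7) (q ^ k) g) ∂ρ)) / ∑ _k ∈ range K, (1 : ℝ)) atTop (𝓝 0) := by
    rw [ae_all_iff]
    intro T
    rw [ae_all_iff]
    intro m
    have hG := gf_abs (X := C(unitInterval, ℂ)) T m
    have hGL : ∀ f g : C(unitInterval, ℂ), |gf T m f - gf T m g| ≤ ((m : ℝ) + 1) * ‖f - g‖ := by
      intro f g
      rw [← dist_eq_norm]
      exact gf_lip T m f g
    have hGm : ∀ k : ℕ, Measurable fun f : C(unitInterval, ℂ) =>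
        gf T m (LS.sc (4/7) (q ^ k) f) := fun k =>
      (gf_cont T m).measurable.comp (LS.sc_meas _ _)
    have hGi : ∀ k : ℕ, Integrable (fun f => gf T m (LS.sc (4/7) (q ^ k) f)) ρ := fun k =>
      Integrable.of_bound (hGm k).aestronglyMeasurable 1 (Eventually.of_forall fun f => by
        rw [Real.norm_eq_abs]; exact hG _)
    have hEb : ∀ k : ℕ, |∫ f, gf T m (LS.sc (4/7) (q ^ k) f) ∂ρ| ≤ 1 := by
      intro k
      have := norm_integral_le_of_norm_le_const (μ := ρ)
        (f := fun f => gf T m (LS.sc (4/7) (q ^ k) f)) (C := 1)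
        (Eventually.of_forall fun f => by rw [Real.norm_eq_abs]; exact hG _)
      simpa using this
    have hq1c : q ^ c < 1 := Real.rpow_lt_one hq0.le hq1 hc
    refine slln (P := ρ) (w := fun _ => (1 : ℝ)) (fun _ => zero_le_one) (fun _ => le_rfl)
      (by simp only [hone]; exact tendsto_natCast_atTop_atTop)
      (Y := fun k f => gf T m (LS.sc (4/7) (q ^ k) f) -
        ∫ g, gf T m (LS.sc (4/7) (q ^ k) g) ∂ρ)
      (fun k => (hGm k).sub_const _) (fun k f => ?_)
      (B := 2 * (C * (1 + ((m : ℝ) + 1)) * (1 - q ^ c)⁻¹)) (fun K => ?_)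
    · refine (abs_sub _ _).trans ?_
      linarith [hG (LS.sc (4/7) (q ^ k) f), hEb k]
    · refine var_abs (fun k => (hGm k).sub_const _) (fun k f => ?_) (by positivity)
        (by positivity) hq1c (fun j k hjk => ?_) K
      · refine (abs_sub _ _).trans ?_
        linarith [hG (LS.sc (4/7) (q ^ k) f), hEb k]
      · have h1 := hmx j (q ^ (k - j)) (hqk0 _) (hqk1 _) ((m : ℝ) + 1) (by positivity)
          (gf T m) (gf T m) (gf_cont T m) hG hG hGL
        have hcomp : ∀ f, LS.sc (4/7) (q ^ (k - j)) (LS.sc (4/7) (q ^ j) f) =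
            LS.sc (4/7) (q ^ k) f := by
          intro f
          rw [LS.sc_comp (hqk0 _) (hqk1 _) (hqk0 _) (hqk1 _), ← pow_add,
            Nat.sub_add_cancel hjk]
        rw [hSint j (G := fun f => gf T m (LS.sc (4/7) (q ^ (k - j)) f) * gf T m f)
            (((gf_cont T m).comp (LS.sc_cont _ _)).mul (gf_cont T m)),
          hSint j (G := fun f => gf T m (LS.sc (4/7) (q ^ (k - j)) f))
            ((gf_cont T m).comp (LS.sc_cont _ _)), hSint j (gf_cont T m)] at h1
        simp only [hcomp] at h1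
        have e3 : (q ^ (k - j)) ^ c = (q ^ c) ^ (k - j) := by
          rw [← Real.rpow_natCast, ← Real.rpow_natCast, ← Real.rpow_mul hq0.le,
            ← Real.rpow_mul hq0.le, mul_comm]
        rw [e3] at h1
        refine le_trans (le_of_eq ?_) h1
        congr 1
        have hpi : Integrable (fun f => gf T m (LS.sc (4/7) (q ^ k) f) *
            gf T m (LS.sc (4/7) (q ^ j) f)) ρ := by
          refine Integrable.of_bound ((hGm k).mul (hGm j)).aestronglyMeasurable 1
            (Eventually.of_forall fun ω => ?_)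
          rw [Real.norm_eq_abs, abs_mul]
          exact mul_le_one₀ (hG _) (abs_nonneg _) (hG _)
        obtain ⟨a, ha⟩ : ∃ a : ℝ, a = ∫ g, gf T m (LS.sc (4/7) (q ^ k) g) ∂ρ := ⟨_, rfl⟩
        obtain ⟨b, hb⟩ : ∃ b : ℝ, b = ∫ g, gf T m (LS.sc (4/7) (q ^ j) g) ∂ρ := ⟨_, rfl⟩
        have ga := hGi k
        have gb := hGi j
        rw [← ha, ← hb]
        have e1 : ∀ f, (gf T m (LS.sc (4/7) (q ^ j) f) - b) *
            (gf T m (LS.sc (4/7) (q ^ k) f) - a) =
            (gf T m (LS.sc (4/7) (q ^ k) f) * gf T m (LS.sc (4/7) (q ^ j) f) -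
              a * gf T m (LS.sc (4/7) (q ^ j) f)) -
            (b * gf T m (LS.sc (4/7) (q ^ k) f) - b * a) := by
          intro f
          ring
        simp only [e1]
        have t0 : Integrable (fun f => a * gf T m (LS.sc (4/7) (q ^ j) f)) ρ := gb.const_mul _
        have t1 : Integrable (fun f => gf T m (LS.sc (4/7) (q ^ k) f) *
            gf T m (LS.sc (4/7) (q ^ j) f) - a * gf T m (LS.sc (4/7) (q ^ j) f)) ρ := hpi.sub t0
        have t2 : Integrable (fun f => b * gf T m (LS.sc (4/7) (q ^ k) f)) ρ := ga.const_mul _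
        have t3 : Integrable (fun f => b * gf T m (LS.sc (4/7) (q ^ k) f) - b * a) ρ :=
          t2.sub (integrable_const _)
        rw [integral_sub t1 t3, integral_sub hpi t0, integral_sub t2 (integrable_const _),
          integral_const_mul, integral_const_mul, integral_const, probReal_univ, one_smul,
          ← ha, ← hb]
        ring
  filter_upwards [hfam] with f hf F
  obtain ⟨νd, hνd⟩ : ∃ νd : ℕ → ProbabilityMeasure C(unitInterval, ℂ), ∀ k,
      (νd k : Measure C(unitInterval, ℂ)) = Measure.dirac (LS.sc (4/7) (q ^ k) f) :=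
    ⟨fun k => ⟨Measure.dirac (LS.sc (4/7) (q ^ k) f), inferInstance⟩, fun k => rfl⟩
  have hdir : ∀ (G : C(unitInterval, ℂ) → ℝ) (_ : Continuous G) (k : ℕ),
      ∫ g, G g ∂(νd k : Measure C(unitInterval, ℂ)) = G (LS.sc (4/7) (q ^ k) f) := by
    intro G hG k
    rw [hνd]
    exact integral_dirac' G _ hG.stronglyMeasurable
  have hmain := to_all (X := C(unitInterval, ℂ)) (w := fun _ => (1 : ℝ))
    (fun _ => zero_le_one) (by simp only [hone]; exact tendsto_natCast_atTop_atTop)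
    (μs := fun k : ℕ => LS.S (4/7) (q ^ k) μ)
    (νs := νd) ht (fun T m => by
      refine (hf T m).congr fun K => ?_
      congr 1
      refine Finset.sum_congr rfl fun k _ => ?_
      rw [hSint k (gf_cont T m), hdir _ (gf_cont T m) k]) F
  refine hmain.congr fun K => ?_
  rw [hone]
  congr 1
  refine Finset.sum_congr rfl fun k _ => ?_
  rw [hdir _ F.continuous k, hSint k F.continuous, one_mul]

end Zk62.QS
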