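import Pool.Agent.Zk62.QS.Renyi
import Pool.Agent.R965.HT.Top

/-!
No convergence in probability.
-/

set_option autoImplicit false

namespace Zk62.QS

open H974 Finset H342P H984P H984H MeasureTheory Filter Topology

theorem no_ae {φ : ℕ → ℕ} (hφ : Tendsto φ atTop atTop) {X : Conf → C(unitInterval, ℂ)}
    (hX : ∀ᵐ ω ∂perc, Tendsto (fun i => curve (φ i) ω) atTop (𝓝 (X ω))) : False := by
  have hXm : AEMeasurable X perc :=
    aemeasurable_of_tendsto_metrizable_ae atTop (fun i => (curve_meas (φ i)).aemeasurable) hX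
  let μ : ProbabilityMeasure C(unitInterval, ℂ) :=
    ⟨perc.map X, Measure.isProbabilityMeasure_map hXm⟩
  have hμint : ∀ {G : C(unitInterval, ℂ) → ℝ}, Continuous G →
      ∫ f, G f ∂(μ : Measure C(unitInterval, ℂ)) = ∫ ω, G (X ω) ∂perc := by
    intro G hG
    show ∫ f, G f ∂(perc.map X) = _
    rw [integral_map hXm hG.aestronglyMeasurable]
  have hlim : ∀ {G : C(unitInterval, ℂ) → ℝ} {u : Conf → ℝ} {M : ℝ}, Continuous G →
      (∀ f, |G f| ≤ M) → Integrable u perc →
      Tendsto (fun i => ∫ ω, u ω * G (curve (φ i) ω) ∂perc) atTop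
        (𝓝 (∫ ω, u ω * G (X ω) ∂perc)) := by
    intro G u M hG hM hu
    refine tendsto_integral_of_dominated_convergence (fun ω => |u ω| * M) (fun i => ?_)
      (hu.abs.mul_const M) (fun i => Eventually.of_forall fun ω => ?_) ?_
    · exact hu.aestronglyMeasurable.mul
        (hG.measurable.comp (curve_meas (φ i))).aestronglyMeasurable
    · rw [Real.norm_eq_abs, abs_mul]
      exact mul_le_mul_of_nonneg_left (hM _) (abs_nonneg _)
    · filter_upwards [hX] with ω hω
      exact ((hG.tendsto _).comp hω).const_mul _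
  have hμ : Tendsto (fun i => lawH (φ i)) atTop (𝓝 μ) := by
    rw [ProbabilityMeasure.tendsto_iff_forall_integral_tendsto]
    intro F
    have h1 := hlim (G := F) (u := fun _ => 1) (M := ‖F‖) F.continuous
      (fun f => by
        have := F.norm_coe_le_norm f
        rwa [Real.norm_eq_abs] at this) (integrable_const _)
    simp only [one_mul] at h1
    rw [← hμint F.continuous] at h1
    refine h1.congr fun i => ?_
    rw [lawH_int _ F.continuous]
  obtain ⟨a, A, c, ha, hA, hc, -, -, hlarge⟩ := Pool.Agent.R965.HT.large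
  have key : ∀ M : ℕ, 1 ≤ M → ∀ᵐ ω ∂perc, (M : ℝ) ≤ ‖X ω‖ := by
    intro M hM
    have hM1 : (1 : ℝ) ≤ M := by exact_mod_cast hM
    have hM0 : (0 : ℝ) < M := by linarith
    have hpos := (hlarge φ hφ μ hμ (M : ℝ) hM1).1
    set B : Set C(unitInterval, ℂ) := {f | (M : ℝ) ≤ ‖f‖} with hB
    have hBm : MeasurableSet B := (isClosed_le continuous_const continuous_norm).measurableSet
    set G : C(unitInterval, ℂ) → ℝ := fun f => min (‖f‖ / M) 1 with hG
    have hG0 : ∀ f, 0 ≤ G f := fun f => le_min (by positivity) zero_le_one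
    have hG1 : ∀ f, G f ≤ 1 := fun f => min_le_right _ _
    have hGb : ∀ f, |G f| ≤ 1 := fun f => by rw [abs_of_nonneg (hG0 f)]; exact hG1 f
    have hGc : Continuous G := (continuous_norm.div_const _).min continuous_const
    have hGL : ∀ f g, |G f - G g| ≤ 1 * ‖f - g‖ := by
      intro f g
      have h1 : |G f - G g| ≤ |‖f‖ / M - ‖g‖ / M| := by
        have := abs_min_sub_min_le_max (‖f‖ / M) 1 (‖g‖ / M) 1
        simpa using this
      refine h1.trans ?_
      rw [← sub_div, abs_div, abs_of_pos hM0, div_le_iff₀ hM0]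
      have h2 := abs_norm_sub_norm_le f g
      have h3 : ‖f - g‖ * 1 ≤ ‖f - g‖ * M := mul_le_mul_of_nonneg_left hM1 (norm_nonneg _)
      linarith
    set u : Conf → ℝ := fun ω => B.indicator (fun _ => (1 : ℝ)) (X ω) with hu
    have hui : Integrable u perc := by
      refine Integrable.of_bound (C := 1) ?_ (Eventually.of_forall fun ω => ?_)
      · exact ((measurable_const.indicator hBm).comp_aemeasurable hXm).aestronglyMeasurable
      · simp only [hu]
        by_cases h : X ω ∈ B
        · rw [Set.indicator_of_mem h]; norm_num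
        · rw [Set.indicator_of_notMem h]; norm_num
    set m : ℝ := ∫ ω, G (X ω) ∂perc with hm
    have h1 := (perc_weak zero_le_one G hGb hGL u hui).comp hφ
    have h2 := hlim hGc hGb hui
    have h3 := hlim (u := fun _ => 1) hGc hGb (integrable_const _)
    simp only [one_mul] at h3
    rw [← hm] at h3
    have iuG : ∀ i, Integrable (fun ω => u ω * G (curve (φ i) ω)) perc := by
      intro i
      refine (Integrable.bdd_mul (c := 1) hui
        (hGc.measurable.comp (curve_meas (φ i))).aestronglyMeasurable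
        (Eventually.of_forall fun ω => by rw [Real.norm_eq_abs]; exact hGb _)).congr
        (Eventually.of_forall fun ω => ?_)
      exact mul_comm _ _
    have h4 : Tendsto (fun i => ∫ ω, u ω * G (curve (φ i) ω) ∂perc -
        (∫ ω, u ω ∂perc) * ∫ ω, G (curve (φ i) ω) ∂perc) atTop
        (𝓝 (∫ ω, u ω * G (X ω) ∂perc - (∫ ω, u ω ∂perc) * m)) := h2.sub (h3.const_mul _)
    have h5 : ∫ ω, u ω * G (X ω) ∂perc - (∫ ω, u ω ∂perc) * m = 0 := by
      refine tendsto_nhds_unique h4 (h1.congr fun i => ?_)
      show ∫ ω, u ω * (G (curve (φ i) ω) - ∫ ω', G (curve (φ i) ω') ∂perc) ∂perc = _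
      rw [← integral_mul_const, ← integral_sub (iuG i) (hui.mul_const _)]
      refine integral_congr_ae (Eventually.of_forall fun ω => ?_)
      show u ω * (G (curve (φ i) ω) - ∫ ω', G (curve (φ i) ω') ∂perc) = _
      ring
    have h6 : ∫ ω, u ω * G (X ω) ∂perc = ∫ ω, u ω ∂perc := by
      refine integral_congr_ae (Eventually.of_forall fun ω => ?_)
      show u ω * G (X ω) = u ω
      simp only [hu]
      by_cases h : X ω ∈ B
      · have h7 : (M : ℝ) ≤ ‖X ω‖ := h
        have : G (X ω) = 1 := min_eq_right ((one_le_div hM0).2 h7)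
        rw [this, mul_one]
      · rw [Set.indicator_of_notMem h, zero_mul]
    have h7 : 0 < ∫ ω, u ω ∂perc := by
      have e1 : ∫ ω, u ω ∂perc = ((μ : Measure C(unitInterval, ℂ)) B).toReal := by
        have e2 : ∫ f, B.indicator (fun _ => (1 : ℝ)) f ∂(perc.map X) = ∫ ω, u ω ∂perc :=
          integral_map hXm (measurable_const.indicator hBm).aestronglyMeasurable
        rw [← e2, integral_indicator hBm]
        simp [Measure.real]
        rfl
      rw [e1]
      refine ENNReal.toReal_pos ?_ (measure_ne_top _ _)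
      intro h0
      rw [h0] at hpos
      have := ENNReal.ofReal_pos.2 (Real.exp_pos (-(A * (M : ℝ) ^ (7/3 : ℝ))))
      exact absurd hpos (not_le.2 this)
    have h8 : m = 1 := by
      rw [h6] at h5
      have h9 : (∫ ω, u ω ∂perc) * (1 - m) = 0 := by linarith
      rcases mul_eq_zero.1 h9 with h | h
      · exact absurd h h7.ne'
      · linarith
    have iG : Integrable (fun ω => G (X ω)) perc :=
      Integrable.of_bound (hGc.measurable.comp_aemeasurable hXm).aestronglyMeasurable 1
        (Eventually.of_forall fun ω => by rw [Real.norm_eq_abs]; exact hGb _)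
    have h9 : ∫ ω, (1 - G (X ω)) ∂perc = 0 := by
      rw [integral_sub (integrable_const _) iG, ← hm, h8, integral_const, probReal_univ, one_smul,
        sub_self]
    have h10 := (integral_eq_zero_iff_of_nonneg (fun ω => sub_nonneg.2 (hG1 (X ω)))
      ((integrable_const _).sub iG)).1 h9
    filter_upwards [h10] with ω hω
    have h11 : G (X ω) = 1 := by
      have : 1 - G (X ω) = 0 := hω
      linarith
    have h12 : 1 ≤ ‖X ω‖ / M := by
      have h13 : min (‖X ω‖ / M) 1 = 1 := h11
      exact h13.symm.le.trans (min_le_left _ _)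
    rwa [one_le_div hM0] at h12
  have hall : ∀ᵐ ω ∂perc, ∀ M : ℕ, 1 ≤ M → (M : ℝ) ≤ ‖X ω‖ := by
    rw [ae_all_iff]
    intro M
    by_cases hM : 1 ≤ M
    · filter_upwards [key M hM] with ω hω _
      exact hω
    · exact Eventually.of_forall fun ω h => absurd h hM
  obtain ⟨ω, hω⟩ := hall.exists
  obtain ⟨M, hM⟩ := exists_nat_gt ‖X ω‖
  have h1 : 1 ≤ M := by
    rcases Nat.eq_zero_or_pos M with h | h
    · rw [h, Nat.cast_zero] at hM
      exact absurd hM (not_lt.2 (norm_nonneg _))
    · exact h
  exact absurd (hω M h1) (not_le.2 hM)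

/-- **No subsequence converges in probability.** -/
theorem no_prob {φ : ℕ → ℕ} (hφ : Tendsto φ atTop atTop) (X : Conf → C(unitInterval, ℂ)) :
    ¬ TendstoInMeasure perc (fun i => curve (φ i)) atTop X := by
  intro h
  obtain ⟨ns, hns, hae⟩ := h.exists_seq_tendsto_ae
  exact no_ae (φ := fun i => φ (ns i)) (hφ.comp hns.tendsto_atTop) hae

end Zk62.QS
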