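import Pool.Agent.Zk62.QS.Decor
import Pool.Agent.Zk62.QS.Slln
import Pool.Agent.Zk62.QS.Avg

/-!
One sample of the path: averages over scales.
-/

set_option autoImplicit false

namespace Zk62.QS

open H974 Finset H342P H984P H984H MeasureTheory Filter Topology TopologicalSpace

/-- The rescaled curve as a function of the path. -/
noncomputable def curveP (m : ℕ) (p : ℕ → St) : C(unitInterval, ℂ) :=
  H984N.pl m (fun k => (((m : ℝ) ^ (-(4/7) : ℝ) : ℝ) : ℂ) * place (p k))

theorem curveP_path (m : ℕ) (ω : Conf) : curveP m (path ω) = curve m ω := rfl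

theorem curveP_congr (m : ℕ) (p p' : ℕ → St) (h : ∀ k ≤ m, p k = p' k) :
    curveP m p = curveP m p' := by
  apply Perc_pl_congr
  intro k hk
  rw [h k hk]

/-- The variance bound. -/
theorem var_bound {n : ℕ → ℕ} (hn1 : ∀ k, 1 ≤ n k) (hmono : Monotone n) {w : ℕ → ℝ}
    (hw0 : ∀ k, 0 ≤ w k) {c C A : ℝ} (hC : 0 < C)
    (hdec : ∀ (m n : ℕ), 1 ≤ m → m ≤ n → ∀ (L : ℝ), 0 ≤ L →
      ∀ (F : (ℕ → St) → ℝ), (∀ p p' : ℕ → St, (∀ k ≤ m, p k = p' k) → F p = F p') →
      (∀ p, |F p| ≤ 1) → ∀ (G : C(unitInterval, ℂ) → ℝ), (∀ f, |G f| ≤ 1) →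
      (∀ f g, |G f - G g| ≤ L * ‖f - g‖) →
      |∫ ω, F (path ω) * G (curve n ω) ∂perc -
        (∫ ω, F (path ω) ∂perc) * ∫ ω, G (curve n ω) ∂perc| ≤ C * (1 + L) * ((m : ℝ) / n) ^ c)
    (hA : ∀ k, ∑ j ∈ range (k + 1), w j * ((n j : ℝ) / n k) ^ c ≤ A)
    {G : C(unitInterval, ℂ) → ℝ} {L : ℝ} (hL : 0 ≤ L) (hG : ∀ f, |G f| ≤ 1)
    (hGL : ∀ f g, |G f - G g| ≤ L * ‖f - g‖) (hGm : Measurable G) (K : ℕ) :
    ∫ ω, (∑ k ∈ range K, w k * (G (curve (n k) ω) - ∫ ω, G (curve (n k) ω) ∂perc)) ^ 2 ∂perc ≤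
      (2 * (C * (1 + L) * A)) * ∑ k ∈ range K, w k := by
  set Y : ℕ → Conf → ℝ := fun k ω => G (curve (n k) ω) - ∫ ω, G (curve (n k) ω) ∂perc with hY
  have hGc : ∀ k, Measurable fun ω => G (curve (n k) ω) := fun k => hGm.comp (curve_meas (n k))
  have hGi : ∀ k, Integrable (fun ω => G (curve (n k) ω)) perc := fun k =>
    Integrable.of_bound (hGc k).aestronglyMeasurable 1 (Eventually.of_forall fun ω => by
      rw [Real.norm_eq_abs]; exact hG _)
  have hEb : ∀ k, |∫ ω, G (curve (n k) ω) ∂perc| ≤ 1 := by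
    intro k
    have := norm_integral_le_of_norm_le_const (μ := perc)
      (f := fun ω => G (curve (n k) ω)) (C := 1)
      (Eventually.of_forall fun ω => by rw [Real.norm_eq_abs]; exact hG _)
    simpa using this
  have hYm : ∀ k, Measurable (Y k) := fun k => (hGc k).sub_const _
  have hYb : ∀ k ω, |Y k ω| ≤ 2 := by
    intro k ω
    refine (abs_sub _ _).trans ?_
    linarith [hG (curve (n k) ω), hEb k]
  have hYi : ∀ j k, Integrable (fun ω => Y j ω * Y k ω) perc := by
    intro j k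
    refine Integrable.of_bound ((hYm j).mul (hYm k)).aestronglyMeasurable 4
      (Eventually.of_forall fun ω => ?_)
    rw [Real.norm_eq_abs, abs_mul]
    calc |Y j ω| * |Y k ω| ≤ 2 * 2 := mul_le_mul (hYb j ω) (hYb k ω) (abs_nonneg _) (by norm_num)
      _ = 4 := by norm_num
  have hcov : ∀ j k, j ≤ k → |∫ ω, Y j ω * Y k ω ∂perc| ≤
      C * (1 + L) * ((n j : ℝ) / n k) ^ c := by
    intro j k hjk
    have h1 := hdec (n j) (n k) (hn1 j) (hmono hjk) L hL (fun p => G (curveP (n j) p))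
      (fun p p' h => by rw [curveP_congr _ _ _ h]) (fun p => hG _) G hG hGL
    simp only [curveP_path] at h1
    have e : ∫ ω, Y j ω * Y k ω ∂perc = ∫ ω, G (curve (n j) ω) * G (curve (n k) ω) ∂perc -
        (∫ ω, G (curve (n j) ω) ∂perc) * ∫ ω, G (curve (n k) ω) ∂perc := by
      have hpi : Integrable (fun ω => G (curve (n j) ω) * G (curve (n k) ω)) perc := by
        refine Integrable.of_bound ((hGc j).mul (hGc k)).aestronglyMeasurable 1
          (Eventually.of_forall fun ω => ?_)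
        rw [Real.norm_eq_abs, abs_mul]
        exact mul_le_one₀ (hG _) (abs_nonneg _) (hG _)
      have e1 : ∀ ω, Y j ω * Y k ω = (G (curve (n j) ω) * G (curve (n k) ω) -
          (∫ ω, G (curve (n k) ω) ∂perc) * G (curve (n j) ω)) -
          ((∫ ω, G (curve (n j) ω) ∂perc) * G (curve (n k) ω) -
            (∫ ω, G (curve (n j) ω) ∂perc) * ∫ ω, G (curve (n k) ω) ∂perc) := by
        intro ω
        simp only [hY]
        ring
      simp only [e1]
      have t0 : Integrable (fun ω => (∫ ω, G (curve (n k) ω) ∂perc) * G (curve (n j) ω)) perc :=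
        (hGi j).const_mul _
      have t1 : Integrable (fun ω => G (curve (n j) ω) * G (curve (n k) ω) -
          (∫ ω, G (curve (n k) ω) ∂perc) * G (curve (n j) ω)) perc := hpi.sub t0
      have t2 : Integrable (fun ω => (∫ ω, G (curve (n j) ω) ∂perc) * G (curve (n k) ω)) perc :=
        (hGi k).const_mul _
      have t3 : Integrable (fun ω => (∫ ω, G (curve (n j) ω) ∂perc) * G (curve (n k) ω) -
          (∫ ω, G (curve (n j) ω) ∂perc) * ∫ ω, G (curve (n k) ω) ∂perc) perc :=
        t2.sub (integrable_const _)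
      rw [integral_sub t1 t3, integral_sub hpi t0, integral_sub t2 (integrable_const _),
        integral_const_mul, integral_const_mul, integral_const, probReal_univ, one_smul]
      ring
    rw [e]
    exact h1
  have hB0 : 0 ≤ C * (1 + L) := by positivity
  induction K with
  | zero => simp
  | succ K ih =>
    have hSm : Measurable fun ω => ∑ k ∈ range K, w k * Y k ω :=
      Finset.measurable_sum _ fun k _ => (hYm k).const_mul _
    have hSi : Integrable (fun ω => (∑ k ∈ range K, w k * Y k ω) ^ 2) perc := by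
      refine Integrable.of_bound (hSm.pow_const 2).aestronglyMeasurable
        ((∑ k ∈ range K, w k * 2) ^ 2) (Eventually.of_forall fun ω => ?_)
      have hb : |∑ k ∈ range K, w k * Y k ω| ≤ ∑ k ∈ range K, w k * 2 := by
        refine (Finset.abs_sum_le_sum_abs _ _).trans (Finset.sum_le_sum fun k _ => ?_)
        rw [abs_mul, abs_of_nonneg (hw0 k)]
        exact mul_le_mul_of_nonneg_left (hYb k ω) (hw0 k)
      rw [Real.norm_eq_abs, abs_of_nonneg (sq_nonneg _), sq_le_sq]
      exact hb.trans (le_abs_self _)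
    have hci : Integrable (fun ω => ∑ j ∈ range K, w j * (Y j ω * Y K ω)) perc :=
      integrable_finsetSum _ fun j _ => (hYi j K).const_mul _
    have e1 : ∀ ω, (∑ k ∈ range (K + 1), w k * Y k ω) ^ 2 =
        (∑ k ∈ range K, w k * Y k ω) ^ 2 +
          (2 * w K) * ∑ j ∈ range K, w j * (Y j ω * Y K ω) + w K ^ 2 * (Y K ω * Y K ω) := by
      intro ω
      rw [Finset.sum_range_succ]
      have : ∑ j ∈ range K, w j * (Y j ω * Y K ω) = (∑ j ∈ range K, w j * Y j ω) * Y K ω := by
        rw [Finset.sum_mul]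
        exact Finset.sum_congr rfl fun j _ => by ring
      rw [this]
      ring
    have e2 : ∫ ω, (∑ k ∈ range (K + 1), w k * Y k ω) ^ 2 ∂perc =
        ∫ ω, (∑ k ∈ range K, w k * Y k ω) ^ 2 ∂perc +
          (2 * w K) * ∑ j ∈ range K, w j * ∫ ω, Y j ω * Y K ω ∂perc +
            w K ^ 2 * ∫ ω, Y K ω * Y K ω ∂perc := by
      simp only [e1]
      have i1 : Integrable (fun ω => (2 * w K) * ∑ j ∈ range K, w j * (Y j ω * Y K ω)) perc :=
        hci.const_mul _
      have i2 : Integrable (fun ω => w K ^ 2 * (Y K ω * Y K ω)) perc := (hYi K K).const_mul _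
      have i3 : Integrable (fun ω => (∑ k ∈ range K, w k * Y k ω) ^ 2 +
          (2 * w K) * ∑ j ∈ range K, w j * (Y j ω * Y K ω)) perc := hSi.add i1
      rw [integral_add i3 i2, integral_add hSi i1, integral_const_mul, integral_const_mul,
        integral_finsetSum _ fun j _ => (hYi j K).const_mul _]
      congr 2
      congr 1
      exact Finset.sum_congr rfl fun j _ => integral_const_mul _ _
    rw [e2]
    have h3 : ∑ j ∈ range K, w j * ∫ ω, Y j ω * Y K ω ∂perc ≤
        ∑ j ∈ range K, w j * (C * (1 + L) * ((n j : ℝ) / n K) ^ c) := by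
      refine Finset.sum_le_sum fun j hj => mul_le_mul_of_nonneg_left ?_ (hw0 j)
      exact (le_abs_self _).trans (hcov j K (Finset.mem_range.1 hj).le)
    have h4 : w K ^ 2 * ∫ ω, Y K ω * Y K ω ∂perc ≤
        (2 * w K) * (w K * (C * (1 + L) * ((n K : ℝ) / n K) ^ c)) := by
      have h5 : ∫ ω, Y K ω * Y K ω ∂perc ≤ C * (1 + L) * ((n K : ℝ) / n K) ^ c :=
        (le_abs_self _).trans (hcov K K le_rfl)
      have h6 : 0 ≤ C * (1 + L) * ((n K : ℝ) / n K) ^ c := by positivity
      have h7 : 0 ≤ w K ^ 2 := sq_nonneg _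
      calc w K ^ 2 * ∫ ω, Y K ω * Y K ω ∂perc
          ≤ w K ^ 2 * (C * (1 + L) * ((n K : ℝ) / n K) ^ c) := mul_le_mul_of_nonneg_left h5 h7
        _ ≤ 2 * (w K ^ 2 * (C * (1 + L) * ((n K : ℝ) / n K) ^ c)) := by
            have := mul_nonneg h7 h6
            linarith
        _ = _ := by ring
    have h8 : (2 * w K) * ∑ j ∈ range K, w j * ∫ ω, Y j ω * Y K ω ∂perc ≤
        (2 * w K) * ∑ j ∈ range K, w j * (C * (1 + L) * ((n j : ℝ) / n K) ^ c) :=
      mul_le_mul_of_nonneg_left h3 (by linarith [hw0 K])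
    have h9 : (2 * w K) * ∑ j ∈ range K, w j * (C * (1 + L) * ((n j : ℝ) / n K) ^ c) +
        (2 * w K) * (w K * (C * (1 + L) * ((n K : ℝ) / n K) ^ c)) ≤
          (2 * (C * (1 + L) * A)) * w K := by
      have e3 : (2 * w K) * ∑ j ∈ range K, w j * (C * (1 + L) * ((n j : ℝ) / n K) ^ c) +
        (2 * w K) * (w K * (C * (1 + L) * ((n K : ℝ) / n K) ^ c)) =
          (2 * w K) * ((C * (1 + L)) * ∑ j ∈ range (K + 1), w j * ((n j : ℝ) / n K) ^ c) := by
        rw [← mul_add, ← Finset.sum_range_succ (fun j => w j * (C * (1 + L) *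
          ((n j : ℝ) / n K) ^ c)), Finset.mul_sum (range (K + 1)) _ (C * (1 + L))]
        congr 1
        exact Finset.sum_congr rfl fun j _ => by ring
      rw [e3]
      have h10 := mul_le_mul_of_nonneg_left (hA K) hB0
      have h11 := mul_le_mul_of_nonneg_left h10 (show 0 ≤ 2 * w K by linarith [hw0 K])
      refine h11.trans (le_of_eq ?_)
      ring
    rw [Finset.sum_range_succ]
    have h12 : (2 * (C * (1 + L) * A)) * (∑ k ∈ range K, w k + w K) =
        (2 * (C * (1 + L) * A)) * ∑ k ∈ range K, w k + (2 * (C * (1 + L) * A)) * w K := by ring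
    rw [h12]
    linarith

/-- One sample: averages over scales are asymptotically the same as the averages of the laws. -/
theorem one_sample {n : ℕ → ℕ} (hn1 : ∀ k, 1 ≤ n k) (hmono : Monotone n) {w : ℕ → ℝ}
    (hw0 : ∀ k, 0 ≤ w k) (hw1 : ∀ k, w k ≤ 1)
    (hW : Tendsto (fun K => ∑ k ∈ range K, w k) atTop atTop)
    (hA : ∀ c : ℝ, 0 < c → ∃ A : ℝ, ∀ k, ∑ j ∈ range (k + 1), w j * ((n j : ℝ) / n k) ^ c ≤ A) :
    ∀ᵐ ω ∂perc, ∀ F : BoundedContinuousFunction C(unitInterval, ℂ) ℝ, Tendsto (fun K =>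
      (∑ k ∈ range K, w k * (F (curve (n k) ω) -
        ∫ f, F f ∂(lawH (n k) : Measure C(unitInterval, ℂ)))) / ∑ k ∈ range K, w k)
        atTop (𝓝 0) := by
  obtain ⟨c, C, hc, hC, hdec⟩ := decor
  obtain ⟨A, hA⟩ := hA c hc
  have hfam : ∀ᵐ ω ∂perc, ∀ (T : Finset (countableBasis C(unitInterval, ℂ))) (m : ℕ),
      Tendsto (fun K => (∑ k ∈ range K, w k * (gf T m (curve (n k) ω) -
        ∫ ω, gf T m (curve (n k) ω) ∂perc)) / ∑ k ∈ range K, w k) atTop (𝓝 0) := by
    rw [ae_all_iff]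
    intro T
    rw [ae_all_iff]
    intro m
    have hG := gf_abs (X := C(unitInterval, ℂ)) T m
    have hGL : ∀ f g : C(unitInterval, ℂ), |gf T m f - gf T m g| ≤ ((m : ℝ) + 1) * ‖f - g‖ := by
      intro f g
      rw [← dist_eq_norm]
      exact gf_lip T m f g
    have hGm : Measurable (gf (X := C(unitInterval, ℂ)) T m) := (gf_cont T m).measurable
    have hEb : ∀ k, |∫ ω, gf T m (curve (n k) ω) ∂perc| ≤ 1 := by
      intro k
      have := norm_integral_le_of_norm_le_const (μ := perc)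
        (f := fun ω => gf T m (curve (n k) ω)) (C := 1)
        (Eventually.of_forall fun ω => by rw [Real.norm_eq_abs]; exact hG _)
      simpa using this
    refine slln (P := perc) hw0 hw1 hW
      (Y := fun k ω => gf T m (curve (n k) ω) - ∫ ω, gf T m (curve (n k) ω) ∂perc)
      (fun k => (hGm.comp (curve_meas (n k))).sub_const _) (fun k ω => ?_)
      (B := 2 * (C * (1 + ((m : ℝ) + 1)) * A)) (fun K => ?_)
    · refine (abs_sub _ _).trans ?_
      linarith [hG (curve (n k) ω), hEb k]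
    · exact var_bound hn1 hmono hw0 hC hdec hA (by positivity) hG hGL hGm K
  filter_upwards [hfam] with ω hω F
  have hint : ∀ (G : C(unitInterval, ℂ) → ℝ) (_ : Continuous G) (k : ℕ),
      ∫ f, G f ∂(lawH (n k) : Measure C(unitInterval, ℂ)) = ∫ ω, G (curve (n k) ω) ∂perc :=
    fun G hG k => lawH_int (n k) hG
  obtain ⟨νd, hνd⟩ : ∃ νd : ℕ → ProbabilityMeasure C(unitInterval, ℂ), ∀ k,
      (νd k : Measure C(unitInterval, ℂ)) = Measure.dirac (curve (n k) ω) :=
    ⟨fun k => ⟨Measure.dirac (curve (n k) ω), inferInstance⟩, fun k => rfl⟩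
  have hdir : ∀ (G : C(unitInterval, ℂ) → ℝ) (_ : Continuous G) (k : ℕ),
      ∫ f, G f ∂(νd k : Measure C(unitInterval, ℂ)) = G (curve (n k) ω) := by
    intro G hG k
    rw [hνd]
    exact integral_dirac' G _ hG.stronglyMeasurable
  have hight : IsTightMeasureSet {((μ : ProbabilityMeasure C(unitInterval, ℂ)) :
      Measure C(unitInterval, ℂ)) | μ ∈ Set.range fun k => lawH (n k)} := by
    refine IsTightMeasureSet.subset (LS.tight_set LS.scaling) ?_
    rintro μ ⟨ν, ⟨k, rfl⟩, rfl⟩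
    exact ⟨lawH (n k), ⟨n k, rfl⟩, rfl⟩
  have hmain := to_all (X := C(unitInterval, ℂ)) hw0 hW (μs := fun k => lawH (n k))
    (νs := νd) hight (fun T m => by
      refine (hω T m).congr fun K => ?_
      congr 1
      refine Finset.sum_congr rfl fun k _ => ?_
      rw [hint _ (gf_cont T m) k, hdir _ (gf_cont T m) k]) F
  refine hmain.congr fun K => ?_
  congr 1
  refine Finset.sum_congr rfl fun k _ => ?_
  rw [hdir _ F.continuous k]

end Zk62.QS
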