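import Pool.Agent.H984R4.HN.Ret

/-!
The part of the exploration path outside a closed dual half-circuit does not depend on the
configuration inside.
-/

set_option autoImplicit false

namespace Zk62.QS

open H974 Finset H342P H984P H984H MeasureTheory

/-- The edge has both ends in the box of radius `r`. -/
def InB (r : ℤ) (e : Edg) : Prop := sd (src e) (0, 0) ≤ r ∧ sd (tgt e) (0, 0) ≤ r

/-- The configurations agree outside the box of radius `r`. -/
def Agr (r : ℤ) (ω ω' : Conf) : Prop := ∀ e : Edg, ¬ InB r e → ω e = ω' e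

theorem Agr.symm {r : ℤ} {ω ω' : Conf} (h : Agr r ω ω') : Agr r ω' ω := fun e he => (h e he).symm

/-- The step which enters the region outside. -/
theorem enter (ω : Conf) {r R : ℤ} (hr : 0 ≤ r) (hrR : r < R)
    (hS : ∀ v ∈ Ret_S ω r, sd v (0, 0) < R) {k : ℕ} (hk : (path ω k).1 ∉ Ret_T ω r R)
    (hk1 : (path ω (k + 1)).1 ∈ Ret_T ω r R) :
    ∃ x : ℤ, x < 0 ∧ path ω (k + 1) = ((x, 0), .ne) ∧ ((x + 1, 0) : Vtx) ∈ Ret_S ω r ∧
      ((x, 0) : Vtx) ∈ Ret_T ω r R := by
  have hnn := path_nonneg ω k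
  rw [path_succ] at hk1 ⊢
  generalize hσ : path ω k = σ at hk hnn hk1 ⊢
  have hvne : (step (opn ω) σ).1 ≠ σ.1 := fun h => hk (by rw [← h]; exact hk1)
  obtain ⟨hk0, hkS, w, hw, hkw⟩ := hk1
  -- the old vertex is in the cluster
  have hS1 : σ.1 ∈ Ret_S ω r := by
    by_contra hcon
    rcases Ret_step_cases (opn ω) σ with h | ⟨e, he, hc, -⟩
    · exact hvne h
    · apply hk
      have he0 : 0 ≤ e.2.1 := Step_opn he
      refine ⟨hnn, hcon, w, hw, Reach.trans (Adj.reach ⟨e, ⟨he0, ?_, ?_⟩, hc⟩) hkw⟩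
      · rcases hc with ⟨h1, h2⟩ | ⟨h1, h2⟩
        · rw [h1]; exact hcon
        · rw [h1]; exact hkS
      · rcases hc with ⟨h1, h2⟩ | ⟨h1, h2⟩
        · rw [h2]; exact hkS
        · rw [h2]; exact hcon
  have hT1 : (step (opn ω) σ).1 ∈ Ret_T ω r R := ⟨hk0, hkS, w, hw, hkw⟩
  -- edges of the cluster do not leave it
  have hO : ∀ e : Edg, e ∈ opn ω → ((src e = σ.1 ∧ tgt e = (step (opn ω) σ).1) ∨
      (src e = (step (opn ω) σ).1 ∧ tgt e = σ.1)) → e.2.1 = 0 ∧ e.2.2 = true ∧ e.1 < 0 := by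
    intro e he hc
    rcases he with h | h
    · exact h
    · exact absurd (Ret_S_closed hS1 ⟨e, h, hc⟩) hkS
  obtain ⟨⟨x, y⟩, q⟩ := σ
  simp only at hS1 hnn
  cases q
  all_goals simp only [step] at hvne hT1 hO hkS ⊢
  · split_ifs at hvne hT1 hO hkS ⊢ with hc
    · have := hO _ hc (Or.inl ⟨rfl, by simp⟩)
      simp at this
    · exact absurd rfl hvne
  · split_ifs at hvne hT1 hO hkS ⊢ with hc
    · obtain ⟨h1, -, h3⟩ := hO _ hc (Or.inr ⟨rfl, by simp⟩)
      simp only at h1 h3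
      subst h1
      refine ⟨x - 1, h3, rfl, ?_, hT1⟩
      rw [sub_add_cancel]
      exact hS1
    · exact absurd rfl hvne
  · split_ifs at hvne hT1 hO hkS ⊢ with hc
    · have := hO _ hc (Or.inr ⟨rfl, by simp⟩)
      simp at this
    · exact absurd rfl hvne
  · split_ifs at hvne hT1 hO hkS ⊢ with hc
    · obtain ⟨h1, -, h3⟩ := hO _ hc (Or.inl ⟨rfl, by simp⟩)
      simp only at h1 h3
      subst h1
      exfalso
      exact Ret_planar hr hrR hS h3 hS1 hT1
    · exact absurd rfl hvne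

/-- The place where the path leaves is determined by the cluster. -/
theorem unique {ω : Conf} {r R : ℤ} (hr : 0 ≤ r) (hrR : r < R)
    (hS : ∀ v ∈ Ret_S ω r, sd v (0, 0) < R) {x x' : ℤ} (hx : x < 0) (hx' : x' < 0)
    (h1 : ((x + 1, 0) : Vtx) ∈ Ret_S ω r) (h2 : ((x, 0) : Vtx) ∈ Ret_T ω r R)
    (h1' : ((x' + 1, 0) : Vtx) ∈ Ret_S ω r) (h2' : ((x', 0) : Vtx) ∈ Ret_T ω r R) : x = x' := by
  have key : ∀ a b : ℤ, b < 0 → ((a, 0) : Vtx) ∈ Ret_S ω r → ((b, 0) : Vtx) ∈ Ret_T ω r R →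
      ¬ a < b := by
    intro a b hb hS1 hT1 hab
    -- move to the left inside `T`
    have hmove : ∀ n : ℕ, (∀ j : ℕ, j ≤ n → ((b - j, 0) : Vtx) ∉ Ret_S ω r) →
        ((b - n, 0) : Vtx) ∈ Ret_T ω r R := by
      intro n
      induction n with
      | zero => intro _; simpa using hT1
      | succ n ih =>
        intro hj
        obtain ⟨-, h3, w, hw, hreach⟩ := ih fun j hjn => hj j (by omega)
        have h4 := hj (n + 1) le_rfl
        refine ⟨le_rfl, h4, w, hw, Reach.trans (Adj.reach ⟨(b - (n + 1 : ℕ), 0, true),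
          ⟨le_rfl, h4, ?_⟩, Or.inl ⟨rfl, ?_⟩⟩) hreach⟩
        · rw [tgt_true]
          have : b - ((n + 1 : ℕ) : ℤ) + 1 = b - n := by push_cast; ring
          rw [this]
          exact h3
        · rw [tgt_true]
          have : b - ((n + 1 : ℕ) : ℤ) + 1 = b - n := by push_cast; ring
          rw [this]
    have hex : ∃ j : ℕ, ((b - j, 0) : Vtx) ∈ Ret_S ω r := by
      refine ⟨(b - a).toNat, ?_⟩
      have : b - ((b - a).toNat : ℤ) = a := by omega
      rw [this]
      exact hS1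
    classical
    have hf := Nat.find_spec hex
    have h0 : Nat.find hex ≠ 0 := by
      intro h0
      rw [h0] at hf
      simp only [Nat.cast_zero, sub_zero] at hf
      exact hT1.2.1 hf
    have hT2 := hmove (Nat.find hex - 1) fun j hj => Nat.find_min hex (by omega)
    refine Ret_planar hr hrR hS (x := b - (Nat.find hex : ℤ)) (by omega) hf ?_
    have : b - (Nat.find hex : ℤ) + 1 = b - ((Nat.find hex - 1 : ℕ) : ℤ) := by omega
    rw [this]
    exact hT2
  have a1 := key (x + 1) x' hx' h1 h2'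
  have a2 := key (x' + 1) x hx h1' h2
  have a3 : x + 1 ≠ x' := by
    rintro rfl
    exact h2'.2.1 h1
  have a4 : x' + 1 ≠ x := by
    rintro rfl
    exact h2.2.1 h1'
  omega

/-- The cluster of the half-box does not depend on the edges in the box. -/
theorem S_congr {r : ℤ} {ω ω' : Conf} (h : Agr r ω ω') : Ret_S ω r = Ret_S ω' r := by
  have key : ∀ ω ω' : Conf, Agr r ω ω' → Ret_S ω r ⊆ Ret_S ω' r := by
    intro ω ω' h v hv
    obtain ⟨u, hu, hu0, hreach⟩ := hv
    induction hreach with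
    | refl => exact ⟨u, hu, hu0, Reach.refl _ _⟩
    | @tail w w' hw hs ih =>
      have hw0 := Ret_O_nonneg hu0 hw
      have hw0' := Ret_O_nonneg hu0 (Relation.ReflTransGen.tail hw hs)
      obtain ⟨e, he, hc⟩ := hs
      by_cases hin : InB r e
      · refine ⟨w', ?_, hw0', Reach.refl _ _⟩
        rcases hc with ⟨h1, h2⟩ | ⟨h1, h2⟩
        · rw [← h2]; exact hin.2
        · rw [← h1]; exact hin.1
      · apply Ret_S_closed ih
        refine ⟨e, ⟨he.1, he.2.1, ?_⟩, hc⟩
        rw [← h e hin]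
        exact he.2.2
  exact Set.Subset.antisymm (key ω ω' h) (key ω' ω h.symm)

theorem T_congr {r R : ℤ} {ω ω' : Conf} (h : Agr r ω ω') : Ret_T ω r R = Ret_T ω' r R := by
  unfold Ret_T
  rw [S_congr h]

/-- Once outside, always outside. -/
theorem stay_T (ω : Conf) {r R : ℤ} (hr : 0 ≤ r) (hrR : r < R)
    (hS : ∀ v ∈ Ret_S ω r, sd v (0, 0) < R) {k : ℕ} (hk : (path ω k).1 ∈ Ret_T ω r R) (j : ℕ) :
    (path ω (k + j)).1 ∈ Ret_T ω r R := by
  induction j with
  | zero => exact hk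
  | succ n ih => exact Ret_step_T ω hr hrR hS ih

/-- The first time outside. -/
theorem first_T (ω : Conf) {r R : ℤ} (hr : 0 ≤ r) (hrR : r < R)
    (hS : ∀ v ∈ Ret_S ω r, sd v (0, 0) < R) {N : ℕ} (hN : R ≤ sd (path ω N).1 (0, 0)) :
    ∃ k ≤ N, ∃ x : ℤ, x < 0 ∧ path ω k = ((x, 0), .ne) ∧ ((x + 1, 0) : Vtx) ∈ Ret_S ω r ∧
      ((x, 0) : Vtx) ∈ Ret_T ω r R := by
  classical
  have hT : (path ω N).1 ∈ Ret_T ω r R := by
    refine ⟨path_nonneg ω N, fun h => ?_, _, hN, Reach.refl _ _⟩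
    have := hS _ h
    omega
  have hex : ∃ k, (path ω k).1 ∈ Ret_T ω r R := ⟨N, hT⟩
  have hf := Nat.find_spec hex
  have h0 : Nat.find hex ≠ 0 := by
    intro h0
    rw [h0] at hf
    apply hf.2.1
    refine ⟨(0, 0), ?_, le_rfl, Reach.refl _ _⟩
    simp only [sd, sub_self, abs_zero, max_self]
    exact hr
  obtain ⟨k, hk⟩ := Nat.exists_eq_succ_of_ne_zero h0
  have h1 := Nat.find_min hex (m := k) (by omega)
  rw [hk] at hf
  obtain ⟨x, hx⟩ := enter ω hr hrR hS h1 hf
  refine ⟨k + 1, ?_, x, hx⟩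
  have := Nat.find_min' hex hT
  omega

/-- The paths of two configurations which agree outside the box of radius `r` are equal from
certain times on. -/
theorem merge {ω ω' : Conf} {r R : ℤ} (hr : 0 ≤ r) (hrR : r < R) (h : Agr r ω ω')
    (hS : ∀ v ∈ Ret_S ω r, sd v (0, 0) < R) {N N' : ℕ} (hN : R ≤ sd (path ω N).1 (0, 0))
    (hN' : R ≤ sd (path ω' N').1 (0, 0)) :
    ∃ k ≤ N, ∃ k' ≤ N', ∀ j : ℕ, path ω (k + j) = path ω' (k' + j) := by
  have hS' : ∀ v ∈ Ret_S ω' r, sd v (0, 0) < R := by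
    rw [← S_congr h]; exact hS
  obtain ⟨k, hk, x, hx, h1, h2, h3⟩ := first_T ω hr hrR hS hN
  obtain ⟨k', hk', x', hx', h1', h2', h3'⟩ := first_T ω' hr hrR hS' hN'
  have hxx : x = x' := by
    rw [← S_congr h] at h2'
    rw [← T_congr h] at h3'
    exact unique hr hrR hS hx hx' h2 h3 h2' h3'
  subst hxx
  refine ⟨k, hk, k', hk', fun j => ?_⟩
  induction j with
  | zero => rw [add_zero, add_zero, h1, h1']
  | succ j ih =>
    rw [← add_assoc, ← add_assoc, path_succ, path_succ, ← ih]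
    apply step_congr
    intro e he
    have hT := stay_T ω hr hrR hS (k := k) (by rw [h1]; exact h3) j
    have hout : ¬ InB r e := by
      intro hin
      apply hT.2.1
      refine ⟨_, ?_, path_nonneg ω _, Reach.refl _ _⟩
      rcases he with he | he
      · rw [← he]; exact hin.1
      · rw [← he]; exact hin.2
    have h4 := h e hout
    simp only [opn, Set.mem_ofPred_eq, h4]

end Zk62.QS
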