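import Pool.Agent.Zk62.QS.Mix

/-!
The future of the path does not depend on finitely many edges.
-/

set_option autoImplicit false

namespace Zk62.QS

open H974 Finset H342P H984P H984H MeasureTheory Filter Topology

/-- The path leaves every box. -/
theorem exits (ω : Conf) (R : ℤ) : ∃ N : ℕ, R ≤ sd (path ω N).1 (0, 0) := by
  by_contra hcon
  push Not at hcon
  have hfin : Set.Finite {σ : St | sd σ.1 (0, 0) < R} := by
    have hb : Set.Finite {v : Vtx | sd v (0, 0) < R} := by
      refine Set.Finite.subset (s := Set.Icc ((-R, -R) : ℤ × ℤ) (R, R)) (Set.finite_Icc _ _) ?_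
      rintro v hv
      rw [Set.mem_ofPred_eq, Ret_sd] at hv
      have h1 := (le_max_left |v.1| |v.2|).trans_lt hv
      have h2 := (le_max_right |v.1| |v.2|).trans_lt hv
      rw [abs_lt] at h1 h2
      exact ⟨⟨h1.1.le, h2.1.le⟩, ⟨h1.2.le, h2.2.le⟩⟩
    refine Set.Finite.subset (hb.prod (Set.finite_univ (α := Q4))) ?_
    rintro σ hσ
    exact ⟨hσ, Set.mem_univ _⟩
  have hinf : Set.Infinite (Set.range (path ω)) := by
    apply Set.infinite_range_of_injective
    intro i j hij
    by_contra hne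
    exact path_inj ω hne hij
  exact hinf (hfin.subset (by rintro _ ⟨k, rfl⟩; exact hcon k))

/-- The probability of an arm from a fixed box tends to zero. -/
theorem A2_zero {r : ℕ} (h0 : 1 ≤ r) :
    Tendsto (fun R : ℕ => perc.real (A2 r R)) atTop (𝓝 0) := by
  obtain ⟨a, A, ha, hA, hb⟩ := A2_bound
  have hlim : Tendsto (fun R : ℕ => A * ((r : ℝ) / R) ^ a) atTop (𝓝 0) := by
    have h1 : Tendsto (fun R : ℕ => (r : ℝ) / R) atTop (𝓝 0) :=
      tendsto_const_div_atTop_nhds_zero_nat _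
    have h2 := (h1.rpow_const (p := a) (Or.inr ha.le)).const_mul A
    rwa [Real.zero_rpow ha.ne', mul_zero] at h2
  refine tendsto_of_tendsto_of_tendsto_of_le_of_le' tendsto_const_nhds hlim
    (Eventually.of_forall fun R => measureReal_nonneg) ?_
  filter_upwards [eventually_ge_atTop r] with R hR
  exact hb r R h0 hR

/-- Boxes are surrounded by closed dual half-circuits. -/
theorem no_arm : ∀ᵐ ω ∂perc, ∀ r : ℕ, 1 ≤ r → ∃ R : ℕ, r < R ∧ ω ∉ A2 r R := by
  rw [ae_all_iff]
  intro r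
  by_cases h0 : 1 ≤ r
  swap
  · exact Eventually.of_forall fun ω h => absurd h h0
  have hkey : ∀ᵐ ω ∂perc, ∃ R : ℕ, r < R ∧ ω ∉ A2 r R := by
    rw [ae_iff]
    have hsub : ∀ R : ℕ, r < R → {ω : Conf | ¬ ∃ R : ℕ, r < R ∧ ω ∉ A2 r R} ⊆ A2 r R := by
      intro R hR ω hω
      by_contra hcon
      exact hω ⟨R, hR, hcon⟩
    have hz : perc.real {ω : Conf | ¬ ∃ R : ℕ, r < R ∧ ω ∉ A2 r R} ≤ 0 := by
      refine ge_of_tendsto (A2_zero h0) ?_
      filter_upwards [eventually_gt_atTop r] with R hR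
      exact measureReal_mono (hsub R hR)
    have hz' := le_antisymm hz measureReal_nonneg
    rwa [measureReal_eq_zero_iff] at hz'
  filter_upwards [hkey] with ω hω _
  exact hω

/-- The future of the path, as a set-valued curve without time, does not depend on finitely
many edges. -/
theorem coalesce : ∀ᵐ ω ∂perc, ∀ ω' : Conf, {e : Edg | ω e ≠ ω' e}.Finite →
    ∃ k k' : ℕ, ∀ j : ℕ, path ω (k + j) = path ω' (k' + j) := by
  filter_upwards [no_arm] with ω hω ω' hfin
  -- a box
  obtain ⟨b, hb⟩ : ∃ b : ℤ, ∀ e ∈ {e : Edg | ω e ≠ ω' e}, InB b e := by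
    have h1 := (hfin.image (fun e : Edg => sd (src e) (0, 0))).bddAbove
    have h2 := (hfin.image (fun e : Edg => sd (tgt e) (0, 0))).bddAbove
    obtain ⟨b1, h1⟩ := h1
    obtain ⟨b2, h2⟩ := h2
    refine ⟨max b1 b2, fun e he => ⟨?_, ?_⟩⟩
    · exact (h1 (Set.mem_image_of_mem _ he)).trans (le_max_left _ _)
    · exact (h2 (Set.mem_image_of_mem _ he)).trans (le_max_right _ _)
  set r : ℕ := (max b 1).toNat with hr
  have hr1 : 1 ≤ r := by
    have := le_max_right b 1
    omega
  have hrb : b ≤ (r : ℤ) := by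
    have := le_max_left b 1
    omega
  have hagr : Agr r ω ω' := by
    intro e he
    by_contra hcon
    obtain ⟨h1, h2⟩ := hb e hcon
    exact he ⟨h1.trans hrb, h2.trans hrb⟩
  obtain ⟨R, hrR, hR⟩ := hω r hr1
  have hS : ∀ v ∈ Ret_S ω r, sd v (0, 0) < R := by
    intro v hv
    by_contra hcon
    exact hR (Ret_arm ω hrR hv (not_lt.1 hcon))
  obtain ⟨N, hN⟩ := exits ω R
  obtain ⟨N', hN'⟩ := exits ω' R
  obtain ⟨k, -, k', -, hm⟩ := merge (r := (r : ℤ)) (R := (R : ℤ)) (by omega)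
    (by exact_mod_cast hrR) hagr hS hN hN'
  exact ⟨k, k', hm⟩

end Zk62.QS
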