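import Mathlib

/-!
Constants in laws of the iterated logarithm from zero-one laws.
-/

set_option autoImplicit false

open MeasureTheory Filter Topology

namespace Zk62.QS

theorem const_of {Ω : Type*} [MeasurableSpace Ω] {μ : Measure Ω} [IsProbabilityMeasure μ]
    {E : ℝ → Set Ω} (hE : Antitone E)
    (h01 : ∀ b : ℝ, μ {ω | ∀ q : ℚ, (q : ℝ) < b → ω ∈ E q} = 0 ∨
      μ {ω | ∀ q : ℚ, (q : ℝ) < b → ω ∈ E q} = 1)
    (hm : ∀ b : ℝ, MeasurableSet {ω | ∀ q : ℚ, (q : ℝ) < b → ω ∈ E q})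
    {c C : ℝ} (hc : ∀ᵐ ω ∂μ, ω ∈ E c) (hC : ∀ᵐ ω ∂μ, ω ∉ E C) :
    ∃ κ : ℝ, c ≤ κ ∧ κ ≤ C ∧ ∀ᵐ ω ∂μ, (∀ b < κ, ω ∈ E b) ∧ ∀ b, κ < b → ω ∉ E b := by
  set F : ℝ → Set Ω := fun b => {ω | ∀ q : ℚ, (q : ℝ) < b → ω ∈ E q} with hF
  have hFE : ∀ b b' : ℝ, b < b' → F b' ⊆ E b := by
    intro b b' hbb ω hω
    obtain ⟨q, h1, h2⟩ := exists_rat_btwn hbb
    exact hE h1.le (hω q h2)
  have hEF : ∀ b, E b ⊆ F b := fun b ω hω q hq => hE hq.le hω
  set S : Set ℝ := {b | μ (F b) = 1} with hS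
  have hcS : c ∈ S := by
    have h1 : μ (F c)ᶜ = 0 := by
      refine measure_mono_null (t := (E c)ᶜ) (Set.compl_subset_compl.2 (hEF c)) ?_
      exact hc
    exact (prob_compl_eq_zero_iff (hm c)).1 h1
  have hSC : ∀ b ∈ S, b ≤ C := by
    intro b hb
    by_contra hcon
    have h1 : μ (F b) = 0 := by
      refine measure_mono_null (hFE C b (not_le.1 hcon)) ?_
      rw [ae_iff] at hC
      simpa using hC
    have h2 : μ (F b) = 1 := hb
    rw [h1] at h2
    exact zero_ne_one h2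
  have hbdd : BddAbove S := ⟨C, hSC⟩
  refine ⟨sSup S, le_csSup hbdd hcS, csSup_le ⟨c, hcS⟩ hSC, ?_⟩
  have h1 : ∀ᵐ ω ∂μ, ∀ q : ℚ, (q : ℝ) < sSup S → ω ∈ E q := by
    rw [ae_all_iff]
    intro q
    by_cases hq : (q : ℝ) < sSup S
    · obtain ⟨b, hb, hqb⟩ := exists_lt_of_lt_csSup ⟨c, hcS⟩ hq
      have h2 : ∀ᵐ ω ∂μ, ω ∈ F b := (prob_compl_eq_zero_iff (hm b)).2 hb
      filter_upwards [h2] with ω hω _
      exact hFE q b hqb hω
    · exact Eventually.of_forall fun ω h => absurd h hq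
  have h2 : ∀ᵐ ω ∂μ, ∀ q : ℚ, sSup S < (q : ℝ) → ω ∉ F q := by
    rw [ae_all_iff]
    intro q
    by_cases hq : sSup S < (q : ℝ)
    · have h3 : μ (F q) = 0 := by
        rcases h01 q with h | h
        · exact h
        · exact absurd (le_csSup hbdd h) (not_le.2 hq)
      have h4 : ∀ᵐ ω ∂μ, ω ∉ F q := by
        rw [ae_iff]
        simpa using h3
      filter_upwards [h4] with ω hω _
      exact hω
    · exact Eventually.of_forall fun ω h => absurd h hq
  filter_upwards [h1, h2] with ω g1 g2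
  refine ⟨fun b hb => ?_, fun b hb hωb => ?_⟩
  · obtain ⟨q, hq1, hq2⟩ := exists_rat_btwn hb
    exact hE hq1.le (g1 q hq2)
  · obtain ⟨q, hq1, hq2⟩ := exists_rat_btwn hb
    exact g2 q hq1 fun q' hq' => hE (hq'.le.trans hq2.le) hωb

theorem ratio_log {u v : ℕ → ℝ} (hu : Tendsto u atTop atTop) (hv : Tendsto v atTop atTop)
    (h : Tendsto (fun j => u j / v j) atTop (𝓝 1)) :
    Tendsto (fun j => Real.log (u j) / Real.log (v j)) atTop (𝓝 1) := by
  have h1 : Tendsto (fun j => Real.log (u j / v j)) atTop (𝓝 0) := by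
    have := (Real.continuousAt_log (x := 1) one_ne_zero).tendsto.comp h
    rwa [Real.log_one] at this
  have h2 : Tendsto (fun j => Real.log (v j)) atTop atTop := Real.tendsto_log_atTop.comp hv
  have h3 : Tendsto (fun j => 1 + Real.log (u j / v j) / Real.log (v j)) atTop (𝓝 (1 + 0)) :=
    tendsto_const_nhds.add (h1.div_atTop h2)
  rw [add_zero] at h3
  refine h3.congr' ?_
  filter_upwards [hu.eventually_gt_atTop 0, hv.eventually_gt_atTop 1] with j hj1 hj2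
  have hv0 : 0 < v j := by linarith
  have hl : 0 < Real.log (v j) := Real.log_pos hj2
  rw [Real.log_div hj1.ne' hv0.ne']
  field_simp
  ring

theorem ratio_nat (k k' : ℕ) :
    Tendsto (fun j : ℕ => ((j + k' : ℕ) : ℝ) / ((j + k : ℕ) : ℝ)) atTop (𝓝 1) := by
  have h1 : Tendsto (fun j : ℕ => 1 + ((k' : ℝ) - k) / ((j + k : ℕ) : ℝ)) atTop (𝓝 (1 + 0)) := by
    refine tendsto_const_nhds.add (Tendsto.div_atTop tendsto_const_nhds ?_)
    exact tendsto_natCast_atTop_atTop.comp (tendsto_add_atTop_nat k)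
  rw [add_zero] at h1
  refine h1.congr' ?_
  filter_upwards [eventually_gt_atTop 0] with j hj
  have : (0 : ℝ) < ((j + k : ℕ) : ℝ) := by exact_mod_cast (by omega : 0 < j + k)
  field_simp
  push_cast
  ring

/-- The ratio of the normalisations. -/
theorem ratio_norm (a b : ℝ) (k k' : ℕ) :
    Tendsto (fun j : ℕ => (((j + k' : ℕ) : ℝ) ^ a * Real.log (Real.log ((j + k' : ℕ) : ℝ)) ^ b) /
      (((j + k : ℕ) : ℝ) ^ a * Real.log (Real.log ((j + k : ℕ) : ℝ)) ^ b)) atTop (𝓝 1) := by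
  have c1 : ∀ k : ℕ, Tendsto (fun j : ℕ => ((j + k : ℕ) : ℝ)) atTop atTop := fun k =>
    tendsto_natCast_atTop_atTop.comp (tendsto_add_atTop_nat k)
  have c2 : ∀ k : ℕ, Tendsto (fun j : ℕ => Real.log ((j + k : ℕ) : ℝ)) atTop atTop := fun k =>
    Real.tendsto_log_atTop.comp (c1 k)
  have c3 : ∀ k : ℕ, Tendsto (fun j : ℕ => Real.log (Real.log ((j + k : ℕ) : ℝ))) atTop atTop :=
    fun k => Real.tendsto_log_atTop.comp (c2 k)
  have h1 := ratio_nat k k'
  have h2 := ratio_log (c1 k') (c1 k) h1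
  have h3 := ratio_log (c2 k') (c2 k) h2
  have h4 := (h1.rpow_const (p := a) (Or.inl one_ne_zero)).mul
    (h3.rpow_const (p := b) (Or.inl one_ne_zero))
  rw [Real.one_rpow, Real.one_rpow, one_mul] at h4
  refine h4.congr' ?_
  filter_upwards [(c1 k).eventually_gt_atTop 0, (c1 k').eventually_gt_atTop 0,
    (c3 k).eventually_gt_atTop 0, (c3 k').eventually_gt_atTop 0] with j g1 g2 g3 g4
  rw [Real.div_rpow g2.le g1.le, Real.div_rpow g4.le g3.le]
  have := Real.rpow_pos_of_pos g1 a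
  have := Real.rpow_pos_of_pos g3 b
  field_simp

end Zk62.QS
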