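import Pool.Agent.Zk62.QS.Inst
import Pool.Agent.Zk62.LS.Main

/-!
Convergence of the laws in terms of one sample.
-/

set_option autoImplicit false

namespace Zk62.QS

open H974 Finset H342P H984P H984H MeasureTheory Filter Topology TopologicalSpace

theorem crit (μ : ProbabilityMeasure C(unitInterval, ℂ)) :
    Tendsto lawH atTop (𝓝 μ) ↔ ∀ n : ℕ → ℕ, 1 ≤ n 0 → (∀ k, 2 * n k ≤ n (k + 1)) →
      ∀ᵐ ω ∂perc, ∀ F : BoundedContinuousFunction C(unitInterval, ℂ) ℝ,
        Tendsto (fun K : ℕ => (∑ k ∈ range K, F (curve (n k) ω)) / K) atTop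
          (𝓝 (∫ f, F f ∂(μ : Measure C(unitInterval, ℂ)))) := by
  -- the averages of the laws
  have hces : ∀ (n : ℕ → ℕ) (ν : ProbabilityMeasure C(unitInterval, ℂ)),
      Tendsto (fun k => lawH (n k)) atTop (𝓝 ν) →
      ∀ F : BoundedContinuousFunction C(unitInterval, ℂ) ℝ,
        Tendsto (fun K : ℕ => (∑ k ∈ range K,
          ∫ f, F f ∂(lawH (n k) : Measure C(unitInterval, ℂ))) / K) atTop
          (𝓝 (∫ f, F f ∂(ν : Measure C(unitInterval, ℂ)))) := by
    intro n ν hν F
    have h1 := ((ProbabilityMeasure.tendsto_iff_forall_integral_tendsto.1 hν) F).cesaro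
    refine h1.congr fun K => ?_
    rw [div_eq_inv_mul]
  have hlac : ∀ n : ℕ → ℕ, 1 ≤ n 0 → (∀ k, 2 * n k ≤ n (k + 1)) →
      ∀ ν : ProbabilityMeasure C(unitInterval, ℂ), Tendsto (fun k => lawH (n k)) atTop (𝓝 ν) →
      ∀ᵐ ω ∂perc, ∀ F : BoundedContinuousFunction C(unitInterval, ℂ) ℝ,
        Tendsto (fun K : ℕ => (∑ k ∈ range K, F (curve (n k) ω)) / K) atTop
          (𝓝 (∫ f, F f ∂(ν : Measure C(unitInterval, ℂ)))) := by
    intro n hn0 hn ν hν
    filter_upwards [one_sample_lac (q := 2) (by norm_num) hn0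
      (fun k => by exact_mod_cast hn k)] with ω hω F
    have h1 := (hω F).add (hces n ν hν F)
    rw [zero_add] at h1
    refine h1.congr fun K => ?_
    rw [← add_div, ← Finset.sum_add_distrib]
    congr 1
    exact Finset.sum_congr rfl fun k _ => by ring
  constructor
  · intro hμ n hn0 hn
    have hmono : ∀ k, k ≤ n k := by
      intro k
      have h1 : ∀ k, 1 ≤ n k := by
        intro k
        induction k with
        | zero => exact hn0
        | succ k ih => have := hn k; omega
      induction k with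
      | zero => exact Nat.zero_le _
      | succ k ih =>
        have := hn k
        have := h1 k
        omega
    have hnt : Tendsto n atTop atTop := tendsto_atTop_mono hmono tendsto_id
    exact hlac n hn0 hn μ (hμ.comp hnt)
  · intro h
    have H := LS.scaling
    have hgoal : Tendsto (LS.lw perc curve_meas) atTop (𝓝 μ) := by
      refine LS.tendsto_of_subsingleton H fun ν hν => ?_
      obtain ⟨φ, hφ, hν⟩ := hν
      -- a lacunary subsequence
      have hex : ∀ a : ℕ, ∃ i : ℕ, a ≤ i ∧ 2 * a ≤ φ i ∧ 1 ≤ φ i := by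
        intro a
        obtain ⟨i, hi⟩ := ((hφ.eventually_ge_atTop (2 * a + 1)).and
          (eventually_ge_atTop a)).exists
        exact ⟨i, hi.2, by omega, by omega⟩
      choose g hg1 hg2 hg3 using hex
      let s : ℕ → ℕ := fun k => Nat.rec (g 0) (fun _ i => g (max (φ i) (i + 1))) k
      have hs : ∀ k, s (k + 1) = g (max (φ (s k)) (s k + 1)) := fun k => rfl
      have hsm : ∀ k, s k + 1 ≤ s (k + 1) := by
        intro k
        rw [hs]
        exact (le_max_right _ _).trans (hg1 _)
      have hst : Tendsto s atTop atTop := by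
        refine tendsto_atTop_mono (f := fun k => k) (fun k => ?_) tendsto_id
        induction k with
        | zero => exact Nat.zero_le _
        | succ k ih => have := hsm k; omega
      have hn0 : 1 ≤ φ (s 0) := hg3 0
      have hn : ∀ k, 2 * φ (s k) ≤ φ (s (k + 1)) := by
        intro k
        rw [hs]
        have h1 := hg2 (max (φ (s k)) (s k + 1))
        have h2 := le_max_left (φ (s k)) (s k + 1)
        omega
      have hν' : Tendsto (fun k => lawH (φ (s k))) atTop (𝓝 ν) := hν.comp hst
      have a1 := h (fun k => φ (s k)) hn0 hn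
      have a2 := hlac (fun k => φ (s k)) hn0 hn ν hν'
      obtain ⟨ω, h1, h2⟩ := (a1.and a2).exists
      exact LS.law_ext fun F => tendsto_nhds_unique (h2 F) (h1 F)
    exact hgoal

end Zk62.QS
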