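import Pool.Agent.Zk62.QS.Rate4

/-!
Asymptotic independence with a rate: the theorem.
-/

set_option autoImplicit false

namespace Zk62.QS

open H974 Finset H342P H984P H984H MeasureTheory

theorem cov_trivial {m n : ℕ} (F : (ℕ → St) → ℝ) (hF1 : ∀ p, |F p| ≤ 1)
    (G : C(unitInterval, ℂ) → ℝ) (hG : ∀ f, |G f| ≤ 1) :
    |∫ ω, F (path ω) * G (curve n ω) ∂perc -
      (∫ ω, F (path ω) ∂perc) * ∫ ω, G (curve n ω) ∂perc| ≤ 2 := by
  have b1 : |∫ ω, F (path ω) * G (curve n ω) ∂perc| ≤ 1 := by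
    have := norm_integral_le_of_norm_le_const (μ := perc)
      (f := fun ω => F (path ω) * G (curve n ω)) (C := 1)
      (Filter.Eventually.of_forall fun ω => by
        rw [Real.norm_eq_abs, abs_mul]
        exact mul_le_one₀ (hF1 _) (abs_nonneg _) (hG _))
    simpa using this
  have b2 : |∫ ω, F (path ω) ∂perc| ≤ 1 := by
    have := norm_integral_le_of_norm_le_const (μ := perc)
      (f := fun ω => F (path ω)) (C := 1)
      (Filter.Eventually.of_forall fun ω => by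
        rw [Real.norm_eq_abs]
        exact hF1 _)
    simpa using this
  have b3 : |∫ ω, G (curve n ω) ∂perc| ≤ 1 := by
    have := norm_integral_le_of_norm_le_const (μ := perc)
      (f := fun ω => G (curve n ω)) (C := 1)
      (Filter.Eventually.of_forall fun ω => by
        rw [Real.norm_eq_abs]
        exact hG _)
    simpa using this
  have b4 : |(∫ ω, F (path ω) ∂perc) * ∫ ω, G (curve n ω) ∂perc| ≤ 1 := by
    rw [abs_mul]
    exact mul_le_one₀ b2 (abs_nonneg _) b3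
  refine (abs_sub _ _).trans ?_
  linarith

/-- Asymptotic independence of scales, with a rate. -/
theorem decor : ∃ c C : ℝ, 0 < c ∧ 0 < C ∧ ∀ (m n : ℕ), 1 ≤ m → m ≤ n → ∀ (L : ℝ), 0 ≤ L →
    ∀ (F : (ℕ → St) → ℝ), (∀ p p' : ℕ → St, (∀ k ≤ m, p k = p' k) → F p = F p') →
    (∀ p, |F p| ≤ 1) → ∀ (G : C(unitInterval, ℂ) → ℝ), (∀ f, |G f| ≤ 1) →
    (∀ f g, |G f - G g| ≤ L * ‖f - g‖) →
    |∫ ω, F (path ω) * G (curve n ω) ∂perc -
      (∫ ω, F (path ω) ∂perc) * ∫ ω, G (curve n ω) ∂perc| ≤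
        C * (1 + L) * ((m : ℝ) / n) ^ c := by
  obtain ⟨C1, s1, hC1, hs1, h1⟩ := A1_rate
  obtain ⟨C2, a, s2, hC2, ha, hs2, h2⟩ := A2_rate
  obtain ⟨C3, hC3, h3⟩ := A3_rate
  obtain ⟨C4, D, s4, hC4, hD, hs4, h4⟩ := A4_rate
  obtain ⟨b, hb⟩ : ∃ b : ℝ, b = min 1 a := ⟨_, rfl⟩
  have hb0 : 0 < b := by rw [hb]; exact lt_min one_pos ha
  have hb1 : b ≤ 1 := by rw [hb]; exact min_le_left _ _
  have hba : b ≤ a := by rw [hb]; exact min_le_right _ _
  obtain ⟨s0, hs0⟩ : ∃ s0 : ℝ, s0 = min 1 (min s1 (min s2 s4)) := ⟨_, rfl⟩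
  have hs0p : 0 < s0 := by rw [hs0]; positivity
  have hs01 : s0 ≤ 1 := by rw [hs0]; exact min_le_left _ _
  have hs0a : s0 ≤ s1 := by rw [hs0]; exact (min_le_right _ _).trans (min_le_left _ _)
  have hs0b : s0 ≤ s2 := by
    rw [hs0]; exact (min_le_right _ _).trans ((min_le_right _ _).trans (min_le_left _ _))
  have hs0c : s0 ≤ s4 := by
    rw [hs0]; exact (min_le_right _ _).trans ((min_le_right _ _).trans (min_le_right _ _))
  obtain ⟨B, hB⟩ : ∃ B : ℝ, B = 2 * C1 + 2 * D + 2 * C2 + 4 * C3 + 4 * C4 + 2 * s0 ^ (-b) := ⟨_, rfl⟩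
  have hBp : 0 < B := by rw [hB]; positivity
  refine ⟨b / 112, B, by positivity, hBp, ?_⟩
  intro m n hm hmn L hL F hF hF1 G hG hGL
  have hm0 : (0 : ℝ) < m := by exact_mod_cast hm
  have hn : 1 ≤ n := hm.trans hmn
  have hn0 : (0 : ℝ) < n := by exact_mod_cast hn
  have hmn' : (m : ℝ) / n ≤ 1 := by
    rw [div_le_one hn0]
    exact_mod_cast hmn
  have hq0 : 0 < (m : ℝ) / n := by positivity
  set s : ℝ := ((m : ℝ) / n) ^ (1/112 : ℝ) with hs
  have hsp : 0 < s := by positivity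
  have hsle : s ≤ 1 := Real.rpow_le_one hq0.le hmn' (by norm_num)
  have hs112 : s ^ 112 = (m : ℝ) / n := by
    rw [hs, ← Real.rpow_natCast, ← Real.rpow_mul hq0.le]
    norm_num
  have hsb : ((m : ℝ) / n) ^ (b / 112) = s ^ b := by
    rw [hs, ← Real.rpow_mul hq0.le]
    congr 1
    ring
  rw [hsb]
  have hsb0 : 0 < s ^ b := by positivity
  have hL1 : 1 ≤ 1 + L := by linarith
  rcases lt_or_ge s0 s with hlt | hge
  · -- the trivial range
    refine (cov_trivial (m := m) (n := n) F hF1 G hG).trans ?_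
    have g1 : s0 ^ b ≤ s ^ b := Real.rpow_le_rpow hs0p.le hlt.le hb0.le
    have g2 : 1 ≤ s0 ^ (-b) * s ^ b := by
      calc (1 : ℝ) = s0 ^ (-b) * s0 ^ b := by
            rw [← Real.rpow_add hs0p, neg_add_cancel, Real.rpow_zero]
        _ ≤ s0 ^ (-b) * s ^ b := mul_le_mul_of_nonneg_left g1 (by positivity)
    have g3 : 2 * s0 ^ (-b) ≤ B := by
      rw [hB]
      have : 0 < 2 * C1 + 2 * D + 2 * C2 + 4 * C3 + 4 * C4 := by positivity
      linarith
    calc (2 : ℝ) ≤ 2 * (s0 ^ (-b) * s ^ b) := by linarith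
      _ = (2 * s0 ^ (-b)) * s ^ b := by ring
      _ ≤ B * s ^ b := mul_le_mul_of_nonneg_right g3 hsb0.le
      _ = B * 1 * s ^ b := by ring
      _ ≤ B * (1 + L) * s ^ b := by gcongr
  · -- the main range
    set u : ℝ := (n : ℝ) ^ (4/7 : ℝ) with hu
    have hu0 : 0 < u := Real.rpow_pos_of_pos hn0 _
    have hus : 1 ≤ u * s ^ 48 := by
      have e1 : s ^ 48 = ((m : ℝ) / n) ^ (3/7 : ℝ) := by
        rw [hs, ← Real.rpow_natCast, ← Real.rpow_mul hq0.le]
        norm_num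
      have e2 : u * s ^ 48 = (n : ℝ) ^ (1/7 : ℝ) * (m : ℝ) ^ (3/7 : ℝ) := by
        rw [e1, Real.div_rpow hm0.le hn0.le, hu]
        have : (n : ℝ) ^ (4/7 : ℝ) = (n : ℝ) ^ (1/7 : ℝ) * (n : ℝ) ^ (3/7 : ℝ) := by
          rw [← Real.rpow_add hn0]; norm_num
        rw [this]
        field_simp
      rw [e2]
      have g1 : 1 ≤ (n : ℝ) ^ (1/7 : ℝ) := Real.one_le_rpow (by exact_mod_cast hn) (by norm_num)
      have g2 : 1 ≤ (m : ℝ) ^ (3/7 : ℝ) := Real.one_le_rpow (by exact_mod_cast hm) (by norm_num)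
      nlinarith
    have hmns : (m : ℝ) ≤ n * s ^ 112 := by
      rw [hs112]
      field_simp
      exact le_rfl
    have k1 := h1 n m s hm hn hsp (hge.trans hs0a) hmns hus
    obtain ⟨hrR, k2⟩ := h2 n s hsp (hge.trans hs0b) hus
    have k3 := h3 n s hn hsp hsle
    obtain ⟨w, hw0, hw, k4⟩ := h4 n s hn hsp (hge.trans hs0c) hus
    have key := mix (m := m) (n := n) (N := ⌈(n : ℝ) * s ^ 14⌉₊) (w := w) hrR hL hw0 F hF hF1 G hG
      hGL
    refine key.trans ?_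
    have hsb1 : s ≤ s ^ b := by
      calc s = s ^ (1 : ℝ) := (Real.rpow_one s).symm
        _ ≤ s ^ b := Real.rpow_le_rpow_of_exponent_ge hsp hsle hb1
    have hsa : s ^ a ≤ s ^ b := Real.rpow_le_rpow_of_exponent_ge hsp hsle hba
    have e7 : (n : ℝ) ^ (-(4/7) : ℝ) * (2 * w) ≤ 2 * D * s ^ b := by
      have e8 : (n : ℝ) ^ (-(4/7) : ℝ) * u = 1 := by
        rw [hu, ← Real.rpow_add hn0]; norm_num
      have hd0 : 0 < (n : ℝ) ^ (-(4/7) : ℝ) := by positivity
      calc (n : ℝ) ^ (-(4/7) : ℝ) * (2 * w) ≤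
            (n : ℝ) ^ (-(4/7) : ℝ) * (2 * (D * (u * s ^ 6))) := by gcongr
        _ = ((n : ℝ) ^ (-(4/7) : ℝ) * u) * (2 * D * s ^ 6) := by ring
        _ = 2 * D * s ^ 6 := by rw [e8, one_mul]
        _ ≤ 2 * D * s ^ b := by
            apply mul_le_mul_of_nonneg_left _ (by positivity)
            refine le_trans ?_ hsb1
            calc s ^ 6 ≤ s ^ 1 := pow_le_pow_of_le_one hsp.le hsle (by norm_num)
              _ = s := pow_one s
    have f1 : 2 * perc.real (A1 m ((⌈u * s ^ 48⌉₊ : ℕ) : ℤ)) ≤ 2 * C1 * s ^ b := by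
      have := mul_le_mul_of_nonneg_left hsb1 hC1.le
      linarith
    have f2 : 2 * perc.real (A2 ⌈u * s ^ 48⌉₊ ⌊u * s ^ 16⌋₊) ≤ 2 * C2 * s ^ b := by
      have := mul_le_mul_of_nonneg_left hsa hC2.le
      linarith
    have f3 : 4 * perc.real (A3 ⌈(n : ℝ) * s ^ 14⌉₊ ((⌊u * s ^ 16⌋₊ : ℕ) : ℤ)) ≤
        4 * C3 * s ^ b := by
      have := mul_le_mul_of_nonneg_left hsb1 hC3.le
      linarith
    have f4 : 4 * perc.real (A4 n ⌈(n : ℝ) * s ^ 14⌉₊ w) ≤ 4 * C4 * s ^ b := by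
      have := mul_le_mul_of_nonneg_left hsb1 hC4.le
      linarith
    have f5 : L * ((n : ℝ) ^ (-(4/7) : ℝ) * (2 * w)) ≤ L * (2 * D * s ^ b) :=
      mul_le_mul_of_nonneg_left e7 hL
    have f6 : 0 < 2 * s0 ^ (-b) * s ^ b := by positivity
    have hCC : (2 * C1 + 2 * C2 + 4 * C3 + 4 * C4) * s ^ b + L * (2 * D * s ^ b) ≤
        B * (1 + L) * s ^ b := by
      have g1 : (2 * C1 + 2 * C2 + 4 * C3 + 4 * C4) * s ^ b ≤ B * s ^ b := by
        apply mul_le_mul_of_nonneg_right _ hsb0.le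
        rw [hB]
        have : 0 < s0 ^ (-b) := by positivity
        linarith
      have g2 : L * (2 * D * s ^ b) ≤ L * (B * s ^ b) := by
        apply mul_le_mul_of_nonneg_left _ hL
        apply mul_le_mul_of_nonneg_right _ hsb0.le
        rw [hB]
        have : 0 < s0 ^ (-b) := by positivity
        linarith
      calc _ ≤ B * s ^ b + L * (B * s ^ b) := add_le_add g1 g2
        _ = B * (1 + L) * s ^ b := by ring
    linarith

end Zk62.QS
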