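import Pool.Agent.Zk62.QS.Barrier
import Pool.Agent.H984R4.HN.FinalH

/-!
Distance of the curves of two configurations whose paths merge.
-/

set_option autoImplicit false

namespace Zk62.QS

open H974 Finset H342P H984P H984H MeasureTheory

theorem pl_diff {N : ℕ} {p p' : ℕ → ℂ} {M : ℝ} (h : ∀ k ≤ N, ‖p k - p' k‖ ≤ M)
    (s : unitInterval) : ‖H984N.pl N p s - H984N.pl N p' s‖ ≤ M := by
  rcases Nat.eq_zero_or_pos N with rfl | hN
  · rw [H984N.pl_apply', H984N.pl_apply']
    simpa using h 0 le_rfl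
  · obtain ⟨k, hk, h1, h2⟩ := H984N.pl_exists_seg hN s
    rw [H984N.pl_seg hk h1 h2, H984N.pl_seg hk h1 h2]
    set u : ℝ := (s : ℝ) * N - k with hu
    have hu0 : 0 ≤ u := by rw [hu]; linarith
    have hu1 : u ≤ 1 := by rw [hu]; linarith
    have e : p k + (u : ℂ) * (p (k + 1) - p k) - (p' k + (u : ℂ) * (p' (k + 1) - p' k)) =
        ((1 - u : ℝ) : ℂ) * (p k - p' k) + (u : ℂ) * (p (k + 1) - p' (k + 1)) := by
      push_cast
      ring
    rw [e]
    refine (norm_add_le _ _).trans ?_
    rw [norm_mul, norm_mul, Complex.norm_real, Complex.norm_real, Real.norm_eq_abs,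
      Real.norm_eq_abs, abs_of_nonneg hu0, abs_of_nonneg (by linarith)]
    have a1 := h k hk.le
    have a2 := h (k + 1) hk
    calc (1 - u) * ‖p k - p' k‖ + u * ‖p (k + 1) - p' (k + 1)‖ ≤ (1 - u) * M + u * M :=
          add_le_add (mul_le_mul_of_nonneg_left a1 (by linarith))
            (mul_le_mul_of_nonneg_left a2 hu0)
      _ = M := by ring

theorem curve_diff {n : ℕ} {ω ω' : Conf} {M : ℝ} (h : ∀ k ≤ n, ‖gam ω k - gam ω' k‖ ≤ M) :
    ‖curve n ω - curve n ω'‖ ≤ (n : ℝ) ^ (-(4/7) : ℝ) * M := by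
  have hM : 0 ≤ M := (norm_nonneg _).trans (h 0 (Nat.zero_le _))
  have hd : 0 ≤ (n : ℝ) ^ (-(4/7) : ℝ) := by positivity
  rw [ContinuousMap.norm_le _ (mul_nonneg hd hM)]
  intro s
  refine pl_diff (p := fun k => (((n : ℝ) ^ (-(4/7) : ℝ) : ℝ) : ℂ) * gam ω k)
    (p' := fun k => (((n : ℝ) ^ (-(4/7) : ℝ) : ℝ) : ℂ) * gam ω' k) (fun k hk => ?_) s
  rw [← mul_sub, norm_mul, Complex.norm_real, Real.norm_eq_abs, abs_of_nonneg hd]
  exact mul_le_mul_of_nonneg_left (h k hk) hd

/-- Oscillation of the path in windows of length `N` before time `n`. -/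
def Osc (n N : ℕ) (w : ℝ) (ω : Conf) : Prop :=
  ∀ i j : ℕ, j ≤ i → i ≤ n → i - j ≤ N → ‖gam ω i - gam ω j‖ ≤ w

theorem gam_diff {n N : ℕ} {w : ℝ} {ω ω' : Conf} (hO : Osc n N w ω) (hO' : Osc n N w ω')
    {k k' : ℕ} (hk : k ≤ N) (hk' : k' ≤ N)
    (h : ∀ j : ℕ, path ω (k + j) = path ω' (k' + j)) {i : ℕ} (hi : i ≤ n) :
    ‖gam ω i - gam ω' i‖ ≤ 2 * w := by
  have hw : 0 ≤ w := by
    have := hO 0 0 le_rfl (Nat.zero_le _) (Nat.zero_le _)
    simpa using this
  rcases Nat.lt_or_ge i (max k k') with h1 | h1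
  · have hiN : i ≤ N := by
      have : max k k' ≤ N := max_le hk hk'
      omega
    have a1 := hO i 0 (Nat.zero_le _) hi (by omega)
    have a2 := hO' i 0 (Nat.zero_le _) hi (by omega)
    have e : gam ω 0 = gam ω' 0 := rfl
    have e2 : gam ω i - gam ω' i = (gam ω i - gam ω 0) - (gam ω' i - gam ω' 0) := by
      rw [e]; ring
    rw [e2]
    refine (norm_sub_le _ _).trans ?_
    linarith
  · have hk1 : k ≤ i := (le_max_left _ _).trans h1
    have hk2 : k' ≤ i := (le_max_right _ _).trans h1
    rcases le_total k k' with hkk | hkk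
    · have e : gam ω' i = gam ω (i - (k' - k)) := by
        have := h (i - k')
        show place (path ω' i) = place (path ω (i - (k' - k)))
        rw [show k' + (i - k') = i by omega, show k + (i - k') = i - (k' - k) by omega] at this
        rw [this]
      rw [e]
      refine (hO i (i - (k' - k)) (by omega) hi (by omega)).trans (by linarith)
    · have e : gam ω i = gam ω' (i - (k - k')) := by
        have := h (i - k)
        show place (path ω i) = place (path ω' (i - (k - k')))
        rw [show k + (i - k) = i by omega, show k' + (i - k) = i - (k - k') by omega] at this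
        rw [this]
      rw [e, norm_sub_rev]
      refine (hO' i (i - (k - k')) (by omega) hi (by omega)).trans (by linarith)

/-- The curves of two configurations which agree in the exterior of a box are close. -/
theorem curve_close {n N : ℕ} {w : ℝ} {r R : ℤ} {ω ω' : Conf} (hr : 0 ≤ r) (hrR : r < R)
    (h : Agr r ω ω') (hS : ∀ v ∈ Ret_S ω r, sd v (0, 0) < R)
    (hN : ∃ i ≤ N, R ≤ sd (path ω i).1 (0, 0)) (hN' : ∃ i ≤ N, R ≤ sd (path ω' i).1 (0, 0))
    (hO : Osc n N w ω) (hO' : Osc n N w ω') :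
    ‖curve n ω - curve n ω'‖ ≤ (n : ℝ) ^ (-(4/7) : ℝ) * (2 * w) := by
  obtain ⟨i, hi, h1⟩ := hN
  obtain ⟨i', hi', h1'⟩ := hN'
  obtain ⟨k, hk, k', hk', hm⟩ := merge hr hrR h hS h1 h1'
  exact curve_diff fun j hj => gam_diff hO hO' (hk.trans hi) (hk'.trans hi') hm hj

/-- The path before it leaves the box depends on the configuration in the box. -/
theorem path_inside {r : ℤ} {ω ω' : Conf} (h : ∀ e : Edg, InB r e → ω e = ω' e) {m : ℕ}
    (hm : ∀ j < m, sd (path ω j).1 (0, 0) + 1 ≤ r) {j : ℕ} (hj : j ≤ m) :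
    path ω j = path ω' j := by
  induction j with
  | zero => rfl
  | succ j ih =>
    rw [path_succ, path_succ, ← ih (by omega)]
    apply step_congr
    intro e he
    have h0 := hm j (by omega)
    have hin : InB r e := by
      have key : ∀ u v : Vtx, sd u (0, 0) + 1 ≤ r → (|u.1 - v.1| ≤ 1 ∧ |u.2 - v.2| ≤ 1) →
          sd v (0, 0) ≤ r := by
        intro u v hu huv
        rw [Ret_sd] at hu ⊢
        have b1 := le_max_left |u.1| |u.2|
        have b2 := le_max_right |u.1| |u.2|
        obtain ⟨c1, c2⟩ := huv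
        rw [abs_le] at c1 c2
        apply max_le
        · rw [abs_le]
          have := abs_le.1 b1
          constructor <;> omega
        · rw [abs_le]
          have := abs_le.1 b2
          constructor <;> omega
      obtain ⟨x, y, b⟩ := e
      rcases he with he | he
      · refine ⟨by rw [he]; omega, key _ _ h0 ?_⟩
        rw [← he]
        cases b <;> simp
      · refine ⟨key _ _ h0 ?_, by rw [he]; omega⟩
        rw [← he]
        cases b <;> simp
    have h4 := h e hin
    simp only [opn, Set.mem_ofPred_eq, h4]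

end Zk62.QS
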