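import Mathlib

/-!
A countable family of Lipschitz functions which determines weak convergence.
-/

set_option autoImplicit false
set_option linter.unusedSectionVars false

open MeasureTheory Filter Topology TopologicalSpace

namespace Zk62.QS

section

variable {X : Type*} [MetricSpace X] [SecondCountableTopology X] [MeasurableSpace X] [BorelSpace X]

/-- The open sets of the family. -/
def GT (T : Finset (countableBasis X)) : Set X := ⋃ t ∈ T, (t : Set X)

theorem GT_open (T : Finset (countableBasis X)) : IsOpen (GT T) :=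
  isOpen_biUnion fun t _ => isOpen_of_mem_countableBasis t.2

theorem mpos (m : ℕ) : (0 : ℝ) < 1 / ((m : ℝ) + 1) := by positivity

/-- The functions of the family. -/
noncomputable def gf (T : Finset (countableBasis X)) (m : ℕ) (x : X) : ℝ :=
  1 - ((thickenedIndicator (mpos m) (GT T)ᶜ x : NNReal) : ℝ)

theorem gf_nonneg (T : Finset (countableBasis X)) (m : ℕ) (x : X) : 0 ≤ gf T m x := by
  unfold gf
  have h := thickenedIndicator_le_one (mpos m) (GT T)ᶜ x
  have : ((thickenedIndicator (mpos m) (GT T)ᶜ x : NNReal) : ℝ) ≤ 1 := by exact_mod_cast h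
  linarith

theorem gf_le_one (T : Finset (countableBasis X)) (m : ℕ) (x : X) : gf T m x ≤ 1 := by
  unfold gf
  have : 0 ≤ ((thickenedIndicator (mpos m) (GT T)ᶜ x : NNReal) : ℝ) := NNReal.coe_nonneg _
  linarith

theorem gf_abs (T : Finset (countableBasis X)) (m : ℕ) (x : X) : |gf T m x| ≤ 1 := by
  rw [abs_of_nonneg (gf_nonneg T m x)]
  exact gf_le_one T m x

theorem gf_lip (T : Finset (countableBasis X)) (m : ℕ) (x y : X) :
    |gf T m x - gf T m y| ≤ ((m : ℝ) + 1) * dist x y := by
  have h := (lipschitzWith_thickenedIndicator (mpos m) (GT T)ᶜ).dist_le_mul x y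
  rw [NNReal.dist_eq] at h
  unfold gf
  have e : ((Real.toNNReal (1 / ((m : ℝ) + 1)))⁻¹ : NNReal) = ((m : ℝ) + 1).toNNReal := by
    rw [one_div, Real.toNNReal_inv, inv_inv]
  rw [e] at h
  have e2 : ((((m : ℝ) + 1).toNNReal : NNReal) : ℝ) = (m : ℝ) + 1 :=
    Real.coe_toNNReal _ (by positivity)
  rw [e2] at h
  refine le_trans (le_of_eq ?_) h
  rw [abs_sub_comm]
  congr 1
  ring

theorem gf_cont (T : Finset (countableBasis X)) (m : ℕ) : Continuous (gf T m) := by
  rw [Metric.continuous_iff]
  intro f ε hε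
  refine ⟨ε / ((m : ℝ) + 1), by positivity, fun g hg => ?_⟩
  rw [Real.dist_eq]
  refine (gf_lip T m g f).trans_lt ?_
  rwa [lt_div_iff₀ (by positivity), mul_comm] at hg

/-- The functions as bounded continuous functions. -/
noncomputable def gb (T : Finset (countableBasis X)) (m : ℕ) : BoundedContinuousFunction X ℝ :=
  BoundedContinuousFunction.ofNormedAddCommGroup (gf T m) (gf_cont T m) 1
    fun x => by rw [Real.norm_eq_abs]; exact gf_abs T m x

theorem gf_le_ind (T : Finset (countableBasis X)) (m : ℕ) (x : X) :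
    gf T m x ≤ (GT T).indicator (fun _ => (1 : ℝ)) x := by
  by_cases hx : x ∈ GT T
  · rw [Set.indicator_of_mem hx]
    exact gf_le_one T m x
  · rw [Set.indicator_of_notMem hx]
    unfold gf
    rw [thickenedIndicator_one (mpos m) _ (show x ∈ (GT T)ᶜ from hx)]
    simp

theorem gf_tendsto (T : Finset (countableBasis X)) (x : X) :
    Tendsto (fun m : ℕ => gf T m x) atTop (𝓝 ((GT T).indicator (fun _ => (1 : ℝ)) x)) := by
  have h := thickenedIndicator_tendsto_indicator_closure (fun m => mpos m)
    (tendsto_one_div_add_atTop_nhds_zero_nat (𝕜 := ℝ)) (GT T)ᶜ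
  rw [tendsto_pi_nhds] at h
  have h1 := (NNReal.tendsto_coe.2 (h x)).const_sub 1
  rw [(GT_open T).isClosed_compl.closure_eq] at h1
  have e : (GT T).indicator (fun _ => (1 : ℝ)) x =
      1 - (((GT T)ᶜ.indicator (fun _ => (1 : NNReal)) x : NNReal) : ℝ) := by
    by_cases hx : x ∈ GT T
    · rw [Set.indicator_of_mem hx, Set.indicator_of_notMem (show x ∉ (GT T)ᶜ from fun h => h hx)]
      simp
    · rw [Set.indicator_of_notMem hx, Set.indicator_of_mem (show x ∈ (GT T)ᶜ from hx)]
      simp
  rw [e]
  exact h1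

/-- The family determines weak convergence. -/
theorem family {μs : ℕ → ProbabilityMeasure X} {μ : ProbabilityMeasure X}
    (h : ∀ (T : Finset (countableBasis X)) (m : ℕ),
      Tendsto (fun i => ∫ x, gf T m x ∂(μs i : Measure X)) atTop
        (𝓝 (∫ x, gf T m x ∂(μ : Measure X)))) : Tendsto μs atTop (𝓝 μ) := by
  classical
  apply tendsto_of_forall_isOpen_le_liminf
  intro G hG
  refine (le_liminf_iff (isCoboundedUnder_ge_of_le (x := 1) atTop (by simp)) (by isBoundedDefault)).2
    (fun r hr ↦ ?_)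
  obtain ⟨T, TS, T_meas, TG⟩ := μ.exists_lt_measure_biUnion_of_isOpen
    (S := countableBasis X) (fun u hu x hx => by
      obtain ⟨s, hs, hxs, hsu⟩ := (isBasis_countableBasis X).exists_subset_of_mem_open hx hu
      exact ⟨s, hs, (isOpen_of_mem_countableBasis hs).mem_nhds hxs, hsu⟩) hG hr
  -- the set as a set of the family
  obtain ⟨T', hT'⟩ : ∃ T' : Finset (countableBasis X), GT T' = ⋃ t ∈ T, t := by
    refine ⟨T.attach.image fun t => ⟨t.1, TS t.1 t.2⟩, ?_⟩
    ext x
    simp only [GT, Set.mem_iUnion, Finset.mem_image, Finset.mem_attach, true_and, exists_prop]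
    constructor
    · rintro ⟨t, ⟨s, rfl⟩, hx⟩
      exact ⟨s.1, s.2, hx⟩
    · rintro ⟨t, ht, hx⟩
      exact ⟨⟨t, TS t ht⟩, ⟨⟨t, ht⟩, rfl⟩, hx⟩
  rw [← hT'] at T_meas TG
  have hint : ∀ ν : ProbabilityMeasure X,
      ∫ x, (GT T').indicator (fun _ => (1 : ℝ)) x ∂(ν : Measure X) = (ν (GT T') : ℝ) := by
    intro ν
    rw [integral_indicator (GT_open T').measurableSet]
    simp [Measure.real]
    rfl
  -- approximation from below
  have hlim : Tendsto (fun m : ℕ => ∫ x, gf T' m x ∂(μ : Measure X)) atTop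
      (𝓝 (μ (GT T') : ℝ)) := by
    rw [← hint μ]
    refine tendsto_integral_of_dominated_convergence (fun _ => (1 : ℝ))
      (fun m => (gf_cont T' m).aestronglyMeasurable) (integrable_const _)
      (fun m => Eventually.of_forall fun x => ?_) (Eventually.of_forall fun x => gf_tendsto T' x)
    rw [Real.norm_eq_abs]
    exact gf_abs T' m x
  have hr' : (r : ℝ) < (μ (GT T') : ℝ) := by exact_mod_cast T_meas
  obtain ⟨m, hm⟩ := ((tendsto_order.1 hlim).1 (r : ℝ) hr').exists
  filter_upwards [(tendsto_order.1 (h T' m)).1 (r : ℝ) hm] with i hi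
  have h2 : ∫ x, gf T' m x ∂(μs i : Measure X) ≤ (μs i (GT T') : ℝ) := by
    rw [← hint (μs i)]
    apply integral_mono
    · exact Integrable.of_bound (gf_cont T' m).aestronglyMeasurable 1
        (Eventually.of_forall fun x => by rw [Real.norm_eq_abs]; exact gf_abs T' m x)
    · exact (integrable_const _).indicator (GT_open T').measurableSet
    · exact gf_le_ind T' m
  have h3 : (r : ℝ) < (μs i (GT T') : ℝ) := lt_of_lt_of_le hi h2
  have h4 : r < μs i (GT T') := by exact_mod_cast h3
  exact h4.trans_le (ProbabilityMeasure.apply_mono _ TG)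

end

end Zk62.QS
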