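import Pool.Agent.Zk62.QS.AE

/-!
Lacunary scales and logarithmic averages.
-/

set_option autoImplicit false

namespace Zk62.QS

open H974 Finset H342P H984P H984H MeasureTheory Filter Topology TopologicalSpace

theorem lac_pow {n : ℕ → ℕ} {q : ℝ} (hq : 1 < q) (hn0 : 1 ≤ n 0)
    (hn : ∀ k, q * n k ≤ n (k + 1)) : (∀ k, 1 ≤ n k) ∧ Monotone n ∧
      ∀ j k, j ≤ k → (n j : ℝ) / n k ≤ (q⁻¹) ^ (k - j) := by
  have hq0 : 0 < q := one_pos.trans hq
  have hmono : Monotone n := monotone_nat_of_le_succ fun k => by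
    have h1 := hn k
    have h2 : (n k : ℝ) ≤ n (k + 1) := by
      have : (0 : ℝ) ≤ n k := Nat.cast_nonneg _
      nlinarith
    exact_mod_cast h2
  have h1 : ∀ k, 1 ≤ n k := fun k => hn0.trans (hmono (Nat.zero_le k))
  refine ⟨h1, hmono, ?_⟩
  intro j k hjk
  induction k, hjk using Nat.le_induction with
  | base =>
    have : (0 : ℝ) < n j := by exact_mod_cast h1 j
    rw [Nat.sub_self, pow_zero, div_self this.ne']
  | succ k hjk ih =>
    have hk : (0 : ℝ) < n k := by exact_mod_cast h1 k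
    have hk1 : (0 : ℝ) < n (k + 1) := by exact_mod_cast h1 (k + 1)
    rw [Nat.sub_add_comm hjk, pow_succ]
    have h2 : (n k : ℝ) / n (k + 1) ≤ q⁻¹ := by
      rw [div_le_iff₀ hk1, inv_mul_eq_div, le_div_iff₀ hq0, mul_comm]
      exact hn k
    have h3 : (n j : ℝ) / n (k + 1) = ((n j : ℝ) / n k) * ((n k : ℝ) / n (k + 1)) := by
      field_simp
    rw [h3]
    exact mul_le_mul ih h2 (by positivity) (by positivity)

/-- One sample, lacunary scales. -/
theorem one_sample_lac {n : ℕ → ℕ} {q : ℝ} (hq : 1 < q) (hn0 : 1 ≤ n 0)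
    (hn : ∀ k, q * n k ≤ n (k + 1)) :
    ∀ᵐ ω ∂perc, ∀ F : BoundedContinuousFunction C(unitInterval, ℂ) ℝ, Tendsto (fun K : ℕ =>
      (∑ k ∈ range K, (F (curve (n k) ω) -
        ∫ f, F f ∂(lawH (n k) : Measure C(unitInterval, ℂ)))) / K) atTop (𝓝 0) := by
  obtain ⟨h1, hmono, hpow⟩ := lac_pow hq hn0 hn
  have hq0 : 0 < q := one_pos.trans hq
  have hsum : ∀ K : ℕ, ∑ k ∈ range K, (1 : ℝ) = K := fun K => by simp
  have h := one_sample h1 hmono (w := fun _ => 1) (fun _ => zero_le_one) (fun _ => le_rfl)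
    (by
      simp only [hsum]
      exact tendsto_natCast_atTop_atTop) (fun c hc => by
      have hρ0 : 0 ≤ (q⁻¹) ^ c := by positivity
      have hρ1 : (q⁻¹) ^ c < 1 := Real.rpow_lt_one (by positivity) (inv_lt_one_of_one_lt₀ hq) hc
      refine ⟨∑' i : ℕ, ((q⁻¹) ^ c) ^ i, fun k => ?_⟩
      have h2 : ∑ j ∈ range (k + 1), (1 : ℝ) * ((n j : ℝ) / n k) ^ c ≤
          ∑ j ∈ range (k + 1), ((q⁻¹) ^ c) ^ (k - j) := by
        refine Finset.sum_le_sum fun j hj => ?_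
        have hjk : j ≤ k := Nat.lt_succ_iff.1 (Finset.mem_range.1 hj)
        rw [one_mul]
        refine (Real.rpow_le_rpow (by positivity) (hpow j k hjk) hc.le).trans (le_of_eq ?_)
        rw [← Real.rpow_natCast, ← Real.rpow_natCast, ← Real.rpow_mul (by positivity),
          ← Real.rpow_mul (by positivity), mul_comm]
      refine h2.trans ?_
      have h3 : ∑ j ∈ range (k + 1), ((q⁻¹) ^ c) ^ (k - j) =
          ∑ j ∈ range (k + 1), ((q⁻¹) ^ c) ^ j := by
        rw [← Finset.sum_range_reflect]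
        refine Finset.sum_congr rfl fun j hj => ?_
        have := Finset.mem_range.1 hj
        congr 1
        omega
      rw [h3]
      exact (summable_geometric_of_lt_one hρ0 hρ1).sum_le_tsum _ fun i _ => by positivity)
  filter_upwards [h] with ω hω F
  refine (hω F).congr fun K => ?_
  rw [hsum]
  congr 1
  exact Finset.sum_congr rfl fun k _ => one_mul _

theorem sum_pow_le {c : ℝ} (hc : 0 < c) (hc1 : c ≤ 1) (N : ℕ) :
    ∑ j ∈ range N, ((j : ℝ) + 1) ^ (c - 1) ≤ (N : ℝ) ^ c / c := by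
  induction N with
  | zero => simp [Real.zero_rpow hc.ne']
  | succ N ih =>
    rw [Finset.sum_range_succ]
    have hN : (0 : ℝ) < (N : ℝ) + 1 := by positivity
    have h1 := rpow_one_add_le_one_add_mul_self (s := -(1 / ((N : ℝ) + 1))) (p := c) (by
      rw [neg_le_neg_iff, div_le_one hN]
      linarith [Nat.cast_nonneg (α := ℝ) N]) hc.le hc1
    have h2 : 1 + -(1 / ((N : ℝ) + 1)) = (N : ℝ) / ((N : ℝ) + 1) := by field_simp; ring
    rw [h2, Real.div_rpow (Nat.cast_nonneg N) hN.le] at h1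
    have hp : 0 < ((N : ℝ) + 1) ^ c := by positivity
    rw [div_le_iff₀ hp] at h1
    have h3 : ((N : ℝ) + 1) ^ (c - 1) = ((N : ℝ) + 1) ^ c / ((N : ℝ) + 1) := by
      rw [Real.rpow_sub hN, Real.rpow_one]
    have h4 : (1 + c * -(1 / ((N : ℝ) + 1))) * ((N : ℝ) + 1) ^ c =
        ((N : ℝ) + 1) ^ c - c * ((N : ℝ) + 1) ^ (c - 1) := by
      rw [h3]; field_simp; ring
    rw [h4] at h1
    push_cast
    have h5 : (N : ℝ) ^ c / c + ((N : ℝ) + 1) ^ (c - 1) =
        ((N : ℝ) ^ c + c * ((N : ℝ) + 1) ^ (c - 1)) / c := by field_simp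
    calc ∑ j ∈ range N, ((j : ℝ) + 1) ^ (c - 1) + ((N : ℝ) + 1) ^ (c - 1)
        ≤ (N : ℝ) ^ c / c + ((N : ℝ) + 1) ^ (c - 1) := by linarith
      _ = ((N : ℝ) ^ c + c * ((N : ℝ) + 1) ^ (c - 1)) / c := h5
      _ ≤ ((N : ℝ) + 1) ^ c / c := by gcongr; linarith

/-- The condition on the logarithmic weights. -/
theorem log_weights {w : ℕ → ℝ} (hw0 : ∀ k, 0 ≤ w k) (hw : ∀ k : ℕ, w k ≤ 1 / ((k : ℝ) + 1))
    {c : ℝ} (hc : 0 < c) : ∃ A : ℝ, ∀ k, ∑ j ∈ range (k + 1),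
      w j * ((((fun k => k + 1) j : ℕ) : ℝ) / (((fun k => k + 1) k : ℕ) : ℝ)) ^ c ≤ A := by
  refine ⟨1 / min c 1, fun k => ?_⟩
  set b := min c 1 with hb
  have hb0 : 0 < b := lt_min hc one_pos
  have hb1 : b ≤ 1 := min_le_right _ _
  have hbc : b ≤ c := min_le_left _ _
  have h1 : ∑ j ∈ range (k + 1), w j * ((((j + 1 : ℕ) : ℝ)) / ((k + 1 : ℕ) : ℝ)) ^ c
      ≤ ∑ j ∈ range (k + 1), ((k : ℝ) + 1) ^ (-b) * ((j : ℝ) + 1) ^ (b - 1) := by
    refine Finset.sum_le_sum fun j hj => ?_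
    have hjk : j ≤ k := Nat.lt_succ_iff.1 (Finset.mem_range.1 hj)
    have hj0 : (0 : ℝ) < (j : ℝ) + 1 := by positivity
    have hk0 : (0 : ℝ) < (k : ℝ) + 1 := by positivity
    have hle : ((j : ℝ) + 1) / ((k : ℝ) + 1) ≤ 1 := by
      rw [div_le_one hk0]
      have : (j : ℝ) ≤ k := by exact_mod_cast hjk
      linarith
    push_cast
    have h2 : (((j : ℝ) + 1) / ((k : ℝ) + 1)) ^ c ≤ (((j : ℝ) + 1) / ((k : ℝ) + 1)) ^ b :=
      Real.rpow_le_rpow_of_exponent_ge (by positivity) hle hbc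
    calc w j * (((j : ℝ) + 1) / ((k : ℝ) + 1)) ^ c
        ≤ 1 / ((j : ℝ) + 1) * (((j : ℝ) + 1) / ((k : ℝ) + 1)) ^ c :=
          mul_le_mul_of_nonneg_right (hw j) (by positivity)
      _ ≤ 1 / ((j : ℝ) + 1) * (((j : ℝ) + 1) / ((k : ℝ) + 1)) ^ b :=
          mul_le_mul_of_nonneg_left h2 (by positivity)
      _ = ((k : ℝ) + 1) ^ (-b) * ((j : ℝ) + 1) ^ (b - 1) := by
          rw [Real.div_rpow hj0.le hk0.le, Real.rpow_neg hk0.le, Real.rpow_sub hj0,
            Real.rpow_one]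
          field_simp
  refine h1.trans ?_
  rw [← Finset.mul_sum]
  have h3 := sum_pow_le hb0 hb1 (k + 1)
  have hk0 : (0 : ℝ) < (k : ℝ) + 1 := by positivity
  calc ((k : ℝ) + 1) ^ (-b) * ∑ j ∈ range (k + 1), ((j : ℝ) + 1) ^ (b - 1)
      ≤ ((k : ℝ) + 1) ^ (-b) * (((k + 1 : ℕ) : ℝ) ^ b / b) :=
        mul_le_mul_of_nonneg_left h3 (by positivity)
    _ = 1 / b := by
        push_cast
        rw [Real.rpow_neg hk0.le]
        field_simp

/-- One sample, logarithmic averages. -/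
theorem one_sample_log :
    ∀ᵐ ω ∂perc, ∀ F : BoundedContinuousFunction C(unitInterval, ℂ) ℝ, Tendsto (fun K : ℕ =>
      (∑ k ∈ range K, 1 / ((k : ℝ) + 1) * (F (curve (k + 1) ω) -
        ∫ f, F f ∂(lawH (k + 1) : Measure C(unitInterval, ℂ)))) /
          ∑ k ∈ range K, 1 / ((k : ℝ) + 1)) atTop (𝓝 0) := by
  refine one_sample (n := fun k => k + 1) (w := fun k => 1 / ((k : ℝ) + 1)) (fun k => by omega)
    (fun a b h => by simpa using h) (fun k => by positivity) (fun k => ?_)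
    Real.tendsto_sum_range_one_div_nat_succ_atTop (fun c hc => ?_)
  · rw [div_le_one (by positivity)]
    linarith [Nat.cast_nonneg (α := ℝ) k]
  · exact log_weights (fun k => by positivity) (fun k => le_rfl) hc

end Zk62.QS
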