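import Mathlib

/-!
Weak convergence to zero of a bounded sequence, from a π-system to all integrable weights.
-/

set_option autoImplicit false

open MeasureTheory Filter Topology

namespace Zk62.QS

theorem weak_sets {Ω : Type*} [m : MeasurableSpace Ω] {μ : Measure Ω} [IsProbabilityMeasure μ]
    {g : ℕ → Ω → ℝ} (hg : ∀ n, Measurable (g n)) (hb : ∀ n ω, |g n ω| ≤ 2) {s : Set (Set Ω)}
    (h_eq : m = MeasurableSpace.generateFrom s) (h_inter : IsPiSystem s)
    (h0 : Tendsto (fun n => ∫ ω, g n ω ∂μ) atTop (𝓝 0))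
    (hs : ∀ t ∈ s, Tendsto (fun n => ∫ ω in t, g n ω ∂μ) atTop (𝓝 0)) (t : Set Ω)
    (ht : MeasurableSet t) : Tendsto (fun n => ∫ ω in t, g n ω ∂μ) atTop (𝓝 0) := by
  have hi : ∀ n, Integrable (g n) μ := fun n =>
    Integrable.of_bound (hg n).aestronglyMeasurable 2 (Eventually.of_forall fun ω => by
      rw [Real.norm_eq_abs]; exact hb n ω)
  refine MeasurableSpace.induction_on_inter
    (C := fun t _ => Tendsto (fun n => ∫ ω in t, g n ω ∂μ) atTop (𝓝 0)) h_eq h_inter ?_ hs
    ?_ ?_ t ht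
  · simp
  · intro t htm h
    have h1 := h0.sub h
    rw [sub_zero] at h1
    refine h1.congr fun n => ?_
    rw [← integral_add_compl htm (hi n)]
    ring
  · intro f hd hfm h
    have e : ∀ n, ∫ ω in ⋃ i, f i, g n ω ∂μ = ∑' i, ∫ ω in f i, g n ω ∂μ := fun n =>
      integral_iUnion hfm hd (hi n).integrableOn
    simp only [e]
    have hsum : Summable fun i => 2 * μ.real (f i) := by
      apply Summable.mul_left
      have h1 : ∑' i, μ (f i) = μ (⋃ i, f i) := (measure_iUnion hd hfm).symm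
      have h2 : ∑' i, μ (f i) ≠ ⊤ := by rw [h1]; exact measure_ne_top _ _
      exact ENNReal.summable_toReal h2
    have key := tendsto_tsum_of_dominated_convergence (𝓕 := atTop)
      (f := fun (n : ℕ) i => ∫ ω in f i, g n ω ∂μ)
      (g := fun _ => (0 : ℝ)) hsum h (Eventually.of_forall fun n i => by
        have := norm_setIntegral_le_of_norm_le_const (μ := μ) (s := f i) (f := g n) (C := 2)
          (measure_lt_top _ _) (fun ω _ => by rw [Real.norm_eq_abs]; exact hb n ω)
        exact this)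
    simpa using key

theorem weak_int {Ω : Type*} [m : MeasurableSpace Ω] {μ : Measure Ω} [IsProbabilityMeasure μ]
    {g : ℕ → Ω → ℝ} (hg : ∀ n, Measurable (g n)) (hb : ∀ n ω, |g n ω| ≤ 2)
    (hs : ∀ t, MeasurableSet t → Tendsto (fun n => ∫ ω in t, g n ω ∂μ) atTop (𝓝 0)) (f : Ω → ℝ)
    (hf : Integrable f μ) : Tendsto (fun n => ∫ ω, f ω * g n ω ∂μ) atTop (𝓝 0) := by
  have hbm : ∀ (f : Ω → ℝ), Integrable f μ → ∀ n, Integrable (fun ω => f ω * g n ω) μ := by
    intro f hf n
    refine (Integrable.bdd_mul (c := 2) hf (hg n).aestronglyMeasurable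
      (Eventually.of_forall fun ω => by rw [Real.norm_eq_abs]; exact hb n ω)).congr
      (Eventually.of_forall fun ω => ?_)
    exact mul_comm _ _
  refine Integrable.induction (P := fun f => Tendsto (fun n => ∫ ω, f ω * g n ω ∂μ) atTop (𝓝 0))
    ?_ ?_ ?_ ?_ hf
  · intro c t ht _
    have h1 := (hs t ht).const_mul c
    rw [mul_zero] at h1
    refine h1.congr fun n => ?_
    rw [← integral_const_mul, ← integral_indicator ht]
    refine integral_congr_ae (Eventually.of_forall fun ω => ?_)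
    show t.indicator (fun ω => c * g n ω) ω = t.indicator (fun _ => c) ω * g n ω
    by_cases h : ω ∈ t
    · rw [Set.indicator_of_mem h, Set.indicator_of_mem h]
    · rw [Set.indicator_of_notMem h, Set.indicator_of_notMem h, zero_mul]
  · intro u v _ hu hv h1 h2
    have h3 := h1.add h2
    rw [add_zero] at h3
    refine h3.congr fun n => ?_
    rw [← integral_add (hbm u hu n) (hbm v hv n)]
    refine integral_congr_ae (Eventually.of_forall fun ω => ?_)
    show u ω * g n ω + v ω * g n ω = (u + v) ω * g n ω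
    rw [Pi.add_apply]
    ring
  · rw [← isSeqClosed_iff_isClosed]
    intro u v hu huv
    show Tendsto (fun n => ∫ ω, (v : Ω → ℝ) ω * g n ω ∂μ) atTop (𝓝 0)
    have hu : ∀ k, Tendsto (fun n => ∫ ω, (u k : Ω → ℝ) ω * g n ω ∂μ) atTop (𝓝 0) := hu
    rw [Metric.tendsto_atTop]
    intro ε hε
    have h1 : Tendsto (fun k => ‖u k - v‖) atTop (𝓝 0) := by
      have := (huv.sub_const v).norm
      simpa using this
    obtain ⟨k, hk⟩ := ((tendsto_order.1 h1).2 (ε / 4) (by positivity)).exists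
    obtain ⟨N, hN⟩ := (Metric.tendsto_atTop.1 (hu k)) (ε / 2) (by positivity)
    refine ⟨N, fun n hn => ?_⟩
    have h2 := hN n hn
    rw [Real.dist_eq, sub_zero] at h2 ⊢
    have iu : Integrable (u k : Ω → ℝ) μ := L1.integrable_coeFn _
    have iv : Integrable (v : Ω → ℝ) μ := L1.integrable_coeFn _
    have h3 : ∫ ω, (v : Ω → ℝ) ω * g n ω ∂μ = ∫ ω, (u k : Ω → ℝ) ω * g n ω ∂μ -
        ∫ ω, ((u k : Ω → ℝ) ω - (v : Ω → ℝ) ω) * g n ω ∂μ := by
      have h6 := hbm _ (iu.sub iv) n
      have h7 : Integrable (fun ω => ((u k : Ω → ℝ) ω - (v : Ω → ℝ) ω) * g n ω) μ := h6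
      rw [← integral_sub (hbm _ iu n) h7]
      refine integral_congr_ae (Eventually.of_forall fun ω => ?_)
      show (v : Ω → ℝ) ω * g n ω = (u k : Ω → ℝ) ω * g n ω -
        ((u k : Ω → ℝ) ω - (v : Ω → ℝ) ω) * g n ω
      ring
    have h4 : |∫ ω, ((u k : Ω → ℝ) ω - (v : Ω → ℝ) ω) * g n ω ∂μ| ≤ 2 * ‖u k - v‖ := by
      have h5 : ‖u k - v‖ = ∫ ω, |(u k : Ω → ℝ) ω - (v : Ω → ℝ) ω| ∂μ := by
        rw [L1.norm_eq_integral_norm]
        refine integral_congr_ae ?_
        filter_upwards [Lp.coeFn_sub (u k) v] with ω hω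
        rw [hω, Real.norm_eq_abs, Pi.sub_apply]
      rw [h5, ← integral_const_mul]
      refine abs_integral_le_integral_abs.trans ?_
      refine integral_mono (hbm _ (iu.sub iv) n).abs ((iu.sub iv).abs.const_mul 2) fun ω => ?_
      show |((u k : Ω → ℝ) ω - (v : Ω → ℝ) ω) * g n ω| ≤ 2 * |(u k : Ω → ℝ) ω - (v : Ω → ℝ) ω|
      rw [abs_mul, mul_comm]
      exact mul_le_mul_of_nonneg_right (hb n ω) (abs_nonneg _)
    show |∫ ω, (v : Ω → ℝ) ω * g n ω ∂μ| < ε
    rw [h3]
    refine (abs_sub _ _).trans_lt ?_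
    linarith
  · intro u v huv _ h
    refine h.congr fun n => ?_
    refine integral_congr_ae ?_
    filter_upwards [huv] with ω hω
    rw [hω]

end Zk62.QS
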