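import Pool.Agent.Zk62.QS.Coal
import Pool.Agent.Zk62.QS.Weak

/-!
Zero-one laws at infinity.
-/

set_option autoImplicit false

namespace Zk62.QS

open H974 Finset H342P H984P H984H MeasureTheory Filter Topology

/-- Zero-one law for events which almost surely do not depend on finitely many edges. -/
theorem kolm {A : Set Conf} (hA : MeasurableSet A)
    (hinv : ∀ᵐ ω ∂perc, ∀ ω' : Conf, {e : Edg | ω e ≠ ω' e}.Finite → (ω ∈ A ↔ ω' ∈ A)) :
    perc A = 0 ∨ perc A = 1 := by
  set a : ℝ := perc.real A with ha
  have ha0 : 0 ≤ a := measureReal_nonneg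
  have ha1 : a ≤ 1 := measureReal_le_one
  set g : ℕ → Conf → ℝ := fun _ ω => A.indicator (fun _ => (1 : ℝ)) ω - a with hg
  have hI01 : ∀ ω, |A.indicator (fun _ => (1 : ℝ)) ω| ≤ 1 := by
    intro ω
    by_cases h : ω ∈ A
    · rw [Set.indicator_of_mem h]; norm_num
    · rw [Set.indicator_of_notMem h]; norm_num
  have hm : Measurable fun ω : Conf => A.indicator (fun _ => (1 : ℝ)) ω :=
    measurable_const.indicator hA
  have hi : Integrable (fun ω : Conf => A.indicator (fun _ => (1 : ℝ)) ω) perc :=
    (integrable_const _).indicator hA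
  have hgm : ∀ n, Measurable (g n) := fun n => hm.sub_const _
  have hgb : ∀ n ω, |g n ω| ≤ 2 := by
    intro n ω
    refine (abs_sub _ _).trans ?_
    rw [abs_of_nonneg ha0]
    linarith [hI01 ω]
  have key := weak_sets (μ := perc) hgm hgb (s := measurableCylinders fun _ : Edg => Bool)
      generateFrom_measurableCylinders.symm isPiSystem_measurableCylinders ?_ ?_ A hA
  · have h1 : ∫ ω in A, g 0 ω ∂perc = 0 :=
      tendsto_nhds_unique (f := fun _ : ℕ => ∫ ω in A, g 0 ω ∂perc) tendsto_const_nhds key
    have h2 : ∫ ω in A, g 0 ω ∂perc = a - a * a := by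
      have e1 : ∫ ω in A, g 0 ω ∂perc = ∫ ω in A, (1 - a) ∂perc := by
        refine setIntegral_congr_fun hA fun ω hω => ?_
        show A.indicator (fun _ => (1 : ℝ)) ω - a = 1 - a
        rw [Set.indicator_of_mem hω]
      rw [e1, setIntegral_const, smul_eq_mul, ← ha]
      ring
    rw [h2] at h1
    have h3 : a * (1 - a) = 0 := by linarith
    rcases mul_eq_zero.1 h3 with h | h
    · left
      have h2 : perc.real A = 0 := h
      rwa [measureReal_eq_zero_iff] at h2
    · right
      have h2 : perc.real A = 1 := by linarith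
      rw [← ofReal_measureReal (μ := perc), h2, ENNReal.ofReal_one]
  · have : ∀ n, ∫ ω, g n ω ∂perc = 0 := by
      intro n
      show ∫ ω, (A.indicator (fun _ => (1 : ℝ)) ω - a) ∂perc = 0
      rw [integral_sub hi (integrable_const _), ind_int hA, integral_const, probReal_univ,
        one_smul, sub_self]
    simp only [this]
    exact tendsto_const_nhds
  · intro B hB
    obtain ⟨I, S, hS, rfl⟩ := (mem_measurableCylinders (α := fun _ : Edg => Bool) B).1 hB
    have hBm : MeasurableSet (cylinder (α := fun _ : Edg => Bool) I S) :=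
      MeasurableSet.cylinder I hS
    have : ∀ n, ∫ ω in cylinder I S, g n ω ∂perc = 0 := by
      intro n
      rw [← integral_indicator hBm]
      have hmg : Measurable ((cylinder (α := fun _ : Edg => Bool) I S).indicator (g n)) :=
        (hgm n).indicator hBm
      rw [← glue_int (I : Set Edg) hmg]
      -- the two factors
      have e1 : ∀ᵐ p ∂(perc.prod perc), (cylinder (α := fun _ : Edg => Bool) I S).indicator (g n)
          (glue (I : Set Edg) p) = (cylinder (α := fun _ : Edg => Bool) I S).indicator
            (fun _ => (1 : ℝ)) p.1 * g n p.2 := by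
        have h1 : ∀ᵐ p ∂(perc.prod perc), ∀ ω' : Conf, {e : Edg | p.2 e ≠ ω' e}.Finite →
            (p.2 ∈ A ↔ ω' ∈ A) :=
          Measure.quasiMeasurePreserving_snd.ae hinv
        filter_upwards [h1] with p hp
        have h2 : {e : Edg | p.2 e ≠ glue (I : Set Edg) p e}.Finite := by
          refine I.finite_toSet.subset fun e he => ?_
          by_contra hcon
          exact he (glue_out hcon).symm
        have h3 := hp _ h2
        have h4 : g n (glue (I : Set Edg) p) = g n p.2 := by
          show A.indicator (fun _ => (1 : ℝ)) _ - a = A.indicator (fun _ => (1 : ℝ)) _ - a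
          by_cases h : p.2 ∈ A
          · rw [Set.indicator_of_mem h, Set.indicator_of_mem (h3.1 h)]
          · rw [Set.indicator_of_notMem h, Set.indicator_of_notMem (fun h' => h (h3.2 h'))]
        have h5 : glue (I : Set Edg) p ∈ cylinder (α := fun _ : Edg => Bool) I S ↔
            p.1 ∈ cylinder (α := fun _ : Edg => Bool) I S := by
          rw [mem_cylinder, mem_cylinder]
          have e : I.restrict (glue (I : Set Edg) p) = I.restrict p.1 := by
            funext i
            exact glue_in (S := (I : Set Edg)) i.2
          rw [e]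
        by_cases h : p.1 ∈ cylinder (α := fun _ : Edg => Bool) I S
        · rw [Set.indicator_of_mem (h5.2 h), Set.indicator_of_mem h, h4, one_mul]
        · rw [Set.indicator_of_notMem (fun h' => h (h5.1 h')), Set.indicator_of_notMem h, zero_mul]
      rw [integral_congr_ae e1, integral_prod_mul]
      have : ∫ ω, g n ω ∂perc = 0 := by
        show ∫ ω, (A.indicator (fun _ => (1 : ℝ)) ω - a) ∂perc = 0
        rw [integral_sub hi (integrable_const _), ind_int hA, integral_const, probReal_univ,
          one_smul, sub_self]
      rw [this, mul_zero]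
    simp only [this]
    exact tendsto_const_nhds

/-- Zero-one law at infinity for the path. -/
theorem path_zero_one {T : Set (ℕ → St)} (hT : MeasurableSet (path ⁻¹' T))
    (hinv : ∀ (p p' : ℕ → St) (k k' : ℕ), (∀ j, p (k + j) = p' (k' + j)) → (p ∈ T ↔ p' ∈ T)) :
    perc {ω | path ω ∈ T} = 0 ∨ perc {ω | path ω ∈ T} = 1 := by
  refine kolm (A := {ω | path ω ∈ T}) hT ?_
  filter_upwards [coalesce] with ω hω ω' hfin
  obtain ⟨k, k', h⟩ := hω ω' hfin
  exact hinv _ _ k k' h

end Zk62.QS
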