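import Pool.Agent.Zk62.QS.Kolm
import Pool.Agent.Zk62.QS.Const
import Pool.Agent.TH992.L.UpTail
import Pool.Agent.TH992.L.IoSlow
import Pool.Agent.TH992.L.IoFast
import Pool.Agent.Zk62.LS.Perc

/-!
The laws of the iterated logarithm with constants.
-/

set_option autoImplicit false

namespace Zk62.QS

open H974 Finset H342P H984P H984H MeasureTheory Filter Topology

/-- The normalisation. -/
noncomputable def nn (b : ℝ) (n : ℕ) : ℝ := (n : ℝ) ^ (4/7 : ℝ) * Real.log (Real.log n) ^ b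

theorem nn_tendsto_ll : Tendsto (fun n : ℕ => Real.log (Real.log (n : ℝ))) atTop atTop :=
  Real.tendsto_log_atTop.comp (Real.tendsto_log_atTop.comp tendsto_natCast_atTop_atTop)

theorem nn_pos (b : ℝ) : ∀ᶠ n : ℕ in atTop, 0 < nn b n := by
  filter_upwards [nn_tendsto_ll.eventually_gt_atTop 0, eventually_gt_atTop 0] with n h1 h2
  have h3 : (0 : ℝ) < n := by exact_mod_cast h2
  unfold nn
  positivity

theorem nn_ratio (b : ℝ) (k k' : ℕ) :
    Tendsto (fun j : ℕ => nn b (j + k') / nn b (j + k)) atTop (𝓝 1) := ratio_norm (4/7) b k k'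

theorem freq_shift {P : ℕ → Prop} (k : ℕ) : (∃ᶠ n in atTop, P n) ↔ ∃ᶠ j in atTop, P (j + k) := by
  rw [← frequently_map (m := fun j => j + k) (f := atTop) (P := P), map_add_atTop_eq_nat]

/-- The event that the path is fast. -/
def TF (b : ℝ) : Set (ℕ → St) :=
  {p | ∀ q : ℚ, (q : ℝ) < b → ∃ᶠ n : ℕ in atTop, (q : ℝ) * nn (3/7) n ≤ ‖place (p n)‖}

theorem TF_inv (b : ℝ) {p p' : ℕ → St} {k k' : ℕ} (h : ∀ j, p (k + j) = p' (k' + j))
    (hp : p ∈ TF b) : p' ∈ TF b := by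
  intro q hq
  rcases le_or_gt (q : ℝ) 0 with h0 | h0
  · apply Eventually.frequently
    filter_upwards [nn_pos (3/7)] with n hn
    have := norm_nonneg (place (p' n))
    nlinarith
  · obtain ⟨q', h1, h2⟩ := exists_rat_btwn hq
    have h3 := (freq_shift k).1 (hp q' h2)
    rw [freq_shift k']
    have h4 : ∀ᶠ j : ℕ in atTop, nn (3/7) (j + k') / nn (3/7) (j + k) < (q' : ℝ) / q :=
      (tendsto_order.1 (nn_ratio (3/7) k k')).2 _ ((one_lt_div h0).2 h1)
    have h5 : ∀ᶠ j : ℕ in atTop, 0 < nn (3/7) (j + k) :=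
      (tendsto_add_atTop_nat k).eventually (nn_pos (3/7))
    refine (h3.and_eventually (h4.and h5)).mono ?_
    rintro j ⟨g1, g2, g3⟩
    have e : p' (j + k') = p (j + k) := by
      rw [add_comm j k', add_comm j k]
      exact (h j).symm
    rw [e]
    refine le_trans ?_ g1
    rw [div_lt_div_iff₀ g3 h0] at g2
    linarith

/-- The greatest distance, as a function of the path. -/
noncomputable def rch (n : ℕ) (p : ℕ → St) : ℝ :=
  (Finset.range (n + 1)).sup' ⟨0, Finset.mem_range.mpr (Nat.succ_pos n)⟩ fun k => ‖place (p k)‖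

theorem rch_eq (n : ℕ) (ω : Conf) : rch n (path ω) = reach n ω := rfl

theorem rch_nonneg (n : ℕ) (p : ℕ → St) : 0 ≤ rch n p :=
  (norm_nonneg (place (p 0))).trans
    (Finset.le_sup' (fun k => ‖place (p k)‖) (Finset.mem_range.2 (Nat.succ_pos n)))

theorem rch_shift {p p' : ℕ → St} {k k' : ℕ} (h : ∀ j, p (k + j) = p' (k' + j)) (j : ℕ) :
    rch (j + k') p' ≤ max (rch k' p') (rch (j + k) p) := by
  refine Finset.sup'_le _ _ fun i hi => ?_
  have hi' : i ≤ j + k' := by have := Finset.mem_range.1 hi; omega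
  rcases Nat.lt_or_ge i k' with h1 | h1
  · exact (Finset.le_sup' (fun k => ‖place (p' k)‖) (Finset.mem_range.2 (by omega))).trans
      (le_max_left _ _)
  · have e : p' i = p (k + (i - k')) := by
      have := h (i - k')
      rw [show k' + (i - k') = i by omega] at this
      exact this.symm
    have h2 : ‖place (p' i)‖ ≤ rch (j + k) p := by
      rw [e]
      exact Finset.le_sup' (fun k => ‖place (p k)‖) (Finset.mem_range.2 (by omega))
    exact h2.trans (le_max_right _ _)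

/-- The event that the path is slow. -/
def TS (b : ℝ) : Set (ℕ → St) :=
  {p | ∀ q : ℚ, (q : ℝ) < b → ∃ᶠ n : ℕ in atTop, rch n p ≤ (-q : ℝ) * nn (-(1/14)) n}

theorem nn_top : Tendsto (fun n : ℕ => nn (-(1/14)) n) atTop atTop := by
  -- log log n ≤ n for large n
  have h1 : Tendsto (fun n : ℕ => (n : ℝ) ^ (1/2 : ℝ)) atTop atTop :=
    (tendsto_rpow_atTop (by norm_num)).comp tendsto_natCast_atTop_atTop
  refine tendsto_atTop_mono' _ ?_ h1
  filter_upwards [nn_tendsto_ll.eventually_gt_atTop 0, eventually_gt_atTop 0] with n g1 g2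
  have h3 : (1 : ℝ) ≤ n := by exact_mod_cast g2
  have h4 : (0 : ℝ) < n := by linarith
  have hlog : 0 < Real.log (n : ℝ) := by
    by_contra hcon
    have h5 : Real.log (n : ℝ) = 0 := le_antisymm (not_lt.1 hcon) (Real.log_nonneg h3)
    rw [h5, Real.log_zero] at g1
    exact lt_irrefl _ g1
  have h6 : Real.log (Real.log (n : ℝ)) ≤ n := by
    have a1 := Real.log_le_sub_one_of_pos hlog
    have a2 := Real.log_le_sub_one_of_pos h4
    linarith
  unfold nn
  rw [Real.rpow_neg g1.le]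
  have h7 : Real.log (Real.log (n : ℝ)) ^ (1/14 : ℝ) ≤ (n : ℝ) ^ (1/14 : ℝ) :=
    Real.rpow_le_rpow g1.le h6 (by norm_num)
  have h8 : 0 < Real.log (Real.log (n : ℝ)) ^ (1/14 : ℝ) := Real.rpow_pos_of_pos g1 _
  rw [← div_eq_mul_inv, le_div_iff₀ h8]
  calc (n : ℝ) ^ (1/2 : ℝ) * Real.log (Real.log (n : ℝ)) ^ (1/14 : ℝ)
      ≤ (n : ℝ) ^ (1/2 : ℝ) * (n : ℝ) ^ (1/14 : ℝ) :=
        mul_le_mul_of_nonneg_left h7 (by positivity)
    _ = (n : ℝ) ^ (4/7 : ℝ) := by
        rw [← Real.rpow_add h4]; norm_num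

theorem TS_inv (b : ℝ) {p p' : ℕ → St} {k k' : ℕ} (h : ∀ j, p (k + j) = p' (k' + j))
    (hp : p ∈ TS b) : p' ∈ TS b := by
  intro q hq
  rcases le_or_gt 0 (q : ℝ) with h0 | h0
  · exfalso
    obtain ⟨q', h1, h2⟩ := exists_rat_btwn hq
    obtain ⟨n, g1, g2⟩ := ((hp q' h2).and_eventually (nn_pos (-(1/14)))).exists
    have := rch_nonneg n p
    have h3 : (0 : ℝ) < q' := lt_of_le_of_lt h0 h1
    nlinarith
  · have hb : (q : ℝ) < min b ((q : ℝ) / 2) := lt_min hq (by linarith)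
    obtain ⟨q', h1, h2⟩ := exists_rat_btwn hb
    have h2a : (q' : ℝ) < b := h2.trans_le (min_le_left _ _)
    have h2b : (q' : ℝ) < 0 := by
      have := h2.trans_le (min_le_right _ _)
      linarith
    have h3 := (freq_shift k).1 (hp q' h2a)
    rw [freq_shift k']
    have h4 : ∀ᶠ j : ℕ in atTop, (q' : ℝ) / q < nn (-(1/14)) (j + k') / nn (-(1/14)) (j + k) :=
      (tendsto_order.1 (nn_ratio (-(1/14)) k k')).1 _ (by
        rw [div_lt_one_of_neg h0]; exact h1)
    have h5 : ∀ᶠ j : ℕ in atTop, 0 < nn (-(1/14)) (j + k) :=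
      (tendsto_add_atTop_nat k).eventually (nn_pos _)
    have h6 : ∀ᶠ j : ℕ in atTop, rch k' p' / (-q) ≤ nn (-(1/14)) (j + k') :=
      (tendsto_add_atTop_nat k').eventually (nn_top.eventually_ge_atTop _)
    refine (h3.and_eventually (h4.and (h5.and h6))).mono ?_
    rintro j ⟨g1, g2, g3, g4⟩
    refine (rch_shift h j).trans (max_le ?_ ?_)
    · rw [div_le_iff₀ (by linarith)] at g4
      linarith
    · refine g1.trans ?_
      rw [lt_div_iff₀ g3] at g2
      have hq0 : (q : ℝ) ≠ 0 := h0.ne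
      have e : (-q' : ℝ) * nn (-(1/14)) (j + k) =
          (-q : ℝ) * ((q' : ℝ) / q * nn (-(1/14)) (j + k)) := by
        field_simp
      rw [e]
      exact mul_le_mul_of_nonneg_left g2.le (by linarith)

theorem nn_mono {m n : ℕ} (h1 : 1 ≤ m) (h2 : 0 < Real.log (Real.log (m : ℝ))) (h : m ≤ n) :
    nn (3/7) m ≤ nn (3/7) n := by
  have m1 : (1 : ℝ) ≤ m := by exact_mod_cast h1
  have hmn : (m : ℝ) ≤ n := by exact_mod_cast h
  have hl : 0 < Real.log (m : ℝ) := by
    by_contra hcon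
    have h5 : Real.log (m : ℝ) = 0 := le_antisymm (not_lt.1 hcon) (Real.log_nonneg m1)
    rw [h5, Real.log_zero] at h2
    exact lt_irrefl _ h2
  have a1 : Real.log (m : ℝ) ≤ Real.log n := Real.log_le_log (by linarith) hmn
  have a2 : Real.log (Real.log (m : ℝ)) ≤ Real.log (Real.log n) := Real.log_le_log hl a1
  unfold nn
  exact mul_le_mul (Real.rpow_le_rpow (by linarith) hmn (by norm_num))
    (Real.rpow_le_rpow h2.le a2 (by norm_num)) (by positivity) (by positivity)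

theorem nn_top' : Tendsto (fun n : ℕ => nn (3/7) n) atTop atTop := by
  have h1 : Tendsto (fun n : ℕ => (n : ℝ) ^ (4/7 : ℝ)) atTop atTop :=
    (tendsto_rpow_atTop (by norm_num)).comp tendsto_natCast_atTop_atTop
  refine tendsto_atTop_mono' _ ?_ h1
  filter_upwards [nn_tendsto_ll.eventually_ge_atTop 1] with n g1
  have h2 : 1 ≤ Real.log (Real.log (n : ℝ)) ^ (3/7 : ℝ) := Real.one_le_rpow g1 (by norm_num)
  have h3 : 0 ≤ (n : ℝ) ^ (4/7 : ℝ) := by positivity
  unfold nn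
  nlinarith

/-- The two-arm bounds used below. -/
theorem lil_inputs : (∃ c : ℝ, 0 < c ∧ H984P.LowA c (1/4)) ∧
    (∃ C : ℝ, 0 < C ∧ H342P.TwoUp C (1/4)) := ⟨LS.inputs.1, LS.inputs.2.1⟩

/-- **The laws of the iterated logarithm, with constants.** -/
theorem lil : ∃ κ κ' : ℝ, 0 < κ ∧ 0 < κ' ∧ ∀ᵐ ω ∂perc,
    (∀ b < κ, ∃ᶠ n : ℕ in atTop,
      b * ((n : ℝ) ^ (4/7 : ℝ) * Real.log (Real.log n) ^ (3/7 : ℝ)) ≤ ‖gam ω n‖) ∧
    (∀ b, κ < b → ∀ᶠ n : ℕ in atTop,
      reach n ω ≤ b * ((n : ℝ) ^ (4/7 : ℝ) * Real.log (Real.log n) ^ (3/7 : ℝ))) ∧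
    (∀ b < κ', ∀ᶠ n : ℕ in atTop,
      b * ((n : ℝ) ^ (4/7 : ℝ) / Real.log (Real.log n) ^ (1/14 : ℝ)) ≤ reach n ω) ∧
    (∀ b, κ' < b → ∃ᶠ n : ℕ in atTop,
      reach n ω ≤ b * ((n : ℝ) ^ (4/7 : ℝ) / Real.log (Real.log n) ^ (1/14 : ℝ))) := by
  obtain ⟨⟨c0, hc0, hL⟩, ⟨C0, hC0, hU⟩⟩ := lil_inputs
  obtain ⟨a, A, ha, hA, htail⟩ := TH992.L.up_tail hc0 hC0 hL hU
  obtain ⟨C1, hC1, h1⟩ := TH992.L.ev_up ha hA htail
  obtain ⟨c2, hc2, h2⟩ := TH992.L.io_fast hC0 hU
  obtain ⟨c3, hc3, h3⟩ := TH992.L.ev_low hC0 hU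
  obtain ⟨C4, hC4, h4⟩ := TH992.L.io_slow hc0 hL hC0 hU
  -- measurability
  have mg : ∀ n : ℕ, Measurable fun ω : Conf => ‖gam ω n‖ := fun n =>
    Perc_meas_dep n (fun p => ‖place (p n)‖) fun p p' h => by rw [h n le_rfl]
  have mE : ∀ q : ℝ, MeasurableSet {ω : Conf | ∃ᶠ n : ℕ in atTop, q * nn (3/7) n ≤ ‖gam ω n‖} := by
    intro q
    have : {ω : Conf | ∃ᶠ n : ℕ in atTop, q * nn (3/7) n ≤ ‖gam ω n‖} =
        limsup (fun n : ℕ => {ω : Conf | q * nn (3/7) n ≤ ‖gam ω n‖}) atTop := by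
      ext ω
      rw [mem_limsup_iff_frequently_mem]
      rfl
    rw [this]
    exact MeasurableSet.measurableSet_limsup fun n => measurableSet_le measurable_const (mg n)
  have mE' : ∀ q : ℝ, MeasurableSet {ω : Conf | ∃ᶠ n : ℕ in atTop,
      reach n ω ≤ (-q) * nn (-(1/14)) n} := by
    intro q
    have : {ω : Conf | ∃ᶠ n : ℕ in atTop, reach n ω ≤ (-q) * nn (-(1/14)) n} =
        limsup (fun n : ℕ => {ω : Conf | reach n ω ≤ (-q) * nn (-(1/14)) n}) atTop := by
      ext ω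
      rw [mem_limsup_iff_frequently_mem]
      rfl
    rw [this]
    exact MeasurableSet.measurableSet_limsup fun n =>
      measurableSet_le (reach_meas n) measurable_const
  have mF : ∀ b : ℝ, MeasurableSet {ω : Conf | ∀ q : ℚ, (q : ℝ) < b →
      ω ∈ {ω : Conf | ∃ᶠ n : ℕ in atTop, (q : ℝ) * nn (3/7) n ≤ ‖gam ω n‖}} := by
    intro b
    have : {ω : Conf | ∀ q : ℚ, (q : ℝ) < b →
        ω ∈ {ω : Conf | ∃ᶠ n : ℕ in atTop, (q : ℝ) * nn (3/7) n ≤ ‖gam ω n‖}} =
        ⋂ q : ℚ, ⋂ _ : (q : ℝ) < b,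
          {ω : Conf | ∃ᶠ n : ℕ in atTop, (q : ℝ) * nn (3/7) n ≤ ‖gam ω n‖} := by
      ext ω
      simp only [Set.mem_iInter, Set.mem_ofPred_eq]
    rw [this]
    exact MeasurableSet.iInter fun q => MeasurableSet.iInter fun _ => mE q
  have mF' : ∀ b : ℝ, MeasurableSet {ω : Conf | ∀ q : ℚ, (q : ℝ) < b →
      ω ∈ {ω : Conf | ∃ᶠ n : ℕ in atTop, reach n ω ≤ (-q : ℝ) * nn (-(1/14)) n}} := by
    intro b
    have : {ω : Conf | ∀ q : ℚ, (q : ℝ) < b →
        ω ∈ {ω : Conf | ∃ᶠ n : ℕ in atTop, reach n ω ≤ (-q : ℝ) * nn (-(1/14)) n}} =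
        ⋂ q : ℚ, ⋂ _ : (q : ℝ) < b,
          {ω : Conf | ∃ᶠ n : ℕ in atTop, reach n ω ≤ (-q : ℝ) * nn (-(1/14)) n} := by
      ext ω
      simp only [Set.mem_iInter, Set.mem_ofPred_eq]
    rw [this]
    exact MeasurableSet.iInter fun q => MeasurableSet.iInter fun _ => mE' q
  -- the fast side
  obtain ⟨κ, hκ1, -, hκ⟩ := const_of (μ := perc)
    (E := fun b => {ω : Conf | ∃ᶠ n : ℕ in atTop, b * nn (3/7) n ≤ ‖gam ω n‖})
    (fun b b' hbb ω hω => by
      have hω' : ∃ᶠ n : ℕ in atTop, b' * nn (3/7) n ≤ ‖gam ω n‖ := hω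
      refine (hω'.and_eventually (nn_pos (3/7))).mono ?_
      rintro n ⟨g1, g2⟩
      exact (mul_le_mul_of_nonneg_right hbb g2.le).trans g1)
    (fun b => path_zero_one (T := TF b) (mF b)
      fun p p' k k' h => ⟨TF_inv b h, TF_inv b fun j => (h j).symm⟩)
    mF (c := c2) (C := C1 + 1) (by
      filter_upwards [h2] with ω hω
      unfold TH992.L.ll at hω
      refine hω.mono fun n hn => ?_
      show c2 * nn (3/7) n ≤ _
      unfold nn
      rw [← mul_assoc]
      exact hn) (by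
      filter_upwards [h1] with ω hω hcon
      unfold TH992.L.ll at hω
      have hcon' : ∃ᶠ n : ℕ in atTop, (C1 + 1) * nn (3/7) n ≤ ‖gam ω n‖ := hcon
      obtain ⟨n, g1, g2, g3⟩ := (hcon'.and_eventually (hω.and (nn_pos (3/7)))).exists
      have g4 := norm_gam_le n ω
      have g5 : reach n ω ≤ C1 * nn (3/7) n := by
        unfold nn
        rw [← mul_assoc]
        exact g2
      nlinarith)
  obtain ⟨κ', hκ1', hκ2', hκ'⟩ := const_of (μ := perc)
    (E := fun b => {ω : Conf | ∃ᶠ n : ℕ in atTop, reach n ω ≤ (-b) * nn (-(1/14)) n})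
    (fun b b' hbb ω hω => by
      have hω' : ∃ᶠ n : ℕ in atTop, reach n ω ≤ (-b') * nn (-(1/14)) n := hω
      refine (hω'.and_eventually (nn_pos (-(1/14)))).mono ?_
      rintro n ⟨g1, g2⟩
      refine g1.trans (mul_le_mul_of_nonneg_right (by linarith) g2.le))
    (fun b => path_zero_one (T := TS b) (mF' b)
      fun p p' k k' h => ⟨TS_inv b h, TS_inv b fun j => (h j).symm⟩)
    mF' (c := -C4) (C := -(c3 / 2)) (by
      filter_upwards [h4] with ω hω
      unfold TH992.L.ll at hω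
      refine (hω.and_eventually (nn_tendsto_ll.eventually_gt_atTop 0)).mono ?_
      rintro n ⟨g1, g2⟩
      show reach n ω ≤ (- -C4) * nn (-(1/14)) n
      rw [neg_neg]
      unfold nn
      rw [Real.rpow_neg g2.le, ← mul_assoc, ← div_eq_mul_inv]
      exact g1) (by
      filter_upwards [h3] with ω hω hcon
      unfold TH992.L.ll at hω
      have hcon' : ∃ᶠ n : ℕ in atTop, reach n ω ≤ (- -(c3 / 2)) * nn (-(1/14)) n := hcon
      obtain ⟨n, g1, g2, g3, g4⟩ := (hcon'.and_eventually (hω.and ((nn_pos (-(1/14))).and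
        (nn_tendsto_ll.eventually_gt_atTop 0)))).exists
      have g5 : c3 * nn (-(1/14)) n ≤ reach n ω := by
        unfold nn
        rw [Real.rpow_neg g4.le, ← mul_assoc, ← div_eq_mul_inv]
        exact g2
      nlinarith)
  refine ⟨κ, -κ', by linarith, by linarith, ?_⟩
  filter_upwards [hκ, hκ'] with ω g g'
  refine ⟨fun b hb => g.1 b hb, fun b hb => ?_, fun b hb => ?_, fun b hb => ?_⟩
  · -- all points of the path
    obtain ⟨b', h1, h2⟩ := exists_between hb
    have hb'0 : 0 < b' := by linarith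
    have g2 := g.2 b' h1
    have g3 : ∀ᶠ n : ℕ in atTop, ‖gam ω n‖ < b' * nn (3/7) n := by
      have g2' : ¬ ∃ᶠ n : ℕ in atTop, b' * nn (3/7) n ≤ ‖gam ω n‖ := g2
      rw [not_frequently] at g2'
      filter_upwards [g2'] with n hn
      exact not_le.1 hn
    obtain ⟨N, hN⟩ := eventually_atTop.1 (g3.and ((nn_tendsto_ll.eventually_gt_atTop 0).and
      (eventually_ge_atTop 1)))
    filter_upwards [nn_top'.eventually_ge_atTop (reach N ω / b), nn_pos (3/7),
      eventually_ge_atTop N] with n k1 k2 k3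
    have hb0 : 0 < b := by linarith
    refine Finset.sup'_le _ _ fun i hi => ?_
    have hi' : i ≤ n := by have := Finset.mem_range.1 hi; omega
    rcases Nat.lt_or_ge i N with h5 | h5
    · have h6 : ‖gam ω i‖ ≤ reach N ω := (norm_gam_le i ω).trans (reach_mono ω h5.le)
      rw [div_le_iff₀ hb0] at k1
      have h7 : nn (3/7) n * b = b * nn (3/7) n := mul_comm _ _
      show ‖gam ω i‖ ≤ b * nn (3/7) n
      linarith
    · obtain ⟨q1, q2, q3⟩ := hN i h5
      have h6 := nn_mono q3 q2 hi'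
      show ‖gam ω i‖ ≤ b * nn (3/7) n
      have h7 : b' * nn (3/7) i ≤ b' * nn (3/7) n := mul_le_mul_of_nonneg_left h6 hb'0.le
      have h8 : b' * nn (3/7) n ≤ b * nn (3/7) n := mul_le_mul_of_nonneg_right h2.le k2.le
      linarith
  · have g2 := g'.2 (-b) (by linarith)
    have g2' : ¬ ∃ᶠ n : ℕ in atTop, reach n ω ≤ (- -b) * nn (-(1/14)) n := g2
    rw [not_frequently] at g2'
    filter_upwards [g2', nn_tendsto_ll.eventually_gt_atTop 0] with n hn hl
    have h5 := (not_le.1 hn).le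
    rw [neg_neg] at h5
    unfold nn at h5
    rw [Real.rpow_neg hl.le, ← div_eq_mul_inv] at h5
    exact h5
  · have g2 := g'.1 (-b) (by linarith)
    have g2' : ∃ᶠ n : ℕ in atTop, reach n ω ≤ (- -b) * nn (-(1/14)) n := g2
    refine (g2'.and_eventually (nn_tendsto_ll.eventually_gt_atTop 0)).mono ?_
    rintro n ⟨hn, hl⟩
    rw [neg_neg] at hn
    unfold nn at hn
    rw [Real.rpow_neg hl.le, ← div_eq_mul_inv] at hn
    exact hn

end Zk62.QS
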