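import Pool.Agent.Zk62.QS.Decor
import Pool.Agent.Zk62.LS.Main

/-!
Mixing and the zero-one law for the limits.
-/

set_option autoImplicit false

namespace Zk62.QS

open H974 Finset H342P H984P H984H MeasureTheory Filter Topology

/-- The rescaled curve as a function of the path. -/
noncomputable def curveQ (m : ℕ) (p : ℕ → St) : C(unitInterval, ℂ) :=
  H984N.pl m (fun k => (((m : ℝ) ^ (-(4/7) : ℝ) : ℝ) : ℂ) * place (p k))

theorem pl_local {N m : ℕ} {p p' : ℕ → ℂ} (h : ∀ k ≤ m, p k = p' k) {s : unitInterval}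
    (hs : (s : ℝ) * N ≤ m) : H984N.pl N p s = H984N.pl N p' s := by
  rw [H984N.pl_apply', H984N.pl_apply', h 0 (Nat.zero_le _)]
  congr 1
  refine Finset.sum_congr rfl fun k _ => ?_
  rcases Nat.lt_or_ge k m with hk | hk
  · rw [h k hk.le, h (k + 1) hk]
  · have : H984N.clamp ((s : ℝ) * N - k) = 0 := by
      apply H984N.pl_clamp_zero
      have : (m : ℝ) ≤ k := by exact_mod_cast hk
      linarith
    rw [this]
    simp

theorem sc_local {n m : ℕ} {l : ℝ} (h0 : 0 ≤ l) (h1 : l ≤ 1) (hm : l * n ≤ m) {p p' : ℕ → St}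
    (h : ∀ k ≤ m, p k = p' k) : LS.sc (4/7) l (curveQ n p) = LS.sc (4/7) l (curveQ n p') := by
  apply ContinuousMap.ext
  intro t
  rw [LS.sc_apply h0 h1, LS.sc_apply h0 h1]
  congr 1
  apply pl_local (m := m)
  · intro k hk
    rw [h k hk]
  · show (l * (t : ℝ)) * n ≤ m
    have h2 : (t : ℝ) ≤ 1 := t.2.2
    have h3 : (0 : ℝ) ≤ t := t.2.1
    have h4 : l * (t : ℝ) * n ≤ l * n := by
      have : l * (t : ℝ) ≤ l := by nlinarith
      exact mul_le_mul_of_nonneg_right this (Nat.cast_nonneg n)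
    linarith

/-- Mixing of the rescalings for all limits. -/
theorem mixing {c C : ℝ} (hc : 0 < c)
    (hdec : ∀ (m n : ℕ), 1 ≤ m → m ≤ n → ∀ (L : ℝ), 0 ≤ L →
      ∀ (F : (ℕ → St) → ℝ), (∀ p p' : ℕ → St, (∀ k ≤ m, p k = p' k) → F p = F p') →
      (∀ p, |F p| ≤ 1) → ∀ (G : C(unitInterval, ℂ) → ℝ), (∀ f, |G f| ≤ 1) →
      (∀ f g, |G f - G g| ≤ L * ‖f - g‖) →
      |∫ ω, F (path ω) * G (curve n ω) ∂perc -
        (∫ ω, F (path ω) ∂perc) * ∫ ω, G (curve n ω) ∂perc| ≤ C * (1 + L) * ((m : ℝ) / n) ^ c)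
    (hC : 0 < C) {φ : ℕ → ℕ} (hφ : Tendsto φ atTop atTop)
    {μ : ProbabilityMeasure C(unitInterval, ℂ)}
    (hμ : Tendsto (fun i => lawH (φ i)) atTop (𝓝 μ)) {l : ℝ} (h0 : 0 < l) (h1 : l ≤ 1)
    {L : ℝ} (hL : 0 ≤ L) {F G : C(unitInterval, ℂ) → ℝ} (hFc : Continuous F)
    (hF : ∀ f, |F f| ≤ 1) (hG : ∀ f, |G f| ≤ 1) (hGL : ∀ f g, |G f - G g| ≤ L * ‖f - g‖) :
    |∫ f, F (LS.sc (4/7) l f) * G f ∂(μ : Measure C(unitInterval, ℂ)) -
      (∫ f, F (LS.sc (4/7) l f) ∂(μ : Measure C(unitInterval, ℂ))) *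
        ∫ f, G f ∂(μ : Measure C(unitInterval, ℂ))| ≤ C * (1 + L) * l ^ c := by
  have hGc : Continuous G := by
    rw [Metric.continuous_iff]
    intro f ε hε
    refine ⟨ε / (L + 1), by positivity, fun g hg => ?_⟩
    rw [Real.dist_eq]
    refine (hGL g f).trans_lt ?_
    rw [dist_eq_norm, lt_div_iff₀ (by positivity)] at hg
    have h2 : L * ‖g - f‖ ≤ ‖g - f‖ * (L + 1) := by
      have := norm_nonneg (g - f)
      nlinarith
    linarith
  have hsc : Continuous (LS.sc (4/7) l) := LS.sc_cont _ _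
  -- bounded continuous functions
  set b1 : BoundedContinuousFunction C(unitInterval, ℂ) ℝ :=
    BoundedContinuousFunction.ofNormedAddCommGroup (fun f => F (LS.sc (4/7) l f) * G f)
      ((hFc.comp hsc).mul hGc) 1 (fun f => by
        rw [Real.norm_eq_abs, abs_mul]; exact mul_le_one₀ (hF _) (abs_nonneg _) (hG _)) with hb1
  set b2 : BoundedContinuousFunction C(unitInterval, ℂ) ℝ :=
    BoundedContinuousFunction.ofNormedAddCommGroup (fun f => F (LS.sc (4/7) l f))
      (hFc.comp hsc) 1 (fun f => by rw [Real.norm_eq_abs]; exact hF _) with hb2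
  set b3 : BoundedContinuousFunction C(unitInterval, ℂ) ℝ :=
    BoundedContinuousFunction.ofNormedAddCommGroup G hGc 1
      (fun f => by rw [Real.norm_eq_abs]; exact hG _) with hb3
  have t1 := (ProbabilityMeasure.tendsto_iff_forall_integral_tendsto.1 hμ) b1
  have t2 := (ProbabilityMeasure.tendsto_iff_forall_integral_tendsto.1 hμ) b2
  have t3 := (ProbabilityMeasure.tendsto_iff_forall_integral_tendsto.1 hμ) b3
  have t4 := (t1.sub (t2.mul t3)).abs
  have hR : Tendsto (fun i => C * (1 + L) * (l + 1 / (φ i : ℝ)) ^ c) atTop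
      (𝓝 (C * (1 + L) * l ^ c)) := by
    have h2 : Tendsto (fun i => l + 1 / (φ i : ℝ)) atTop (𝓝 (l + 0)) :=
      tendsto_const_nhds.add (tendsto_one_div_atTop_nhds_zero_nat.comp hφ)
    rw [add_zero] at h2
    exact (h2.rpow_const (Or.inl h0.ne')).const_mul _
  refine le_of_tendsto_of_tendsto t4 hR ?_
  filter_upwards [hφ.eventually_ge_atTop 1] with i hi
  set n := φ i with hn
  have hn0 : (0 : ℝ) < n := by exact_mod_cast hi
  set m : ℕ := ⌈l * n⌉₊ with hm
  have hm1 : 1 ≤ m := Nat.one_le_ceil_iff.2 (by positivity)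
  have hmn : m ≤ n := by
    rw [hm, Nat.ceil_le]
    nlinarith
  have hlm : l * n ≤ m := Nat.le_ceil _
  have hml : (m : ℝ) < l * n + 1 := Nat.ceil_lt_add_one (by positivity)
  have key := hdec m n hm1 hmn L hL (fun p => F (LS.sc (4/7) l (curveQ n p)))
    (fun p p' h => by rw [sc_local h0.le h1 hlm h]) (fun p => hF _) G hG hGL
  have e1 : ∫ f, b1 f ∂(lawH n : Measure C(unitInterval, ℂ)) =
      ∫ ω, F (LS.sc (4/7) l (curveQ n (path ω))) * G (curve n ω) ∂perc :=
    lawH_int n ((hFc.comp hsc).mul hGc)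
  have e2 : ∫ f, b2 f ∂(lawH n : Measure C(unitInterval, ℂ)) =
      ∫ ω, F (LS.sc (4/7) l (curveQ n (path ω))) ∂perc :=
    lawH_int n (hFc.comp hsc)
  have e3 : ∫ f, b3 f ∂(lawH n : Measure C(unitInterval, ℂ)) = ∫ ω, G (curve n ω) ∂perc :=
    lawH_int n hGc
  show |∫ f, b1 f ∂(lawH n : Measure C(unitInterval, ℂ)) -
    (∫ f, b2 f ∂(lawH n : Measure C(unitInterval, ℂ))) *
      ∫ f, b3 f ∂(lawH n : Measure C(unitInterval, ℂ))| ≤ _
  rw [e1, e2, e3]
  refine key.trans ?_
  apply mul_le_mul_of_nonneg_left _ (by positivity)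
  apply Real.rpow_le_rpow (by positivity) _ hc.le
  rw [div_le_iff₀ hn0, add_mul, one_div, inv_mul_cancel₀ hn0.ne']
  exact hml.le

/-- Approximation of Borel sets by Lipschitz functions. -/
theorem approx {X : Type*} [MetricSpace X] [MeasurableSpace X] [BorelSpace X]
    (ρ : Measure X) [IsProbabilityMeasure ρ] {B : Set X} (hB : MeasurableSet B) {δ : ℝ}
    (hδ : 0 < δ) : ∃ (G : X → ℝ) (L : ℝ), 0 ≤ L ∧ (∀ x, 0 ≤ G x) ∧ (∀ x, G x ≤ 1) ∧
      (∀ x y, |G x - G y| ≤ L * dist x y) ∧
      ∫ x, |B.indicator (fun _ => (1 : ℝ)) x - G x| ∂ρ ≤ δ := by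
  obtain ⟨K, hKB, hK, hlt⟩ := hB.exists_isClosed_diff_lt (measure_ne_top ρ B)
    (ε := ENNReal.ofReal (δ / 2)) (by simp; linarith)
  have hδn : ∀ n : ℕ, (0 : ℝ) < 1 / ((n : ℝ) + 1) := fun n => by positivity
  have hpt := thickenedIndicator_tendsto_indicator_closure hδn
    (tendsto_one_div_add_atTop_nhds_zero_nat (𝕜 := ℝ)) K
  rw [tendsto_pi_nhds, hK.closure_eq] at hpt
  have hGm : ∀ n : ℕ, Measurable fun x => ((thickenedIndicator (hδn n) K x : NNReal) : ℝ) :=
    fun n => ((NNReal.continuous_coe).comp (thickenedIndicator (hδn n) K).continuous).measurable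
  have hGb : ∀ n x, ((thickenedIndicator (hδn n) K x : NNReal) : ℝ) ≤ 1 := fun n x => by
    exact_mod_cast thickenedIndicator_le_one (hδn n) K x
  have hlim : Tendsto (fun n : ℕ => ∫ x, |K.indicator (fun _ => (1 : ℝ)) x -
      ((thickenedIndicator (hδn n) K x : NNReal) : ℝ)| ∂ρ) atTop (𝓝 0) := by
    have h := tendsto_integral_of_dominated_convergence (μ := ρ)
      (F := fun (n : ℕ) x => |K.indicator (fun _ => (1 : ℝ)) x -
        ((thickenedIndicator (hδn n) K x : NNReal) : ℝ)|) (f := fun _ => (0 : ℝ))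
      (fun _ => (2 : ℝ)) (fun n => ?_) (integrable_const _) (fun n => ?_) ?_
    · simpa using h
    · exact (((measurable_const.indicator hK.measurableSet).sub (hGm n)).norm).aestronglyMeasurable
    · refine Eventually.of_forall fun x => ?_
      rw [Real.norm_eq_abs, abs_abs]
      refine (abs_sub _ _).trans ?_
      have a1 : |K.indicator (fun _ => (1 : ℝ)) x| ≤ 1 := by
        by_cases h : x ∈ K
        · rw [Set.indicator_of_mem h]; norm_num
        · rw [Set.indicator_of_notMem h]; norm_num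
      have a2 : |((thickenedIndicator (hδn n) K x : NNReal) : ℝ)| ≤ 1 := by
        rw [abs_of_nonneg (NNReal.coe_nonneg _)]
        exact hGb n x
      linarith
    · refine Eventually.of_forall fun x => ?_
      have h2 := NNReal.tendsto_coe.2 (hpt x)
      have e : ((K.indicator (fun _ => (1 : NNReal)) x : NNReal) : ℝ) =
          K.indicator (fun _ => (1 : ℝ)) x := by
        by_cases h : x ∈ K
        · rw [Set.indicator_of_mem h, Set.indicator_of_mem h]; simp
        · rw [Set.indicator_of_notMem h, Set.indicator_of_notMem h]; simp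
      rw [e] at h2
      have h3 := (h2.const_sub (K.indicator (fun _ => (1 : ℝ)) x)).abs
      rw [sub_self, abs_zero] at h3
      exact h3
  obtain ⟨n, hn⟩ := ((tendsto_order.1 hlim).2 (δ / 2) (by positivity)).exists
  refine ⟨fun x => ((thickenedIndicator (hδn n) K x : NNReal) : ℝ), (n : ℝ) + 1, by positivity,
    fun x => NNReal.coe_nonneg _, hGb n, fun x y => ?_, ?_⟩
  · have h := (lipschitzWith_thickenedIndicator (hδn n) K).dist_le_mul x y
    rw [NNReal.dist_eq] at h
    have e : ((Real.toNNReal (1 / ((n : ℝ) + 1)))⁻¹ : NNReal) = ((n : ℝ) + 1).toNNReal := by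
      rw [one_div, Real.toNNReal_inv, inv_inv]
    rw [e] at h
    have e2 : ((((n : ℝ) + 1).toNNReal : NNReal) : ℝ) = (n : ℝ) + 1 :=
      Real.coe_toNNReal _ (by positivity)
    rw [e2] at h
    exact h
  · have mB : Measurable (B.indicator fun _ => (1 : ℝ)) := measurable_const.indicator hB
    have mK : Measurable (K.indicator fun _ => (1 : ℝ)) :=
      measurable_const.indicator hK.measurableSet
    have hind : ∀ (S : Set X) x, |S.indicator (fun _ => (1 : ℝ)) x| ≤ 1 := by
      intro S x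
      by_cases h : x ∈ S
      · rw [Set.indicator_of_mem h]; norm_num
      · rw [Set.indicator_of_notMem h]; norm_num
    have hGa : ∀ x, |((thickenedIndicator (hδn n) K x : NNReal) : ℝ)| ≤ 1 := fun x => by
      rw [abs_of_nonneg (NNReal.coe_nonneg _)]
      exact hGb n x
    have i1 : Integrable (fun x => |B.indicator (fun _ => (1 : ℝ)) x -
        K.indicator (fun _ => (1 : ℝ)) x|) ρ := by
      refine Integrable.of_bound ((mB.sub mK).norm).aestronglyMeasurable 2
        (Eventually.of_forall fun x => ?_)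
      rw [Real.norm_eq_abs, abs_abs]
      refine (abs_sub _ _).trans ?_
      linarith [hind B x, hind K x]
    have i2 : Integrable (fun x => |K.indicator (fun _ => (1 : ℝ)) x -
        ((thickenedIndicator (hδn n) K x : NNReal) : ℝ)|) ρ := by
      refine Integrable.of_bound ((mK.sub (hGm n)).norm).aestronglyMeasurable 2
        (Eventually.of_forall fun x => ?_)
      rw [Real.norm_eq_abs, abs_abs]
      refine (abs_sub _ _).trans ?_
      linarith [hGa x, hind K x]
    have i3 : Integrable (fun x => |B.indicator (fun _ => (1 : ℝ)) x -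
        ((thickenedIndicator (hδn n) K x : NNReal) : ℝ)|) ρ := by
      refine Integrable.of_bound ((mB.sub (hGm n)).norm).aestronglyMeasurable 2
        (Eventually.of_forall fun x => ?_)
      rw [Real.norm_eq_abs, abs_abs]
      refine (abs_sub _ _).trans ?_
      linarith [hGa x, hind B x]
    have e1 : ∫ x, |B.indicator (fun _ => (1 : ℝ)) x - K.indicator (fun _ => (1 : ℝ)) x| ∂ρ ≤
        δ / 2 := by
      have e2 : ∀ x, |B.indicator (fun _ => (1 : ℝ)) x - K.indicator (fun _ => (1 : ℝ)) x| =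
          (B \ K).indicator (fun _ => (1 : ℝ)) x := by
        intro x
        by_cases hk : x ∈ K
        · rw [Set.indicator_of_mem hk, Set.indicator_of_mem (hKB hk),
            Set.indicator_of_notMem (fun h => h.2 hk)]
          simp
        · by_cases hb : x ∈ B
          · rw [Set.indicator_of_notMem hk, Set.indicator_of_mem hb,
              Set.indicator_of_mem (show x ∈ B \ K from ⟨hb, hk⟩)]
            simp
          · rw [Set.indicator_of_notMem hk, Set.indicator_of_notMem hb,
              Set.indicator_of_notMem (fun h => hb h.1)]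
            simp
      simp only [e2]
      rw [integral_indicator (hB.diff hK.measurableSet)]
      simp only [integral_const, MeasurableSet.univ, measureReal_restrict_apply, Set.univ_inter,
        smul_eq_mul, mul_one]
      rw [Measure.real]
      exact ENNReal.toReal_le_of_le_ofReal (by positivity) hlt.le
    calc ∫ x, |B.indicator (fun _ => (1 : ℝ)) x -
          ((thickenedIndicator (hδn n) K x : NNReal) : ℝ)| ∂ρ
        ≤ ∫ x, (|B.indicator (fun _ => (1 : ℝ)) x - K.indicator (fun _ => (1 : ℝ)) x| +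
          |K.indicator (fun _ => (1 : ℝ)) x -
            ((thickenedIndicator (hδn n) K x : NNReal) : ℝ)|) ∂ρ :=
          integral_mono i3 (i1.add i2) fun x => abs_sub_le _ _ _
      _ = _ := integral_add i1 i2
      _ ≤ δ / 2 + δ / 2 := add_le_add e1 hn.le
      _ = δ := by ring

end Zk62.QS
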