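import Pool.Agent.Zk62.QS.Diff

/-!
Asymptotic independence of the initial part of the path and of the rescaled path.
-/

set_option autoImplicit false

namespace Zk62.QS

open H974 Finset H342P H984P H984H MeasureTheory

open Classical in
/-- The first configuration on `S`, the second one elsewhere. -/
noncomputable def glue (S : Set Edg) (p : Conf × Conf) : Conf :=
  fun e => if e ∈ S then p.1 e else p.2 e

theorem glue_meas (S : Set Edg) : Measurable (glue S) := by
  classical
  rw [measurable_pi_iff]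
  intro e
  by_cases he : e ∈ S
  · have : (fun p : Conf × Conf => glue S p e) = fun p => p.1 e := by
      funext p; simp [glue, he]
    rw [this]
    exact (measurable_pi_apply e).comp measurable_fst
  · have : (fun p : Conf × Conf => glue S p e) = fun p => p.2 e := by
      funext p; simp [glue, he]
    rw [this]
    exact (measurable_pi_apply e).comp measurable_snd

theorem glue_law (S : Set Edg) : (perc.prod perc).map (glue S) = perc := by
  classical
  unfold perc
  apply Measure.eq_infinitePi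
  intro s t ht
  rw [Measure.map_apply (glue_meas S) (MeasurableSet.pi s.countable_toSet fun i _ => ht i)]
  have e : glue S ⁻¹' (Set.pi (s : Set Edg) t) =
      (Set.pi ((s.filter (· ∈ S) : Finset Edg) : Set Edg) t) ×ˢ
        (Set.pi ((s.filter (· ∉ S) : Finset Edg) : Set Edg) t) := by
    ext p
    simp only [Set.mem_preimage, Set.mem_pi, Set.mem_prod, Finset.coe_filter, Set.mem_ofPred_eq,
      Finset.mem_coe]
    constructor
    · intro h
      refine ⟨fun i hi => ?_, fun i hi => ?_⟩
      · have := h i hi.1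
        simpa [glue, hi.2] using this
      · have := h i hi.1
        simpa [glue, hi.2] using this
    · rintro ⟨h1, h2⟩ i hi
      by_cases hS : i ∈ S
      · have := h1 i ⟨hi, hS⟩
        simpa [glue, hS] using this
      · have := h2 i ⟨hi, hS⟩
        simpa [glue, hS] using this
  rw [e, Measure.prod_prod, Measure.infinitePi_pi _ (fun i _ => ht i),
    Measure.infinitePi_pi _ (fun i _ => ht i), Finset.prod_filter_mul_prod_filter_not]

theorem glue_int (S : Set Edg) {g : Conf → ℝ} (hg : Measurable g) :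
    ∫ p, g (glue S p) ∂(perc.prod perc) = ∫ ω, g ω ∂perc := by
  rw [← glue_law S, integral_map (glue_meas S).aemeasurable hg.aestronglyMeasurable, glue_law S]

theorem glue_in {S : Set Edg} {p : Conf × Conf} {e : Edg} (he : e ∈ S) : glue S p e = p.1 e := by
  classical
  simp [glue, he]

theorem glue_out {S : Set Edg} {p : Conf × Conf} {e : Edg} (he : e ∉ S) : glue S p e = p.2 e := by
  classical
  simp [glue, he]

/-- The path leaves the box early. -/
def A1 (m : ℕ) (r : ℤ) : Set Conf := {ω | ∃ j < m, r < sd (path ω j).1 (0, 0) + 1}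

/-- An arm from the box of radius `r` to distance `R`. -/
def A2 (r R : ℕ) : Set Conf := {ω | H12S.Crs 0 0 r R (↑(cut ω R) : Set Edg)}

/-- The path is slow. -/
def A3 (N : ℕ) (R : ℤ) : Set Conf := {ω | ∀ i ≤ N, sd (path ω i).1 (0, 0) < R}

/-- The oscillation is large. -/
def A4 (n N : ℕ) (w : ℝ) : Set Conf := {ω | ¬ Osc n N w ω}

theorem A1_meas (m : ℕ) (r : ℤ) : MeasurableSet (A1 m r) := by
  have h := Perc_meas_dep m (fun p : ℕ → St => ∃ j < m, r < sd (p j).1 (0, 0) + 1) (by
    intro p p' h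
    have : ∀ j, j < m → p j = p' j := fun j hj => h j hj.le
    apply propext
    constructor
    · rintro ⟨j, hj, h1⟩
      exact ⟨j, hj, by rw [← this j hj]; exact h1⟩
    · rintro ⟨j, hj, h1⟩
      exact ⟨j, hj, by rw [this j hj]; exact h1⟩)
  exact measurableSet_setOfPred.2 h

theorem A3_meas (N : ℕ) (R : ℤ) : MeasurableSet (A3 N R) := by
  have h := Perc_meas_dep N (fun p : ℕ → St => ∀ i ≤ N, sd (p i).1 (0, 0) < R) (by
    intro p p' h
    apply propext
    constructor
    · intro h1 j hj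
      rw [← h j hj]; exact h1 j hj
    · intro h1 j hj
      rw [h j hj]; exact h1 j hj)
  exact measurableSet_setOfPred.2 h

theorem A4_meas (n N : ℕ) (w : ℝ) : MeasurableSet (A4 n N w) := by
  have h := Perc_meas_dep n (fun p : ℕ → St => ¬ ∀ i j : ℕ, j ≤ i → i ≤ n → i - j ≤ N →
      ‖place (p i) - place (p j)‖ ≤ w) (by
    intro p p' h
    apply propext
    apply not_congr
    constructor
    · intro h1 i j hji hi hN
      rw [← h i hi, ← h j (hji.trans hi)]; exact h1 i j hji hi hN
    · intro h1 i j hji hi hN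
      rw [h i hi, h j (hji.trans hi)]; exact h1 i j hji hi hN)
  exact measurableSet_setOfPred.2 h

theorem A2_meas (r R : ℕ) : MeasurableSet (A2 r R) := by
  classical
  have h := perc_cut_meas (R : ℤ) (fun F => if H12S.Crs 0 0 r R (↑F : Set Edg) then (1 : ℝ) else 0)
  have e : A2 r R = (fun ω : Conf => if H12S.Crs 0 0 r R (↑(cut ω (R : ℤ)) : Set Edg)
      then (1 : ℝ) else 0) ⁻¹' {1} := by
    ext ω
    simp only [A2, Set.mem_ofPred_eq, Set.mem_preimage, Set.mem_singleton_iff]
    constructor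
    · intro h; rw [if_pos h]
    · intro h
      by_contra hc
      rw [if_neg hc] at h
      norm_num at h
  rw [e]
  exact h (measurableSet_singleton _)

/-- The probability of an arm. -/
theorem A2_bound : ∃ a A : ℝ, 0 < a ∧ 0 < A ∧ ∀ r R : ℕ, 1 ≤ r → r ≤ R →
    perc.real (A2 r R) ≤ A * ((r : ℝ) / R) ^ a := by
  obtain ⟨κ, hκ, hW⟩ := H12S.win_half
  obtain ⟨C, c, hC, hc, harm⟩ := H12S.win_arm_of
    (fun h _ h1 h2 => fun c1 c2 S => H12S.win_blk h h1 h2 c1 c2 S) κ hκ
  refine ⟨c, C, hc, hC, ?_⟩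
  intro r R hr hrR
  unfold A2
  rw [perc_cut (R : ℤ) (fun F => H12S.Crs 0 0 r R (↑F : Set Edg))]
  exact (harm (1/2) R (hW R) r R hr hrR le_rfl 0 0 (bx R).edges).1

theorem ind_int {A : Set Conf} (hA : MeasurableSet A) :
    ∫ ω, A.indicator (fun _ => (1 : ℝ)) ω ∂perc = perc.real A := by
  rw [integral_indicator hA]
  simp

/-- Asymptotic independence, with the errors. -/
theorem mix_gen {r R n N : ℕ} {w L : ℝ} (hrR : r < R) (hL : 0 ≤ L) (hw : 0 ≤ w)
    (F : Conf → ℝ) (mF : Measurable F) {A : Set Conf} (hA1 : MeasurableSet A)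
    (hF : ∀ ω ω' : Conf, (∀ e : Edg, InB r e → ω e = ω' e) → ω ∉ A → F ω' = F ω)
    (hF1 : ∀ p, |F p| ≤ 1) (G : C(unitInterval, ℂ) → ℝ) (hG : ∀ f, |G f| ≤ 1)
    (hGL : ∀ f g, |G f - G g| ≤ L * ‖f - g‖) :
    |∫ ω, F ω * G (curve n ω) ∂perc -
      (∫ ω, F ω ∂perc) * ∫ ω, G (curve n ω) ∂perc| ≤
    2 * perc.real A + L * ((n : ℝ) ^ (-(4/7) : ℝ) * (2 * w)) +
      2 * perc.real (A2 r R) + 4 * perc.real (A3 N R) + 4 * perc.real (A4 n N w) := by
  have hGc : Continuous G := by
    rw [Metric.continuous_iff]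
    intro f ε hε
    refine ⟨ε / (L + 1), by positivity, fun g hg => ?_⟩
    rw [Real.dist_eq]
    refine (hGL g f).trans_lt ?_
    rw [dist_eq_norm] at hg
    have h1 : L * ‖g - f‖ ≤ (L + 1) * ‖g - f‖ :=
      mul_le_mul_of_nonneg_right (by linarith) (norm_nonneg _)
    have h2 : (L + 1) * ‖g - f‖ < (L + 1) * (ε / (L + 1)) :=
      mul_lt_mul_of_pos_left hg (by linarith)
    rw [mul_div_cancel₀ _ (by linarith : L + 1 ≠ 0)] at h2
    linarith
  have mG : Measurable (fun ω : Conf => G (curve n ω)) := hGc.measurable.comp (curve_meas n)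
  set S : Set Edg := {e | InB r e} with hS
  set Q := perc.prod perc with hQ
  have e1 : ∫ ω, F ω * G (curve n ω) ∂perc =
      ∫ p, F (glue S p) * G (curve n (glue S p)) ∂Q :=
    (glue_int S (mF.mul mG)).symm
  have e2 : (∫ ω, F ω ∂perc) * ∫ ω, G (curve n ω) ∂perc =
      ∫ p, F p.1 * G (curve n p.2) ∂Q :=
    (integral_prod_mul (F) (fun ω => G (curve n ω))).symm
  have b1 : ∀ p : Conf × Conf, |F (glue S p) * G (curve n (glue S p))| ≤ 1 := by
    intro p
    rw [abs_mul]
    exact mul_le_one₀ (hF1 _) (abs_nonneg _) (hG _)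
  have b2 : ∀ p : Conf × Conf, |F p.1 * G (curve n p.2)| ≤ 1 := by
    intro p
    rw [abs_mul]
    exact mul_le_one₀ (hF1 _) (abs_nonneg _) (hG _)
  have m1 : Measurable fun p : Conf × Conf => F (glue S p) * G (curve n (glue S p)) :=
    (mF.mul mG).comp (glue_meas S)
  have m2 : Measurable fun p : Conf × Conf => F p.1 * G (curve n p.2) :=
    (mF.comp measurable_fst).mul (mG.comp measurable_snd)
  have i1 : Integrable (fun p : Conf × Conf => F (glue S p) * G (curve n (glue S p))) Q :=
    Integrable.of_bound m1.aestronglyMeasurable 1 (Filter.Eventually.of_forall b1)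
  have i2 : Integrable (fun p : Conf × Conf => F p.1 * G (curve n p.2)) Q :=
    Integrable.of_bound m2.aestronglyMeasurable 1 (Filter.Eventually.of_forall b2)
  rw [e1, e2, ← integral_sub i1 i2]
  -- indicator functions
  have hind : ∀ {A : Set Conf}, MeasurableSet A →
      Measurable (A.indicator (fun _ => (1 : ℝ))) := fun hA => measurable_const.indicator hA
  have hpos : ∀ (A : Set Conf) (ω : Conf), 0 ≤ A.indicator (fun _ => (1 : ℝ)) ω := fun A ω =>
    Set.indicator_nonneg (fun _ _ => zero_le_one) ω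
  have hle1 : ∀ (A : Set Conf) (ω : Conf), |A.indicator (fun _ => (1 : ℝ)) ω| ≤ 1 := by
    intro A ω
    by_cases h : ω ∈ A
    · rw [Set.indicator_of_mem h]; norm_num
    · rw [Set.indicator_of_notMem h]; norm_num
  set I1 := A.indicator (fun _ => (1 : ℝ)) with hI1
  set I2 := (A2 r R).indicator (fun _ => (1 : ℝ)) with hI2
  set I3 := (A3 N R).indicator (fun _ => (1 : ℝ)) with hI3
  set I4 := (A4 n N w).indicator (fun _ => (1 : ℝ)) with hI4
  set δ := L * ((n : ℝ) ^ (-(4/7) : ℝ) * (2 * w)) with hδ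
  have hδ0 : 0 ≤ δ := by positivity
  have hbound : ∀ p : Conf × Conf,
      |F (glue S p) * G (curve n (glue S p)) - F p.1 * G (curve n p.2)| ≤
        2 * I1 p.1 + δ + 2 * I2 (glue S p) + 2 * (I3 (glue S p) + I3 p.2) +
          2 * (I4 (glue S p) + I4 p.2) := by
    intro p
    have hc2 : |F (glue S p) * G (curve n (glue S p)) - F p.1 * G (curve n p.2)| ≤ 2 := by
      refine (abs_sub _ _).trans ?_
      linarith [b1 p, b2 p]
    have q1 := hpos A p.1
    have q2 := hpos (A2 r R) (glue S p)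
    have q3 := hpos (A3 N R) (glue S p)
    have q3' := hpos (A3 N R) p.2
    have q4 := hpos (A4 n N w) (glue S p)
    have q4' := hpos (A4 n N w) p.2
    rw [← hI1] at q1
    rw [← hI2] at q2
    rw [← hI3] at q3 q3'
    rw [← hI4] at q4 q4'
    by_cases g1 : p.1 ∈ A
    · have : I1 p.1 = 1 := Set.indicator_of_mem g1 _
      linarith
    by_cases g2 : glue S p ∈ A2 r R
    · have : I2 (glue S p) = 1 := Set.indicator_of_mem g2 _
      linarith
    by_cases g3 : glue S p ∈ A3 N R
    · have : I3 (glue S p) = 1 := Set.indicator_of_mem g3 _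
      linarith
    by_cases g3' : p.2 ∈ A3 N R
    · have : I3 p.2 = 1 := Set.indicator_of_mem g3' _
      linarith
    by_cases g4 : glue S p ∈ A4 n N w
    · have : I4 (glue S p) = 1 := Set.indicator_of_mem g4 _
      linarith
    by_cases g4' : p.2 ∈ A4 n N w
    · have : I4 p.2 = 1 := Set.indicator_of_mem g4' _
      linarith
    -- the good case
    have hpath : F (glue S p) = F p.1 :=
      hF p.1 (glue S p) (fun e he => (glue_in he).symm) g1
    have hagr : Agr r (glue S p) p.2 := fun e he => glue_out he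
    have hSS : ∀ v ∈ Ret_S (glue S p) r, sd v (0, 0) < R := by
      intro v hv
      by_contra hcon
      exact g2 (Ret_arm (glue S p) hrR hv (not_lt.1 hcon))
    have hN : ∃ i ≤ N, (R : ℤ) ≤ sd (path (glue S p) i).1 (0, 0) := by
      by_contra hcon
      push Not at hcon
      exact g3 hcon
    have hN' : ∃ i ≤ N, (R : ℤ) ≤ sd (path p.2 i).1 (0, 0) := by
      by_contra hcon
      push Not at hcon
      exact g3' hcon
    have hO : Osc n N w (glue S p) := not_not.1 g4
    have hO' : Osc n N w p.2 := not_not.1 g4'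
    have hcl := curve_close (r := (r : ℤ)) (R := (R : ℤ)) (by omega) (by exact_mod_cast hrR)
      hagr hSS hN hN' hO hO'
    rw [hpath, ← mul_sub, abs_mul]
    have h5 : |F p.1| * |G (curve n (glue S p)) - G (curve n p.2)| ≤ 1 * δ := by
      apply mul_le_mul (hF1 _) _ (abs_nonneg _) zero_le_one
      refine (hGL _ _).trans ?_
      rw [hδ]
      exact mul_le_mul_of_nonneg_left hcl hL
    linarith
  have iI : ∀ (A : Set Conf) (hA : MeasurableSet A) (φ : Conf × Conf → Conf), Measurable φ →
      Integrable (fun p => A.indicator (fun _ => (1 : ℝ)) (φ p)) Q := by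
    intro A hA φ hφ
    exact Integrable.of_bound ((hind hA).comp hφ).aestronglyMeasurable 1
      (Filter.Eventually.of_forall fun p => hle1 A (φ p))
  have vg : ∀ (A : Set Conf) (_ : MeasurableSet A),
      ∫ p, A.indicator (fun _ => (1 : ℝ)) (glue S p) ∂Q = perc.real A := by
    intro A hA
    rw [glue_int S (hind hA), ind_int hA]
  have v1 : ∀ (A : Set Conf) (_ : MeasurableSet A),
      ∫ p : Conf × Conf, A.indicator (fun _ => (1 : ℝ)) p.1 ∂Q = perc.real A := by
    intro A hA
    have h := integral_prod_mul (μ := perc) (ν := perc) (A.indicator (fun _ => (1 : ℝ)))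
      (fun _ => (1 : ℝ))
    simp only [mul_one] at h
    rw [h, ind_int hA]
    simp
  have v2 : ∀ (A : Set Conf) (_ : MeasurableSet A),
      ∫ p : Conf × Conf, A.indicator (fun _ => (1 : ℝ)) p.2 ∂Q = perc.real A := by
    intro A hA
    have h := integral_prod_mul (μ := perc) (ν := perc) (fun _ => (1 : ℝ))
      (A.indicator (fun _ => (1 : ℝ)))
    simp only [one_mul] at h
    rw [h, ind_int hA]
    simp
  have hA2 := A2_meas r R
  have hA3 := A3_meas N R
  have hA4 := A4_meas n N w
  have j1 := (iI _ hA1 _ measurable_fst).const_mul 2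
  have j2 := (iI _ hA2 _ (glue_meas S)).const_mul 2
  have j3 := (iI _ hA3 _ (glue_meas S))
  have j3' := (iI _ hA3 _ measurable_snd)
  have j4 := (iI _ hA4 _ (glue_meas S))
  have j4' := (iI _ hA4 _ measurable_snd)
  have jc : Integrable (fun _ : Conf × Conf => δ) Q := integrable_const _
  have u1 : Integrable (fun p : Conf × Conf => 2 * I1 p.1) Q := j1
  have u2 : Integrable (fun p : Conf × Conf => 2 * I2 (glue S p)) Q := j2
  have u3 : Integrable (fun p : Conf × Conf => 2 * (I3 (glue S p) + I3 p.2)) Q :=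
    (j3.add j3').const_mul 2
  have u4 : Integrable (fun p : Conf × Conf => 2 * (I4 (glue S p) + I4 p.2)) Q :=
    (j4.add j4').const_mul 2
  have s1 : Integrable (fun p : Conf × Conf => 2 * I1 p.1 + δ) Q := u1.add jc
  have s2 : Integrable (fun p : Conf × Conf => 2 * I1 p.1 + δ + 2 * I2 (glue S p)) Q := s1.add u2
  have s3 : Integrable (fun p : Conf × Conf => 2 * I1 p.1 + δ + 2 * I2 (glue S p) +
      2 * (I3 (glue S p) + I3 p.2)) Q := s2.add u3
  have jt : Integrable (fun p : Conf × Conf => 2 * I1 p.1 + δ + 2 * I2 (glue S p) +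
      2 * (I3 (glue S p) + I3 p.2) + 2 * (I4 (glue S p) + I4 p.2)) Q := s3.add u4
  have w3 : ∫ p, (I3 (glue S p) + I3 p.2) ∂Q = perc.real (A3 N R) + perc.real (A3 N R) := by
    rw [integral_add j3 j3', vg _ hA3, v2 _ hA3]
  have w4 : ∫ p, (I4 (glue S p) + I4 p.2) ∂Q = perc.real (A4 n N w) + perc.real (A4 n N w) := by
    rw [integral_add j4 j4', vg _ hA4, v2 _ hA4]
  have w1 : ∫ p : Conf × Conf, I1 p.1 ∂Q = perc.real A := v1 _ hA1
  have w2 : ∫ p : Conf × Conf, I2 (glue S p) ∂Q = perc.real (A2 r R) := vg _ hA2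
  have wc : ∫ _p : Conf × Conf, δ ∂Q = δ := by
    rw [integral_const, probReal_univ, one_smul]
  have x1 : ∫ p : Conf × Conf, 2 * I1 p.1 ∂Q = 2 * perc.real A := by
    rw [integral_const_mul, w1]
  have x2 : ∫ p : Conf × Conf, 2 * I2 (glue S p) ∂Q = 2 * perc.real (A2 r R) := by
    rw [integral_const_mul, w2]
  have x3 : ∫ p : Conf × Conf, 2 * (I3 (glue S p) + I3 p.2) ∂Q =
      2 * (perc.real (A3 N R) + perc.real (A3 N R)) := by
    rw [integral_const_mul, w3]
  have x4 : ∫ p : Conf × Conf, 2 * (I4 (glue S p) + I4 p.2) ∂Q =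
      2 * (perc.real (A4 n N w) + perc.real (A4 n N w)) := by
    rw [integral_const_mul, w4]
  calc |∫ p, (F (glue S p) * G (curve n (glue S p)) - F p.1 * G (curve n p.2)) ∂Q|
      ≤ ∫ p, |F (glue S p) * G (curve n (glue S p)) - F p.1 * G (curve n p.2)| ∂Q :=
        abs_integral_le_integral_abs
    _ ≤ ∫ p, (2 * I1 p.1 + δ + 2 * I2 (glue S p) + 2 * (I3 (glue S p) + I3 p.2) +
          2 * (I4 (glue S p) + I4 p.2)) ∂Q :=
        integral_mono (i1.sub i2).abs jt hbound
    _ = 2 * perc.real A + δ + 2 * perc.real (A2 r R) +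
          2 * (perc.real (A3 N R) + perc.real (A3 N R)) +
          2 * (perc.real (A4 n N w) + perc.real (A4 n N w)) := by
        rw [integral_add s3 u4, integral_add s2 u3, integral_add s1 u2, integral_add u1 jc,
          x1, x2, x3, x4, wc]
    _ = _ := by ring

/-- Asymptotic independence, with the errors, for the initial part of the path. -/
theorem mix {r R m n N : ℕ} {w L : ℝ} (hrR : r < R) (hL : 0 ≤ L) (hw : 0 ≤ w)
    (F : (ℕ → St) → ℝ) (hF : ∀ p p' : ℕ → St, (∀ k ≤ m, p k = p' k) → F p = F p')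
    (hF1 : ∀ p, |F p| ≤ 1) (G : C(unitInterval, ℂ) → ℝ) (hG : ∀ f, |G f| ≤ 1)
    (hGL : ∀ f g, |G f - G g| ≤ L * ‖f - g‖) :
    |∫ ω, F (path ω) * G (curve n ω) ∂perc -
      (∫ ω, F (path ω) ∂perc) * ∫ ω, G (curve n ω) ∂perc| ≤
    2 * perc.real (A1 m r) + L * ((n : ℝ) ^ (-(4/7) : ℝ) * (2 * w)) +
      2 * perc.real (A2 r R) + 4 * perc.real (A3 N R) + 4 * perc.real (A4 n N w) := by
  refine mix_gen hrR hL hw (fun ω => F (path ω)) (Perc_meas_dep m F hF) (A1_meas m r)
    (fun ω ω' h hω => ?_) (fun ω => hF1 _) G hG hGL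
  apply hF
  intro k hk
  symm
  refine path_inside (r := (r : ℤ)) (ω := ω) (ω' := ω') h (m := m) (fun j hj => ?_) hk
  by_contra hcon
  exact hω ⟨j, hj, by omega⟩

end Zk62.QS
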