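import Pool.Agent.Zk62.QS.Inst
import Pool.Agent.Zk62.LS.Random

/-!
One sample at a random scale.
-/

set_option autoImplicit false

namespace Zk62.QS

open H974 Finset H342P H984P H984H MeasureTheory Filter Topology TopologicalSpace

/-- The weights. -/
noncomputable def lw' (k : ℕ) : ℝ := Real.log ((k : ℝ) + 2) - Real.log ((k : ℝ) + 1)

theorem lw'_nonneg (k : ℕ) : 0 ≤ lw' k := by
  unfold lw'
  have : Real.log ((k : ℝ) + 1) ≤ Real.log ((k : ℝ) + 2) :=
    Real.log_le_log (by positivity) (by linarith)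
  linarith

theorem lw'_le (k : ℕ) : lw' k ≤ 1 / ((k : ℝ) + 1) := by
  unfold lw'
  have hk : (0 : ℝ) < (k : ℝ) + 1 := by positivity
  rw [← Real.log_div (by positivity) hk.ne']
  have h1 := Real.log_le_sub_one_of_pos (x := ((k : ℝ) + 2) / ((k : ℝ) + 1)) (by positivity)
  refine h1.trans (le_of_eq ?_)
  field_simp
  ring

theorem lw'_sum (K : ℕ) : ∑ k ∈ range K, lw' k = Real.log ((K : ℝ) + 1) := by
  induction K with
  | zero => simp
  | succ K ih =>
    rw [Finset.sum_range_succ, ih]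
    unfold lw'
    push_cast
    have : (K : ℝ) + 1 + 1 = (K : ℝ) + 2 := by ring
    rw [this]
    ring

theorem scale_sum {g : ℕ → ℝ} {M : ℝ} (hM : ∀ n, |g n| ≤ M) {K : ℕ} (hK : 1 ≤ K) :
    ∫ u in (0 : ℝ)..1, g ⌊((K : ℝ) + 1) ^ u⌋₊ =
      (∑ k ∈ range K, lw' k * g (k + 1)) / ∑ k ∈ range K, lw' k := by
  have hN1 : (1 : ℝ) < (K : ℝ) + 1 := by
    have : (1 : ℝ) ≤ K := by exact_mod_cast hK
    linarith
  have hN0 : (0 : ℝ) < (K : ℝ) + 1 := by linarith
  have hlog : 0 < Real.log ((K : ℝ) + 1) := Real.log_pos hN1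
  set a : ℕ → ℝ := fun k => Real.log ((k : ℝ) + 1) / Real.log ((K : ℝ) + 1) with ha
  have ha0 : a 0 = 0 := by simp [ha]
  have haK : a K = 1 := by simp only [ha]; exact div_self hlog.ne'
  have hle : ∀ k, a k ≤ a (k + 1) := by
    intro k
    simp only [ha]
    apply div_le_div_of_nonneg_right _ hlog.le
    apply Real.log_le_log (by positivity)
    push_cast
    linarith
  have hmeas : Measurable fun u : ℝ => g ⌊((K : ℝ) + 1) ^ u⌋₊ :=
    measurable_from_nat.comp (Nat.measurable_floor.comp (measurable_const.pow measurable_id))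
  have hint : ∀ x y : ℝ, IntervalIntegrable (fun u : ℝ => g ⌊((K : ℝ) + 1) ^ u⌋₊) volume x y := by
    intro x y
    rw [intervalIntegrable_iff]
    have : IsFiniteMeasure (volume.restrict (Set.uIoc x y)) := ⟨by
      rw [Measure.restrict_apply_univ, Set.uIoc, Real.volume_Ioc]
      exact ENNReal.ofReal_lt_top⟩
    exact Integrable.of_bound hmeas.aestronglyMeasurable M
      (Eventually.of_forall fun u => by rw [Real.norm_eq_abs]; exact hM _)
  have hs := intervalIntegral.sum_integral_adjacent_intervals (f := fun u : ℝ =>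
    g ⌊((K : ℝ) + 1) ^ u⌋₊) (μ := volume) (a := a) (n := K) fun k _ => hint _ _
  rw [ha0, haK] at hs
  rw [← hs, lw'_sum, Finset.sum_div]
  refine Finset.sum_congr rfl fun k _ => ?_
  have hconst : ∫ u in a k..a (k + 1), g ⌊((K : ℝ) + 1) ^ u⌋₊ =
      ∫ _u in a k..a (k + 1), g (k + 1) := by
    rw [intervalIntegral.integral_of_le (hle k), intervalIntegral.integral_of_le (hle k),
      integral_Ioc_eq_integral_Ioo, integral_Ioc_eq_integral_Ioo]
    refine setIntegral_congr_fun measurableSet_Ioo fun u hu => ?_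
    have h1 : (k : ℝ) + 1 ≤ ((K : ℝ) + 1) ^ u := by
      have h2 : Real.log ((k : ℝ) + 1) < u * Real.log ((K : ℝ) + 1) := (div_lt_iff₀ hlog).1 hu.1
      rw [← Real.log_rpow hN0] at h2
      exact ((Real.log_lt_log_iff (by positivity) (by positivity)).1 h2).le
    have h3 : ((K : ℝ) + 1) ^ u < (k : ℝ) + 2 := by
      have h2 : u * Real.log ((K : ℝ) + 1) < Real.log (((k + 1 : ℕ) : ℝ) + 1) :=
        (lt_div_iff₀ hlog).1 hu.2
      rw [← Real.log_rpow hN0] at h2
      have h4 := (Real.log_lt_log_iff (by positivity) (by positivity)).1 h2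
      push_cast at h4
      linarith
    have h5 : ⌊((K : ℝ) + 1) ^ u⌋₊ = k + 1 := by
      rw [Nat.floor_eq_iff (by positivity)]
      push_cast
      exact ⟨h1, by linarith⟩
    show g ⌊((K : ℝ) + 1) ^ u⌋₊ = g (k + 1)
    rw [h5]
  rw [hconst, intervalIntegral.integral_const, smul_eq_mul]
  simp only [ha]
  unfold lw'
  push_cast
  have : (k : ℝ) + 1 + 1 = (k : ℝ) + 2 := by ring
  rw [this]
  ring

/-- One sample at a random scale. -/
theorem quench : ∀ᵐ ω ∂perc, ∀ F : BoundedContinuousFunction C(unitInterval, ℂ) ℝ,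
    Tendsto (fun N : ℕ => (∫ u in (0 : ℝ)..1, F (curve ⌊(N : ℝ) ^ u⌋₊ ω)) -
      ∫ f, F f ∂(LS.rl perc curve_meas (N : ℝ) : Measure C(unitInterval, ℂ))) atTop (𝓝 0) := by
  have h := one_sample (n := fun k => k + 1) (w := lw') (fun k => by omega)
    (fun a b h => by simpa using h) lw'_nonneg (fun k => by
      refine (lw'_le k).trans ?_
      rw [div_le_one (by positivity)]
      linarith [Nat.cast_nonneg (α := ℝ) k]) (by
      simp only [lw'_sum]
      exact Real.tendsto_log_atTop.comp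
        (tendsto_atTop_add_const_right _ _ tendsto_natCast_atTop_atTop))
    (fun c hc => log_weights lw'_nonneg lw'_le hc)
  filter_upwards [h] with ω hω F
  have hb : ∀ f, |F f| ≤ ‖F‖ := fun f => by
    have := F.norm_coe_le_norm f
    rwa [Real.norm_eq_abs] at this
  have hb2 : ∀ n : ℕ, |∫ f, F f ∂(lawH n : Measure C(unitInterval, ℂ))| ≤ ‖F‖ := by
    intro n
    have := norm_integral_le_of_norm_le_const (μ := (lawH n : Measure C(unitInterval, ℂ)))
      (f := F) (C := ‖F‖) (Eventually.of_forall fun f => by rw [Real.norm_eq_abs]; exact hb _)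
    simpa using this
  rw [← tendsto_add_atTop_iff_nat 1]
  refine (hω F).congr' ?_
  filter_upwards [eventually_ge_atTop 1] with K hK
  have e1 := scale_sum (g := fun n => F (curve n ω)) (fun n => hb _) hK
  have e2 := scale_sum (g := fun n => ∫ f, F f ∂(lawH n : Measure C(unitInterval, ℂ))) hb2 hK
  have e3 : ∫ f, F f ∂(LS.rl perc curve_meas ((K + 1 : ℕ) : ℝ) : Measure C(unitInterval, ℂ)) =
      ∫ u in (0 : ℝ)..1, ∫ f, F f ∂(lawH ⌊((K : ℝ) + 1) ^ u⌋₊ : Measure C(unitInterval, ℂ)) := by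
    have := LS.rl_int (P := perc) curve_meas ((K + 1 : ℕ) : ℝ) F
    rw [this]
    push_cast
    rfl
  rw [e3, e2]
  push_cast
  rw [e1, ← sub_div, ← Finset.sum_sub_distrib]
  congr 1
  exact Finset.sum_congr rfl fun k _ => mul_sub _ _ _

/-- Limits of one sample at random scales are exactly self-similar. -/
theorem quench_selfsimilar : ∀ᵐ ω ∂perc, ∀ (N : ℕ → ℕ) (ν : ProbabilityMeasure C(unitInterval, ℂ)),
    Tendsto N atTop atTop → (∀ F : BoundedContinuousFunction C(unitInterval, ℂ) ℝ,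
      Tendsto (fun i => ∫ u in (0 : ℝ)..1, F (curve ⌊(N i : ℝ) ^ u⌋₊ ω)) atTop
        (𝓝 (∫ f, F f ∂(ν : Measure C(unitInterval, ℂ))))) →
      ∀ l : ℝ, 0 < l → l ≤ 1 → LS.S (4/7) l ν = ν := by
  filter_upwards [quench] with ω hω N ν hN hν l h0 h1
  refine LS.rl_selfsimilar LS.scaling (T := fun i => (N i : ℝ))
    (tendsto_natCast_atTop_atTop.comp hN) ?_ h0 h1
  rw [ProbabilityMeasure.tendsto_iff_forall_integral_tendsto]
  intro F
  have h2 := (hν F).sub ((hω F).comp hN)
  rw [sub_zero] at h2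
  refine h2.congr fun i => ?_
  show _ - (_ - _) = _
  ring

end Zk62.QS
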