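import Pool.Agent.Zk62.QS.Mix
import Pool.Agent.Zk62.LS.Perc
import Pool.Agent.H984R4.HN.TailLow
import Pool.Agent.H984R4.HN.TailUp

/-!
Asymptotic independence with a rate.
-/

set_option autoImplicit false

namespace Zk62.QS

open H974 Finset H342P H984P H984H MeasureTheory

theorem expo {l : ℝ} (hl : 0 < l) (k : ℕ) : ∃ C : ℝ, 0 < C ∧ ∀ s : ℝ, 0 < s → s ≤ 1 →
    Real.exp (-(l / s)) ≤ C * s ^ k := by
  refine ⟨k.factorial / l ^ k, by positivity, fun s hs hs1 => ?_⟩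
  have h1 := Real.pow_div_factorial_le_exp (l / s) (by positivity) k
  rw [Real.exp_neg]
  have hpos : 0 < (l / s) ^ k / k.factorial := by positivity
  refine (inv_anti₀ hpos h1).trans (le_of_eq ?_)
  rw [inv_div, div_pow]
  field_simp

/-- The event `A1`. -/
theorem A1_rate : ∃ C s0 : ℝ, 0 < C ∧ 0 < s0 ∧ ∀ (n m : ℕ) (s : ℝ), 1 ≤ m → 1 ≤ n → 0 < s →
    s ≤ s0 → (m : ℝ) ≤ n * s ^ 112 → 1 ≤ (n : ℝ) ^ (4/7 : ℝ) * s ^ 48 →
    perc.real (A1 m (⌈(n : ℝ) ^ (4/7 : ℝ) * s ^ 48⌉₊ : ℕ)) ≤ C * s := by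
  obtain ⟨⟨c, hc, hL⟩, ⟨C, hC, hU⟩, -⟩ := LS.inputs
  obtain ⟨a, A, ha, hA, htail⟩ := tail_up hc hC hL hU
  obtain ⟨B, hB, hdec⟩ := Mom_decay ha 1
  refine ⟨A * B * 2, 1/2, by positivity, by norm_num, ?_⟩
  intro n m s hm hn hs hs0 hmn hu
  set u : ℝ := (n : ℝ) ^ (4/7 : ℝ) with hudef
  have hm0 : (0 : ℝ) < m := by exact_mod_cast hm
  have hn0 : (0 : ℝ) < n := by exact_mod_cast hn
  set r : ℕ := ⌈u * s ^ 48⌉₊ with hr
  have hr1 : u * s ^ 48 ≤ r := Nat.le_ceil _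
  have hmu : (m : ℝ) ^ (4/7 : ℝ) ≤ u * s ^ 64 := by
    have h1 := Real.rpow_le_rpow hm0.le hmn (show (0:ℝ) ≤ 4/7 by norm_num)
    rw [Real.mul_rpow hn0.le (by positivity), ← Real.rpow_natCast s 112,
      ← Real.rpow_mul hs.le] at h1
    have e : ((112 : ℕ) : ℝ) * (4/7) = ((64 : ℕ) : ℝ) := by norm_num
    rw [e, Real.rpow_natCast] at h1
    exact h1
  set x : ℝ := 1 / (2 * s ^ 16) with hx
  have hs16 : s ^ 16 ≤ s := by
    calc s ^ 16 ≤ s ^ 1 := pow_le_pow_of_le_one hs.le (by linarith) (by norm_num)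
      _ = s := pow_one s
  have hx1 : 1 / (2 * s) ≤ x := by
    rw [hx]
    exact one_div_le_one_div_of_le (by positivity) (by linarith)
  have hx2 : 1 ≤ x := by
    refine le_trans ?_ hx1
    rw [le_div_iff₀ (by positivity)]
    linarith
  have hx0 : 0 < x := by linarith
  have hsub : A1 m r ⊆ {ω : Conf | x * (m : ℝ) ^ (4/7 : ℝ) ≤ reach m ω} := by
    rintro ω ⟨j, hj, hj2⟩
    have h1 : ((r : ℕ) : ℤ) ≤ sd (path ω j).1 (0, 0) := by omega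
    have h2 := le_norm_place (path ω j)
    have h3 : ((r : ℕ) : ℝ) ≤ ((sd (path ω j).1 (0, 0) : ℤ) : ℝ) := by exact_mod_cast h1
    have h4 : ‖gam ω j‖ ≤ reach m ω :=
      (norm_gam_le j ω).trans (reach_mono ω hj.le)
    have h5 : ‖gam ω j‖ = ‖place (path ω j)‖ := rfl
    have h6 : x * (m : ℝ) ^ (4/7 : ℝ) ≤ u * s ^ 48 / 2 := by
      calc x * (m : ℝ) ^ (4/7 : ℝ) ≤ x * (u * s ^ 64) := mul_le_mul_of_nonneg_left hmu hx0.le
        _ = u * s ^ 48 / 2 := by rw [hx]; field_simp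
    show x * (m : ℝ) ^ (4/7 : ℝ) ≤ reach m ω
    linarith
  have h7 : Real.exp (-(a * x ^ (1/2 : ℝ))) ≤ B * (2 * s) := by
    refine (hdec x hx2).trans ?_
    apply mul_le_mul_of_nonneg_left _ hB.le
    rw [Real.rpow_neg_one]
    rw [inv_le_comm₀ hx0 (by positivity)]
    rw [← one_div]
    exact hx1
  calc perc.real (A1 m (r : ℕ)) ≤ perc.real {ω : Conf | x * (m : ℝ) ^ (4/7 : ℝ) ≤ reach m ω} :=
        measureReal_mono hsub
    _ ≤ A * Real.exp (-(a * x ^ (1/2 : ℝ))) := htail m x hm hx0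
    _ ≤ A * (B * (2 * s)) := mul_le_mul_of_nonneg_left h7 hA.le
    _ = A * B * 2 * s := by ring

/-- The event `A2`. -/
theorem A2_rate : ∃ C a s0 : ℝ, 0 < C ∧ 0 < a ∧ 0 < s0 ∧ ∀ (n : ℕ) (s : ℝ), 0 < s →
    s ≤ s0 → 1 ≤ (n : ℝ) ^ (4/7 : ℝ) * s ^ 48 →
    ⌈(n : ℝ) ^ (4/7 : ℝ) * s ^ 48⌉₊ < ⌊(n : ℝ) ^ (4/7 : ℝ) * s ^ 16⌋₊ ∧
    perc.real (A2 ⌈(n : ℝ) ^ (4/7 : ℝ) * s ^ 48⌉₊ ⌊(n : ℝ) ^ (4/7 : ℝ) * s ^ 16⌋₊) ≤
      C * s ^ a := by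
  obtain ⟨a, A, ha, hA, h⟩ := A2_bound
  refine ⟨A * 4 ^ a, a, 1/4, by positivity, ha, by norm_num, ?_⟩
  intro n s hs hs0 hu
  set u : ℝ := (n : ℝ) ^ (4/7 : ℝ) with hudef
  have hu0 : 0 < u := by
    by_contra hcon
    have : u * s ^ 48 ≤ 0 := mul_nonpos_of_nonpos_of_nonneg (not_lt.1 hcon) (by positivity)
    linarith
  have hs1 : s ≤ 1 := by linarith
  have hs32 : s ^ 32 ≤ s / 16 := by
    calc s ^ 32 ≤ s ^ 3 := pow_le_pow_of_le_one hs.le hs1 (by norm_num)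
      _ = s * (s * s) := by ring
      _ ≤ s * (1/4 * (1/4)) := by gcongr
      _ = s / 16 := by ring
  have e1 : u * s ^ 48 = (u * s ^ 16) * s ^ 32 := by ring
  have hv : 16 ≤ u * s ^ 16 := by
    have h1 : 0 < u * s ^ 16 := by positivity
    have h2 : (u * s ^ 16) * s ^ 32 ≤ (u * s ^ 16) * (1/16) := by
      apply mul_le_mul_of_nonneg_left _ h1.le
      linarith
    rw [e1] at hu
    linarith
  have hr2 : (⌈u * s ^ 48⌉₊ : ℝ) < u * s ^ 48 + 1 := Nat.ceil_lt_add_one (by positivity)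
  have hR1 : u * s ^ 16 < (⌊u * s ^ 16⌋₊ : ℝ) + 1 := Nat.lt_floor_add_one _
  have hr3 : (⌈u * s ^ 48⌉₊ : ℝ) ≤ 2 * (u * s ^ 48) := by linarith
  have hR2 : u * s ^ 16 / 2 ≤ (⌊u * s ^ 16⌋₊ : ℝ) := by linarith
  have hrR : (⌈u * s ^ 48⌉₊ : ℝ) < (⌊u * s ^ 16⌋₊ : ℝ) := by
    have h3 : u * s ^ 48 ≤ (u * s ^ 16) * (1/16) := by
      rw [e1]
      apply mul_le_mul_of_nonneg_left _ (by positivity)
      linarith
    linarith
  have hrR' : ⌈u * s ^ 48⌉₊ < ⌊u * s ^ 16⌋₊ := by exact_mod_cast hrR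
  refine ⟨hrR', ?_⟩
  have hr1 : 1 ≤ ⌈u * s ^ 48⌉₊ := Nat.one_le_ceil_iff.2 (by positivity)
  refine (h _ _ hr1 hrR'.le).trans ?_
  rw [mul_assoc]
  apply mul_le_mul_of_nonneg_left _ hA.le
  rw [← Real.mul_rpow (by norm_num) hs.le]
  apply Real.rpow_le_rpow (by positivity) _ ha.le
  have hR0 : (0 : ℝ) < (⌊u * s ^ 16⌋₊ : ℝ) := by linarith
  rw [div_le_iff₀ hR0]
  have h4 : u * s ^ 48 ≤ (u * s ^ 16) * s := by
    rw [e1]
    apply mul_le_mul_of_nonneg_left _ (by positivity)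
    linarith
  calc (⌈u * s ^ 48⌉₊ : ℝ) ≤ 2 * (u * s ^ 48) := hr3
    _ ≤ 2 * ((u * s ^ 16) * s) := by linarith
    _ = 4 * s * (u * s ^ 16 / 2) := by ring
    _ ≤ 4 * s * (⌊u * s ^ 16⌋₊ : ℝ) := mul_le_mul_of_nonneg_left hR2 (by positivity)

/-- The event `A3`. -/
theorem A3_rate : ∃ C : ℝ, 0 < C ∧ ∀ (n : ℕ) (s : ℝ), 1 ≤ n → 0 < s →
    s ≤ 1 →
    perc.real (A3 ⌈(n : ℝ) * s ^ 14⌉₊ (⌊(n : ℝ) ^ (4/7 : ℝ) * s ^ 16⌋₊ : ℕ)) ≤ C * s := by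
  obtain ⟨-, ⟨C, hC, hU⟩, -⟩ := LS.inputs
  obtain ⟨A, hA, htail⟩ := tail_low hC hU
  refine ⟨A * 2 ^ (7/4 : ℝ), by positivity, ?_⟩
  intro n s hn hs hs1
  set u : ℝ := (n : ℝ) ^ (4/7 : ℝ) with hudef
  have hn0 : (0 : ℝ) < n := by exact_mod_cast hn
  have hu0 : 0 < u := Real.rpow_pos_of_pos hn0 _
  set N : ℕ := ⌈(n : ℝ) * s ^ 14⌉₊ with hN
  set R : ℕ := ⌊u * s ^ 16⌋₊ with hR
  have hN1 : (n : ℝ) * s ^ 14 ≤ N := Nat.le_ceil _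
  have hN2 : 1 ≤ N := Nat.one_le_ceil_iff.2 (by positivity)
  have hR1 : (R : ℝ) ≤ u * s ^ 16 := Nat.floor_le (by positivity)
  have hNu : u * s ^ 8 ≤ (N : ℝ) ^ (4/7 : ℝ) := by
    have h1 := Real.rpow_le_rpow (by positivity) hN1 (show (0:ℝ) ≤ 4/7 by norm_num)
    rw [Real.mul_rpow hn0.le (by positivity), ← Real.rpow_natCast s 14,
      ← Real.rpow_mul hs.le] at h1
    have e : ((14 : ℕ) : ℝ) * (4/7) = ((8 : ℕ) : ℝ) := by norm_num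
    rw [e, Real.rpow_natCast] at h1
    exact h1
  have hsub : A3 N (R : ℕ) ⊆ {ω : Conf | reach N ω ≤ (2 * s ^ 8) * (N : ℝ) ^ (4/7 : ℝ)} := by
    intro ω hω
    obtain ⟨k, hk, hk2⟩ := Disp_exists_reach ω N
    have h1 := hω k hk
    have h2 := norm_place_le (path ω k)
    have h3 : ((sd (path ω k).1 (0, 0) : ℤ) : ℝ) ≤ (R : ℝ) - 1 := by
      have : sd (path ω k).1 (0, 0) ≤ (R : ℤ) - 1 := by omega
      exact_mod_cast this
    have h4 : ‖gam ω k‖ = ‖place (path ω k)‖ := rfl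
    show reach N ω ≤ _
    have h5 : (2 * s ^ 8) * (u * s ^ 8) ≤ (2 * s ^ 8) * (N : ℝ) ^ (4/7 : ℝ) :=
      mul_le_mul_of_nonneg_left hNu (by positivity)
    have h6 : (2 * s ^ 8) * (u * s ^ 8) = 2 * (u * s ^ 16) := by ring
    linarith
  calc perc.real (A3 N (R : ℕ)) ≤
        perc.real {ω : Conf | reach N ω ≤ (2 * s ^ 8) * (N : ℝ) ^ (4/7 : ℝ)} :=
        measureReal_mono hsub
    _ ≤ A * (2 * s ^ 8) ^ (7/4 : ℝ) := htail N _ hN2 (by positivity)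
    _ ≤ A * 2 ^ (7/4 : ℝ) * s := by
        rw [Real.mul_rpow (by norm_num) (by positivity), ← mul_assoc]
        apply mul_le_mul_of_nonneg_left _ (by positivity)
        rw [← Real.rpow_natCast s 8, ← Real.rpow_mul hs.le]
        have e : ((8 : ℕ) : ℝ) * (7/4) = ((14 : ℕ) : ℝ) := by norm_num
        rw [e, Real.rpow_natCast]
        calc s ^ 14 ≤ s ^ 1 := pow_le_pow_of_le_one hs.le hs1 (by norm_num)
          _ = s := pow_one s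

end Zk62.QS
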