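import Pool.Agent.Zk62.QS.Rate

/-!
The oscillation of the path in short windows.
-/

set_option autoImplicit false

namespace Zk62.QS

open H974 Finset H342P H984P H984H MeasureTheory

/-- A large oscillation gives a fast subpath of the path in the box, or an exit from the box. -/
theorem A4_sub {n N w0 ρ : ℕ} {M : ℝ} (hρ : 1 ≤ ρ) (hN : (N : ℝ) < M) :
    A4 n N (2 * w0 + 1) ⊆ {ω | ¬ Stay ρ n ω} ∪
      {ω : Conf | (bx (ρ : ℤ)).Fast w0 M (cut ω ρ)} := by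
  intro ω hω
  by_contra hcon
  rw [Set.mem_union, not_or] at hcon
  obtain ⟨h1, h2⟩ := hcon
  have hS : Stay ρ n ω := not_not.1 h1
  apply hω
  intro i j hji hi hij
  by_contra hw
  push Not at hw
  apply h2
  have hρ' : (1 : ℤ) ≤ (ρ : ℤ) := by exact_mod_cast hρ
  obtain ⟨a1, a2⟩ := couple hρ' ω (k := i) fun l hl => hS l (by omega)
  obtain ⟨b1, b2⟩ := couple hρ' ω (k := j) fun l hl => hS l (by omega)
  refine ⟨(bx ρ).len (cut ω ρ) - 1 - i, (bx ρ).len (cut ω ρ) - 1 - j, by omega, by omega, ?_, ?_⟩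
  · rw [a2, b2]
    have h3 := dist_place_le (path ω i) (path ω j)
    rw [dist_eq_norm] at h3
    have h4 : (w0 : ℝ) < ((sd (path ω i).1 (path ω j).1 : ℤ) : ℝ) := by
      have : ‖gam ω i - gam ω j‖ = ‖place (path ω i) - place (path ω j)‖ := rfl
      linarith
    have h5 : (w0 : ℤ) < sd (path ω i).1 (path ω j).1 := by exact_mod_cast h4
    omega
  · have h6 : (bx (ρ : ℤ)).len (cut ω ρ) - 1 - j - ((bx (ρ : ℤ)).len (cut ω ρ) - 1 - i) = i - j := by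
      omega
    rw [h6]
    have : ((i - j : ℕ) : ℝ) ≤ N := by exact_mod_cast hij
    linarith

/-- The event `A4`. -/
theorem A4_rate : ∃ C D s0 : ℝ, 0 < C ∧ 0 < D ∧ 0 < s0 ∧ ∀ (n : ℕ) (s : ℝ), 1 ≤ n → 0 < s →
    s ≤ s0 → 1 ≤ (n : ℝ) ^ (4/7 : ℝ) * s ^ 48 → ∃ w : ℝ, 0 ≤ w ∧
      w ≤ D * ((n : ℝ) ^ (4/7 : ℝ) * s ^ 6) ∧
      perc.real (A4 n ⌈(n : ℝ) * s ^ 14⌉₊ w) ≤ C * s := by
  obtain ⟨⟨c, hc, hL⟩, ⟨C, hC, hU⟩, -⟩ := LS.inputs
  obtain ⟨a, A, ha, hA, htail⟩ := tail_up hc hC hL hU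
  obtain ⟨B, hB, hdec⟩ := Mom_decay ha 1
  obtain ⟨c1, C1, q, hc1, hC1, hq0, hq1, hsc⟩ := scale_one hc hC hL hU
  have hl0 : 0 < -Real.log q := by
    have := Real.log_neg hq0 hq1
    linarith
  obtain ⟨B2, hB2, hexp⟩ := expo hl0 19
  obtain ⟨κ, hκ⟩ : ∃ κ : ℝ, κ = (4 / c1) ^ (4/7 : ℝ) := ⟨_, rfl⟩
  obtain ⟨κ', hκ'⟩ : ∃ κ' : ℝ, κ' = (2 / c1) ^ (4/7 : ℝ) := ⟨_, rfl⟩
  have hκ0 : 0 < κ := by rw [hκ]; positivity
  have hκ'0 : 0 < κ' := by rw [hκ']; positivity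
  obtain ⟨s0, hs0⟩ : ∃ s0 : ℝ, s0 = min (1/4) (min (1 / (4 * (4 * κ + 1))) (κ' / C1)) := ⟨_, rfl⟩
  have hs0p : 0 < s0 := by rw [hs0]; positivity
  have hs04 : s0 ≤ 1/4 := by rw [hs0]; exact min_le_left _ _
  have hs0κ : s0 ≤ 1 / (4 * (4 * κ + 1)) := by
    rw [hs0]; exact (min_le_right _ _).trans (min_le_left _ _)
  have hs0C : s0 ≤ κ' / C1 := by rw [hs0]; exact (min_le_right _ _).trans (min_le_right _ _)
  refine ⟨A * (B * 2) + C1 * (2 / κ') ^ 2 * 16 * B2, 3 * (4 * κ + 1), s0, by positivity,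
    by positivity, hs0p, ?_⟩
  intro n s hn hs hss0 hu
  set u : ℝ := (n : ℝ) ^ (4/7 : ℝ) with hudef
  have hn0 : (0 : ℝ) < n := by exact_mod_cast hn
  have hu0 : 0 < u := Real.rpow_pos_of_pos hn0 _
  have hs1 : s ≤ 1 := by linarith
  have hs4 : s ≤ 1/4 := by linarith
  have hspow : ∀ k : ℕ, 1 ≤ k → s ^ k ≤ s := fun k hk => by
    calc s ^ k ≤ s ^ 1 := pow_le_pow_of_le_one hs.le hs1 hk
      _ = s := pow_one s
  -- `n s ^ 14 ≥ 1`
  have hn14 : 1 ≤ (n : ℝ) * s ^ 14 := by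
    have h1 := Real.one_le_rpow hu (show (0:ℝ) ≤ 7/4 by norm_num)
    rw [Real.mul_rpow hu0.le (by positivity), hudef, ← Real.rpow_mul hn0.le,
      ← Real.rpow_natCast s 48, ← Real.rpow_mul hs.le] at h1
    have e : ((48 : ℕ) : ℝ) * (7/4) = ((84 : ℕ) : ℝ) := by norm_num
    have e2 : (4/7 : ℝ) * (7/4) = 1 := by norm_num
    rw [e, e2, Real.rpow_natCast, Real.rpow_one] at h1
    refine h1.trans ?_
    apply mul_le_mul_of_nonneg_left _ hn0.le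
    exact pow_le_pow_of_le_one hs.le hs1 (by norm_num)
  set N : ℕ := ⌈(n : ℝ) * s ^ 14⌉₊ with hN
  have hN1 : (n : ℝ) * s ^ 14 ≤ N := Nat.le_ceil _
  have hN2 : (N : ℝ) < (n : ℝ) * s ^ 14 + 1 := Nat.ceil_lt_add_one (by positivity)
  have hN3 : (N : ℝ) ≤ 2 * ((n : ℝ) * s ^ 14) := by linarith
  have hN0 : (0 : ℝ) < N := by linarith
  set K : ℕ := ⌈1 / s⌉₊ with hK
  have hK1 : 1 / s ≤ K := Nat.le_ceil _
  have hK2 : (K : ℝ) < 1 / s + 1 := Nat.ceil_lt_add_one (by positivity)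
  have hs1' : 1 ≤ 1 / s := by rw [le_div_iff₀ hs]; linarith
  have hK3 : (K : ℝ) ≤ 2 / s := by
    have : 2 / s = 1 / s + 1 / s := by ring
    linarith
  have hK0 : (0 : ℝ) < K := by linarith
  have hKn : 1 ≤ K := Nat.one_le_ceil_iff.2 (by positivity)
  -- `Y`
  set Y : ℝ := (2 * (N : ℝ) / c1) ^ (4/7 : ℝ) with hY
  have hY0 : 0 < Y := by rw [hY]; positivity
  have hpow8 : ((n : ℝ) * s ^ 14) ^ (4/7 : ℝ) = u * s ^ 8 := by
    rw [Real.mul_rpow hn0.le (by positivity), ← Real.rpow_natCast s 14, ← Real.rpow_mul hs.le]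
    have e : ((14 : ℕ) : ℝ) * (4/7) = ((8 : ℕ) : ℝ) := by norm_num
    rw [e, Real.rpow_natCast]
  have hY1 : κ' * (u * s ^ 8) ≤ Y := by
    rw [hκ', ← hpow8, ← Real.mul_rpow (by positivity) (by positivity), hY]
    apply Real.rpow_le_rpow (by positivity) _ (by norm_num)
    calc 2 / c1 * ((n : ℝ) * s ^ 14) ≤ 2 / c1 * N := mul_le_mul_of_nonneg_left hN1 (by positivity)
      _ = 2 * (N : ℝ) / c1 := by ring
  have hY2 : Y ≤ κ * (u * s ^ 8) := by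
    rw [hκ, ← hpow8, ← Real.mul_rpow (by positivity) (by positivity), hY]
    apply Real.rpow_le_rpow (by positivity) _ (by norm_num)
    calc 2 * (N : ℝ) / c1 = 2 / c1 * N := by ring
      _ ≤ 2 / c1 * (2 * ((n : ℝ) * s ^ 14)) := mul_le_mul_of_nonneg_left hN3 (by positivity)
      _ = 4 / c1 * ((n : ℝ) * s ^ 14) := by ring
  -- `w0`
  set w0 : ℕ := ⌈(K : ℝ) ^ 2 * Y⌉₊ with hw0
  have hw1 : (K : ℝ) ^ 2 * Y ≤ w0 := Nat.le_ceil _
  have hw2 : (w0 : ℝ) < (K : ℝ) ^ 2 * Y + 1 := Nat.ceil_lt_add_one (by positivity)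
  have hus6 : 1 ≤ u * s ^ 6 := by
    refine hu.trans (mul_le_mul_of_nonneg_left ?_ hu0.le)
    exact pow_le_pow_of_le_one hs.le hs1 (by norm_num)
  have hKY : (K : ℝ) ^ 2 * Y ≤ 4 * κ * (u * s ^ 6) := by
    calc (K : ℝ) ^ 2 * Y ≤ (2 / s) ^ 2 * (κ * (u * s ^ 8)) := by gcongr
      _ = 4 * κ * (u * s ^ 6) := by field_simp; ring
  have hw3 : (w0 : ℝ) ≤ (4 * κ + 1) * (u * s ^ 6) := by
    have : (4 * κ + 1) * (u * s ^ 6) = 4 * κ * (u * s ^ 6) + u * s ^ 6 := by ring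
    linarith
  have hw4 : κ' * (u * s ^ 6) ≤ w0 := by
    refine le_trans ?_ hw1
    calc κ' * (u * s ^ 6) = (1 / s) ^ 2 * (κ' * (u * s ^ 8)) := by field_simp
      _ ≤ (K : ℝ) ^ 2 * Y := by gcongr
  have hw0p : (0 : ℝ) < w0 := lt_of_lt_of_le (by positivity) hw4
  have hw1' : (1 : ℝ) ≤ w0 := by
    have : 0 < w0 := by exact_mod_cast hw0p
    exact_mod_cast this
  -- `M`
  have hM : (N : ℝ) < c1 * ((w0 : ℝ) / K ^ 2) ^ (7/4 : ℝ) := by
    have h1 : Y ≤ (w0 : ℝ) / K ^ 2 := by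
      rw [le_div_iff₀ (by positivity)]
      linarith
    have h2 := Real.rpow_le_rpow hY0.le h1 (show (0:ℝ) ≤ 7/4 by norm_num)
    rw [hY, ← Real.rpow_mul (by positivity)] at h2
    have e2 : (4/7 : ℝ) * (7/4) = 1 := by norm_num
    rw [e2, Real.rpow_one] at h2
    have h3 := mul_le_mul_of_nonneg_left h2 hc1.le
    have e3 : c1 * (2 * (N : ℝ) / c1) = 2 * N := by field_simp
    rw [e3] at h3
    linarith
  -- `ρ`
  set ρ : ℕ := ⌊u / s⌋₊ with hρ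
  have hρ1 : (ρ : ℝ) ≤ u / s := Nat.floor_le (by positivity)
  have hρ2 : u / s < (ρ : ℝ) + 1 := Nat.lt_floor_add_one _
  have hu1 : 1 ≤ u := by
    refine hu.trans ?_
    calc u * s ^ 48 ≤ u * 1 := mul_le_mul_of_nonneg_left (pow_le_one₀ hs.le hs1) hu0.le
      _ = u := mul_one u
  have hus : 4 ≤ u / s := by
    rw [le_div_iff₀ hs]
    linarith
  have hρ3 : u / (2 * s) ≤ (ρ : ℝ) - 1/4 := by
    have : u / (2 * s) = u / s / 2 := by field_simp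
    rw [this]
    linarith
  have hρ0 : (0 : ℝ) < ρ := by
    have : 0 < u / (2 * s) := by positivity
    linarith
  have hρn : 1 ≤ ρ := by
    have : 0 < ρ := by exact_mod_cast hρ0
    exact this
  have h2w : 2 * (w0 : ℝ) ≤ ρ := by
    have h1 : 2 * ((4 * κ + 1) * (u * s ^ 6)) ≤ u / (2 * s) := by
      rw [le_div_iff₀ (by positivity)]
      have h2 : s ^ 7 ≤ 1 / (4 * (4 * κ + 1)) := (hspow 7 (by norm_num)).trans (hss0.trans hs0κ)
      rw [le_div_iff₀ (by positivity)] at h2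
      calc 2 * ((4 * κ + 1) * (u * s ^ 6)) * (2 * s) = u * (s ^ 7 * (4 * (4 * κ + 1))) := by ring
        _ ≤ u * 1 := mul_le_mul_of_nonneg_left h2 hu0.le
        _ = u := mul_one u
    linarith
  have h2w' : 2 * (w0 : ℤ) ≤ (ρ : ℤ) := by exact_mod_cast h2w
  have hCK : C1 * (K : ℝ) ^ 2 ≤ ((w0 : ℤ) : ℝ) := by
    have h1 : C1 ≤ Y := by
      refine le_trans ?_ hY1
      have h2 : s ^ 40 ≤ κ' / C1 := (hspow 40 (by norm_num)).trans (hss0.trans hs0C)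
      rw [le_div_iff₀ hC1] at h2
      have h3 : (u * s ^ 8) * s ^ 40 = u * s ^ 48 := by ring
      calc C1 = C1 * 1 := (mul_one _).symm
        _ ≤ C1 * ((u * s ^ 8) * s ^ 40) := by rw [h3]; exact mul_le_mul_of_nonneg_left hu hC1.le
        _ = (u * s ^ 8) * (s ^ 40 * C1) := by ring
        _ ≤ (u * s ^ 8) * κ' := mul_le_mul_of_nonneg_left h2 (by positivity)
        _ = κ' * (u * s ^ 8) := by ring
    calc C1 * (K : ℝ) ^ 2 ≤ Y * (K : ℝ) ^ 2 := mul_le_mul_of_nonneg_right h1 (by positivity)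
      _ = (K : ℝ) ^ 2 * Y := mul_comm _ _
      _ ≤ ((w0 : ℤ) : ℝ) := by exact_mod_cast hw1
  have hfast := hsc (bx (ρ : ℤ)) K (w0 : ℤ) (2 * (u / s)) (bx_ok (by exact_mod_cast hρn)) hKn hCK
    (by simp only [bx]; omega) (by simp only [bx]; omega) (by simp only [bx]; omega)
    (by simp only [bx]; push_cast; linarith) (by
      simp only [bx]
      push_cast
      have : 0 ≤ u / s := by positivity
      linarith)
  have hfast2 : C1 * (2 * (u / s) / ((w0 : ℤ) : ℝ)) ^ 2 * (K : ℝ) ^ 4 * q ^ K ≤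
      C1 * (2 / κ') ^ 2 * 16 * B2 * s := by
    have g1 : 2 * (u / s) / ((w0 : ℤ) : ℝ) ≤ 2 / κ' * (1 / s ^ 7) := by
      rw [div_le_iff₀ (by exact_mod_cast hw0p)]
      calc 2 * (u / s) = 2 / κ' * (1 / s ^ 7) * (κ' * (u * s ^ 6)) := by field_simp
        _ ≤ 2 / κ' * (1 / s ^ 7) * ((w0 : ℤ) : ℝ) := by
            apply mul_le_mul_of_nonneg_left _ (by positivity)
            exact_mod_cast hw4
    have g2 : (K : ℝ) ^ 4 ≤ (2 / s) ^ 4 := by gcongr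
    have g3 : q ^ K ≤ B2 * s ^ 19 := by
      refine le_trans ?_ (hexp s hs hs1)
      have e : q ^ K = Real.exp (-(-Real.log q * K)) := by
        rw [neg_mul, neg_neg, mul_comm, Real.exp_nat_mul, Real.exp_log hq0]
      rw [e]
      apply Real.exp_le_exp.2
      have := mul_le_mul_of_nonneg_left hK1 hl0.le
      have e2 : -Real.log q * (1 / s) = -Real.log q / s := by ring
      rw [e2] at this
      linarith
    have g0 : 0 ≤ 2 * (u / s) / ((w0 : ℤ) : ℝ) := by positivity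
    calc C1 * (2 * (u / s) / ((w0 : ℤ) : ℝ)) ^ 2 * (K : ℝ) ^ 4 * q ^ K
        ≤ C1 * (2 / κ' * (1 / s ^ 7)) ^ 2 * (2 / s) ^ 4 * (B2 * s ^ 19) := by gcongr
      _ = C1 * (2 / κ') ^ 2 * 16 * B2 * s := by
          field_simp
          ring
  -- the exit
  have hexit : perc.real {ω : Conf | ¬ Stay ρ n ω} ≤ A * (B * 2) * s := by
    set x : ℝ := 1 / (2 * s) with hx
    have hx1 : 1 ≤ x := by
      rw [hx, le_div_iff₀ (by positivity)]
      linarith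
    have hx0 : 0 < x := by linarith
    have hsub : {ω : Conf | ¬ Stay ρ n ω} ⊆ {ω : Conf | x * (n : ℝ) ^ (4/7 : ℝ) ≤ reach n ω} := by
      intro ω hω
      have hω' : ¬ ∀ j ≤ n, sd (path ω j).1 (0, 0) < (ρ : ℤ) := hω
      push Not at hω'
      obtain ⟨j, hj, hj2⟩ := hω'
      have h2 := le_norm_place (path ω j)
      have h3 : ((ρ : ℕ) : ℝ) ≤ ((sd (path ω j).1 (0, 0) : ℤ) : ℝ) := by exact_mod_cast hj2
      have h4 : ‖gam ω j‖ ≤ reach n ω := (norm_gam_le j ω).trans (reach_mono ω hj)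
      have h5 : ‖gam ω j‖ = ‖place (path ω j)‖ := rfl
      show x * (n : ℝ) ^ (4/7 : ℝ) ≤ reach n ω
      have h6 : x * (n : ℝ) ^ (4/7 : ℝ) = u / (2 * s) := by
        rw [hx, ← hudef]; ring
      rw [h6]
      linarith
    have h7 : Real.exp (-(a * x ^ (1/2 : ℝ))) ≤ B * (2 * s) := by
      refine (hdec x hx1).trans (le_of_eq ?_)
      rw [Real.rpow_neg_one, hx, one_div, inv_inv]
    calc perc.real {ω : Conf | ¬ Stay ρ n ω} ≤
          perc.real {ω : Conf | x * (n : ℝ) ^ (4/7 : ℝ) ≤ reach n ω} := measureReal_mono hsub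
      _ ≤ A * Real.exp (-(a * x ^ (1/2 : ℝ))) := htail n x hn hx0
      _ ≤ A * (B * (2 * s)) := mul_le_mul_of_nonneg_left h7 hA.le
      _ = A * (B * 2) * s := by ring
  have hfast3 : perc.real {ω : Conf | (bx (ρ : ℤ)).Fast w0
      (c1 * ((w0 : ℝ) / K ^ 2) ^ (7/4 : ℝ)) (cut ω ρ)} ≤ C1 * (2 / κ') ^ 2 * 16 * B2 * s := by
    rw [perc_cut (ρ : ℤ) (fun F => (bx (ρ : ℤ)).Fast w0 (c1 * ((w0 : ℝ) / K ^ 2) ^ (7/4 : ℝ)) F)]
    refine le_trans ?_ hfast2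
    simp only [Int.cast_natCast] at hfast ⊢
    exact hfast
  refine ⟨2 * w0 + 1, by positivity, ?_, ?_⟩
  · calc 2 * (w0 : ℝ) + 1 ≤ 3 * w0 := by linarith
      _ ≤ 3 * ((4 * κ + 1) * (u * s ^ 6)) := by linarith
      _ = 3 * (4 * κ + 1) * (u * s ^ 6) := by ring
  · calc perc.real (A4 n N (2 * w0 + 1)) ≤ perc.real ({ω : Conf | ¬ Stay ρ n ω} ∪
          {ω : Conf | (bx (ρ : ℤ)).Fast w0 (c1 * ((w0 : ℝ) / K ^ 2) ^ (7/4 : ℝ)) (cut ω ρ)}) :=
          measureReal_mono (A4_sub hρn hM)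
      _ ≤ _ := measureReal_union_le _ _
      _ ≤ A * (B * 2) * s + C1 * (2 / κ') ^ 2 * 16 * B2 * s := add_le_add hexit hfast3
      _ = (A * (B * 2) + C1 * (2 / κ') ^ 2 * 16 * B2) * s := by ring

end Zk62.QS
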