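import Pool.Agent.Zk62.QS.Coal
import Pool.Agent.Zk62.QS.Limit
import Pool.Agent.Zk62.QS.Family
import Pool.Agent.Zk62.QS.Weak

/-!
Mixing in the sense of Rényi.
-/

set_option autoImplicit false

namespace Zk62.QS

open H974 Finset H342P H984P H984H MeasureTheory Filter Topology TopologicalSpace

theorem A3_zero (R : ℤ) : Tendsto (fun N : ℕ => perc.real (A3 N R)) atTop (𝓝 0) := by
  have hmono : Antitone fun N : ℕ => A3 N R := by
    intro N N' h ω hω i hi
    exact hω i (hi.trans h)
  have h := tendsto_measure_iInter_atTop (μ := perc) (s := fun N : ℕ => A3 N R)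
    (fun N => (A3_meas N R).nullMeasurableSet) hmono ⟨0, measure_ne_top _ _⟩
  have he : (⋂ N : ℕ, A3 N R) = ∅ := by
    rw [Set.eq_empty_iff_forall_notMem]
    intro ω hω
    obtain ⟨N, hN⟩ := exits ω R
    have := (Set.mem_iInter.1 hω N) N le_rfl
    exact absurd this (not_lt.2 hN)
  rw [he, measure_empty] at h
  have h2 := (ENNReal.tendsto_toReal ENNReal.zero_ne_top).comp h
  rw [ENNReal.toReal_zero] at h2
  exact h2

/-- Asymptotic independence of a local event. -/
theorem local_mix {r : ℕ} (hr : 1 ≤ r) (F : Conf → ℝ) (mF : Measurable F)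
    (hF : ∀ ω ω' : Conf, (∀ e : Edg, InB r e → ω e = ω' e) → F ω' = F ω)
    (hF1 : ∀ p, |F p| ≤ 1) {L : ℝ} (hL : 0 ≤ L) (G : C(unitInterval, ℂ) → ℝ)
    (hG : ∀ f, |G f| ≤ 1) (hGL : ∀ f g, |G f - G g| ≤ L * ‖f - g‖) :
    Tendsto (fun n : ℕ => ∫ ω, F ω * G (curve n ω) ∂perc -
      (∫ ω, F ω ∂perc) * ∫ ω, G (curve n ω) ∂perc) atTop (𝓝 0) := by
  obtain ⟨C, D, s0, hC, hD, hs0, h4⟩ := A4_rate
  rw [Metric.tendsto_atTop]
  intro ε hε
  obtain ⟨R, hR, hrR⟩ := (((tendsto_order.1 (A2_zero hr)).2 (ε / 16) (by positivity)).and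
    (eventually_gt_atTop r)).exists
  obtain ⟨N, hN⟩ := ((tendsto_order.1 (A3_zero R)).2 (ε / 16) (by positivity)).exists
  obtain ⟨s, hs⟩ : ∃ s : ℝ, s = min (min s0 1) (min (ε / (16 * C)) (ε / (16 * D * (L + 1)))) :=
    ⟨_, rfl⟩
  have hsp : 0 < s := by rw [hs]; positivity
  have hs1 : s ≤ s0 := by rw [hs]; exact (min_le_left _ _).trans (min_le_left _ _)
  have hs2 : s ≤ 1 := by rw [hs]; exact (min_le_left _ _).trans (min_le_right _ _)
  have hs3 : C * s ≤ ε / 16 := by
    have : s ≤ ε / (16 * C) := by rw [hs]; exact (min_le_right _ _).trans (min_le_left _ _)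
    rw [le_div_iff₀ (by positivity)] at this
    linarith
  have hs4 : L * (2 * D * s) ≤ ε / 8 := by
    have : s ≤ ε / (16 * D * (L + 1)) := by
      rw [hs]; exact (min_le_right _ _).trans (min_le_right _ _)
    rw [le_div_iff₀ (by positivity)] at this
    have h2 : s * D * L ≤ s * D * (L + 1) := by
      have : 0 < s * D := by positivity
      nlinarith
    nlinarith
  have e1 : Tendsto (fun n : ℕ => (n : ℝ) ^ (4/7 : ℝ) * s ^ 48) atTop atTop :=
    ((tendsto_rpow_atTop (by norm_num)).comp tendsto_natCast_atTop_atTop).atTop_mul_const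
      (by positivity)
  have e2 : Tendsto (fun n : ℕ => (n : ℝ) * s ^ 14) atTop atTop :=
    tendsto_natCast_atTop_atTop.atTop_mul_const (by positivity)
  obtain ⟨n0, hn0⟩ := eventually_atTop.1 (((e1.eventually_ge_atTop 1).and
    (e2.eventually_ge_atTop (N : ℝ))).and (eventually_ge_atTop 1))
  refine ⟨n0, fun n hn => ?_⟩
  obtain ⟨⟨g1, g2⟩, g3⟩ := hn0 n hn
  obtain ⟨w, hw0, hw, k4⟩ := h4 n s g3 hsp hs1 g1
  have hNn : N ≤ ⌈(n : ℝ) * s ^ 14⌉₊ := by
    have : (N : ℝ) ≤ ⌈(n : ℝ) * s ^ 14⌉₊ := g2.trans (Nat.le_ceil _)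
    exact_mod_cast this
  have k5 : perc.real (A4 n N w) ≤ ε / 16 := by
    refine le_trans ?_ (k4.trans hs3)
    refine measureReal_mono ?_ (measure_ne_top _ _)
    intro ω hω hO
    apply hω
    intro i j hji hi hij
    exact hO i j hji hi (hij.trans hNn)
  have key := mix_gen (n := n) (N := N) (w := w) hrR hL hw0 F mF (A := ∅) MeasurableSet.empty
    (fun ω ω' h _ => hF ω ω' h) hF1 G hG hGL
  rw [Real.dist_eq, sub_zero]
  refine key.trans_lt ?_
  have hn1 : (0 : ℝ) < n := by exact_mod_cast g3
  have e7 : L * ((n : ℝ) ^ (-(4/7) : ℝ) * (2 * w)) ≤ ε / 8 := by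
    refine le_trans ?_ hs4
    apply mul_le_mul_of_nonneg_left _ hL
    have e8 : (n : ℝ) ^ (-(4/7) : ℝ) * (n : ℝ) ^ (4/7 : ℝ) = 1 := by
      rw [← Real.rpow_add hn1]; norm_num
    have hd0 : 0 < (n : ℝ) ^ (-(4/7) : ℝ) := by positivity
    calc (n : ℝ) ^ (-(4/7) : ℝ) * (2 * w) ≤
          (n : ℝ) ^ (-(4/7) : ℝ) * (2 * (D * ((n : ℝ) ^ (4/7 : ℝ) * s ^ 6))) := by gcongr
      _ = ((n : ℝ) ^ (-(4/7) : ℝ) * (n : ℝ) ^ (4/7 : ℝ)) * (2 * D * s ^ 6) := by ring
      _ = 2 * D * s ^ 6 := by rw [e8, one_mul]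
      _ ≤ 2 * D * s := by
          apply mul_le_mul_of_nonneg_left _ (by positivity)
          calc s ^ 6 ≤ s ^ 1 := pow_le_pow_of_le_one hsp.le hs2 (by norm_num)
            _ = s := pow_one s
  have e9 : perc.real (∅ : Set Conf) = 0 := by simp
  rw [e9]
  linarith

theorem lip_cont {L : ℝ} (hL : 0 ≤ L) {G : C(unitInterval, ℂ) → ℝ}
    (hGL : ∀ f g, |G f - G g| ≤ L * ‖f - g‖) : Continuous G := by
  rw [Metric.continuous_iff]
  intro f ε hε
  refine ⟨ε / (L + 1), by positivity, fun g hg => ?_⟩
  rw [Real.dist_eq]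
  refine (hGL g f).trans_lt ?_
  rw [dist_eq_norm, lt_div_iff₀ (by positivity)] at hg
  have h2 : L * ‖g - f‖ ≤ ‖g - f‖ * (L + 1) := by
    have := norm_nonneg (g - f)
    nlinarith
  linarith

theorem perc_weak {L : ℝ} (hL : 0 ≤ L) (G : C(unitInterval, ℂ) → ℝ)
    (hG : ∀ f, |G f| ≤ 1) (hGL : ∀ f g, |G f - G g| ≤ L * ‖f - g‖) (f : Conf → ℝ)
    (hf : Integrable f perc) :
    Tendsto (fun n : ℕ => ∫ ω, f ω * (G (curve n ω) - ∫ ω', G (curve n ω') ∂perc) ∂perc) atTop
      (𝓝 0) := by
  have hGc := lip_cont hL hGL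
  have mG : ∀ n, Measurable (fun ω : Conf => G (curve n ω)) := fun n =>
    hGc.measurable.comp (curve_meas n)
  have bG : ∀ n, |∫ ω, G (curve n ω) ∂perc| ≤ 1 := by
    intro n
    have := norm_integral_le_of_norm_le_const (μ := perc) (f := fun ω => G (curve n ω)) (C := 1)
      (Eventually.of_forall fun ω => by rw [Real.norm_eq_abs]; exact hG _)
    simpa using this
  have iG : ∀ n, Integrable (fun ω : Conf => G (curve n ω)) perc := fun n =>
    Integrable.of_bound (mG n).aestronglyMeasurable 1 (Eventually.of_forall fun ω => hG _)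
  refine weak_int (g := fun n ω => G (curve n ω) - ∫ ω', G (curve n ω') ∂perc)
    (fun n => (mG n).sub_const _) (fun n ω => ?_) (fun t ht => ?_) f hf
  · refine (abs_sub _ _).trans ?_
    linarith [hG (curve n ω), bG n]
  · refine weak_sets (g := fun n ω => G (curve n ω) - ∫ ω', G (curve n ω') ∂perc)
      (fun n => (mG n).sub_const _) (fun n ω => ?_)
      (s := measurableCylinders fun _ : Edg => Bool)
      generateFrom_measurableCylinders.symm isPiSystem_measurableCylinders ?_ ?_ t ht
    · refine (abs_sub _ _).trans ?_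
      linarith [hG (curve n ω), bG n]
    · have : ∀ n, ∫ ω, (G (curve n ω) - ∫ ω', G (curve n ω') ∂perc) ∂perc = 0 := by
        intro n
        rw [integral_sub (iG n) (integrable_const _), integral_const, probReal_univ, one_smul,
          sub_self]
      simp only [this]
      exact tendsto_const_nhds
    · intro B hB
      obtain ⟨I, S, hS, rfl⟩ := (mem_measurableCylinders (α := fun _ : Edg => Bool) B).1 hB
      have hBm : MeasurableSet (cylinder (α := fun _ : Edg => Bool) I S) :=
        MeasurableSet.cylinder I hS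
      -- a box
      obtain ⟨b, hb⟩ : ∃ b : ℤ, ∀ e ∈ I, InB b e := by
        have h1 := (I.finite_toSet.image (fun e : Edg => sd (src e) (0, 0))).bddAbove
        have h2 := (I.finite_toSet.image (fun e : Edg => sd (tgt e) (0, 0))).bddAbove
        obtain ⟨b1, h1⟩ := h1
        obtain ⟨b2, h2⟩ := h2
        refine ⟨max b1 b2, fun e he => ⟨?_, ?_⟩⟩
        · exact (h1 (Set.mem_image_of_mem _ he)).trans (le_max_left _ _)
        · exact (h2 (Set.mem_image_of_mem _ he)).trans (le_max_right _ _)
      set r : ℕ := (max b 1).toNat with hr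
      have hr1 : 1 ≤ r := by
        have := le_max_right b 1
        omega
      have hrb : b ≤ (r : ℤ) := by
        have := le_max_left b 1
        omega
      have key := local_mix hr1 ((cylinder I S).indicator fun _ => (1 : ℝ))
        (measurable_const.indicator hBm) (fun ω ω' h => ?_) (fun ω => ?_) hL G hG hGL
      · refine key.congr fun n => ?_
        have i1 : Integrable (fun ω => (cylinder I S).indicator (fun _ => (1 : ℝ)) ω *
            G (curve n ω)) perc :=
          Integrable.of_bound ((measurable_const.indicator hBm).mul (mG n)).aestronglyMeasurable 1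
            (Eventually.of_forall fun ω => by
              rw [Real.norm_eq_abs, abs_mul]
              refine mul_le_one₀ ?_ (abs_nonneg _) (hG _)
              by_cases h : ω ∈ cylinder I S
              · rw [Set.indicator_of_mem h]; norm_num
              · rw [Set.indicator_of_notMem h]; norm_num)
        have i2 : Integrable ((cylinder I S).indicator (fun _ => (1 : ℝ))) perc :=
          (integrable_const _).indicator hBm
        rw [← integral_mul_const, ← integral_sub i1 (i2.mul_const _), ← integral_indicator hBm]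
        refine integral_congr_ae (Eventually.of_forall fun ω => ?_)
        by_cases h : ω ∈ cylinder I S
        · simp only [Set.indicator_of_mem h]
          ring
        · simp only [Set.indicator_of_notMem h]
          ring
      · have hiff : ω' ∈ cylinder I S ↔ ω ∈ cylinder I S := by
          rw [mem_cylinder, mem_cylinder]
          have e : I.restrict ω' = I.restrict ω := by
            funext i
            show ω' i = ω i
            obtain ⟨h1, h2⟩ := hb i i.2
            exact (h i ⟨h1.trans hrb, h2.trans hrb⟩).symm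
          rw [e]
        by_cases hm : ω ∈ cylinder I S
        · rw [Set.indicator_of_mem hm, Set.indicator_of_mem (hiff.2 hm)]
        · rw [Set.indicator_of_notMem hm, Set.indicator_of_notMem (fun h' => hm (hiff.1 h'))]
      · by_cases h : ω ∈ cylinder I S
        · rw [Set.indicator_of_mem h]; norm_num
        · rw [Set.indicator_of_notMem h]; norm_num

/-- **Mixing in the sense of Rényi.** -/
theorem renyi (P : Measure Conf) [IsProbabilityMeasure P] (hP : P ≪ perc)
    (F : BoundedContinuousFunction C(unitInterval, ℂ) ℝ) :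
    Tendsto (fun n : ℕ => ∫ ω, F (curve n ω) ∂P - ∫ ω, F (curve n ω) ∂perc) atTop (𝓝 0) := by
  have H := LS.scaling
  haveI : P.HaveLebesgueDecomposition perc := Measure.haveLebesgueDecomposition_of_sigmaFinite _ _
  -- Lipschitz functions
  have hlip : ∀ {L : ℝ}, 0 ≤ L → ∀ G : C(unitInterval, ℂ) → ℝ, (∀ f, |G f| ≤ 1) →
      (∀ f g, |G f - G g| ≤ L * ‖f - g‖) →
      Tendsto (fun n : ℕ => ∫ ω, G (curve n ω) ∂P - ∫ ω, G (curve n ω) ∂perc) atTop (𝓝 0) := by
    intro L hL G hG hGL
    have hGc := lip_cont hL hGL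
    have mG : ∀ n, Measurable (fun ω : Conf => G (curve n ω)) := fun n =>
      hGc.measurable.comp (curve_meas n)
    have hf : Integrable (fun ω => (P.rnDeriv perc ω).toReal) perc :=
      Measure.integrable_toReal_rnDeriv
    refine (perc_weak hL G hG hGL _ hf).congr fun n => ?_
    have e1 : ∫ ω, (P.rnDeriv perc ω).toReal • G (curve n ω) ∂perc = ∫ ω, G (curve n ω) ∂P :=
      integral_rnDeriv_smul hP
    have e2 : ∫ ω, (P.rnDeriv perc ω).toReal ∂perc = 1 := by
      rw [Measure.integral_toReal_rnDeriv hP]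
      simp
    have i1 : Integrable (fun ω => (P.rnDeriv perc ω).toReal * G (curve n ω)) perc := by
      refine (Integrable.bdd_mul (c := 1) hf (mG n).aestronglyMeasurable
        (Eventually.of_forall fun ω => by rw [Real.norm_eq_abs]; exact hG _)).congr
        (Eventually.of_forall fun ω => ?_)
      exact mul_comm _ _
    calc ∫ ω, (P.rnDeriv perc ω).toReal * (G (curve n ω) - ∫ ω', G (curve n ω') ∂perc) ∂perc
        = ∫ ω, ((P.rnDeriv perc ω).toReal * G (curve n ω) -
            (P.rnDeriv perc ω).toReal * ∫ ω', G (curve n ω') ∂perc) ∂perc := by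
          refine integral_congr_ae (Eventually.of_forall fun ω => ?_)
          show (P.rnDeriv perc ω).toReal * (G (curve n ω) - ∫ ω', G (curve n ω') ∂perc) = _
          ring
      _ = ∫ ω, (P.rnDeriv perc ω).toReal * G (curve n ω) ∂perc -
          ∫ ω, (P.rnDeriv perc ω).toReal * (∫ ω', G (curve n ω') ∂perc) ∂perc :=
          integral_sub i1 (hf.mul_const _)
      _ = _ := by
          rw [integral_mul_const, e2, one_mul]
          congr 1
  refine tendsto_of_subseq_tendsto fun ns hns => ?_
  obtain ⟨ψ, hψ, μ, hμ⟩ := LS.subseq H ns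
  refine ⟨ψ, ?_⟩
  have hμ' : Tendsto (fun i => lawH (ns (ψ i))) atTop (𝓝 μ) := hμ
  have hsub : Tendsto (fun i => ns (ψ i)) atTop atTop := hns.comp hψ.tendsto_atTop
  -- the laws under `P`
  let ν : ℕ → ProbabilityMeasure C(unitInterval, ℂ) := fun n =>
    ⟨P.map (curve n), Measure.isProbabilityMeasure_map (curve_meas n).aemeasurable⟩
  have hν : ∀ (n : ℕ) {g : C(unitInterval, ℂ) → ℝ}, Continuous g →
      ∫ f, g f ∂(ν n : Measure C(unitInterval, ℂ)) = ∫ ω, g (curve n ω) ∂P := by
    intro n g hg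
    show ∫ f, g f ∂(P.map (curve n)) = _
    rw [integral_map (curve_meas n).aemeasurable hg.aestronglyMeasurable]
  have hνμ : Tendsto (fun i => ν (ns (ψ i))) atTop (𝓝 μ) := by
    apply family
    intro T m
    have h1 := (hlip (L := (m : ℝ) + 1) (by positivity) (gf T m) (gf_abs T m)
      (fun f g => by rw [← dist_eq_norm]; exact gf_lip T m f g)).comp hsub
    have h2 := (ProbabilityMeasure.tendsto_iff_forall_integral_tendsto.1 hμ') (gb T m)
    have h3 := h1.add h2
    rw [zero_add] at h3
    refine h3.congr fun i => ?_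
    have a1 : ∫ f, gb T m f ∂(lawH (ns (ψ i)) : Measure C(unitInterval, ℂ)) =
        ∫ ω, gf T m (curve (ns (ψ i)) ω) ∂perc := lawH_int _ (gf_cont T m)
    have a2 := hν (ns (ψ i)) (gf_cont T m)
    show (∫ ω, gf T m (curve (ns (ψ i)) ω) ∂P - ∫ ω, gf T m (curve (ns (ψ i)) ω) ∂perc) + _ = _
    rw [a1, a2]
    ring
  have h1 := (ProbabilityMeasure.tendsto_iff_forall_integral_tendsto.1 hνμ) F
  have h2 := (ProbabilityMeasure.tendsto_iff_forall_integral_tendsto.1 hμ') F
  have h3 := h1.sub h2
  rw [sub_self] at h3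
  refine h3.congr fun i => ?_
  rw [hν _ F.continuous, lawH_int _ F.continuous]

end Zk62.QS
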