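import Pool.Agent.Zk62.QS.Limit
import Pool.Agent.Zk62.QS.Weak

/-!
Limits: absolutely continuous laws, and singularity of different self-similar limits.
-/

set_option autoImplicit false

namespace Zk62.QS

open H974 Finset H342P H984P H984H MeasureTheory Filter Topology

/-- The mixing property of one limit. -/
def Mx (μ : ProbabilityMeasure C(unitInterval, ℂ)) (c C : ℝ) : Prop :=
  ∀ (l : ℝ), 0 < l → l ≤ 1 → ∀ L : ℝ, 0 ≤ L →
      ∀ F G : C(unitInterval, ℂ) → ℝ, Continuous F → (∀ f, |F f| ≤ 1) → (∀ f, |G f| ≤ 1) →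
      (∀ f g, |G f - G g| ≤ L * ‖f - g‖) →
      |∫ f, F (LS.sc (4/7) l f) * G f ∂(μ : Measure C(unitInterval, ℂ)) -
        (∫ f, F (LS.sc (4/7) l f) ∂(μ : Measure C(unitInterval, ℂ))) *
          ∫ f, G f ∂(μ : Measure C(unitInterval, ℂ))| ≤ C * (1 + L) * l ^ c

theorem mx_weak {μ : ProbabilityMeasure C(unitInterval, ℂ)} {c C : ℝ} (hc : 0 < c)
    (h : Mx μ c C) {l : ℕ → ℝ} (hl0 : ∀ n, 0 < l n) (hl1 : ∀ n, l n ≤ 1)
    (hl : Tendsto l atTop (𝓝 0)) {F : C(unitInterval, ℂ) → ℝ} (hF : Continuous F)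
    (hF1 : ∀ f, |F f| ≤ 1) (u : C(unitInterval, ℂ) → ℝ)
    (hu : Integrable u (μ : Measure C(unitInterval, ℂ))) :
    Tendsto (fun n => ∫ f, u f * (F (LS.sc (4/7) (l n) f) -
      ∫ f, F (LS.sc (4/7) (l n) f) ∂(μ : Measure C(unitInterval, ℂ)))
        ∂(μ : Measure C(unitInterval, ℂ))) atTop (𝓝 0) := by
  set ρ : Measure C(unitInterval, ℂ) := (μ : Measure C(unitInterval, ℂ)) with hρ
  have mF : ∀ n, Measurable fun f => F (LS.sc (4/7) (l n) f) := fun n =>
    hF.measurable.comp (LS.sc_meas _ _)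
  have iF : ∀ n, Integrable (fun f => F (LS.sc (4/7) (l n) f)) ρ := fun n =>
    Integrable.of_bound (mF n).aestronglyMeasurable 1 (Eventually.of_forall fun f => hF1 _)
  have bF : ∀ n, |∫ f, F (LS.sc (4/7) (l n) f) ∂ρ| ≤ 1 := by
    intro n
    have := norm_integral_le_of_norm_le_const (μ := ρ)
      (f := fun f => F (LS.sc (4/7) (l n) f)) (C := 1)
      (Eventually.of_forall fun f => by rw [Real.norm_eq_abs]; exact hF1 _)
    simpa using this
  set g : ℕ → C(unitInterval, ℂ) → ℝ := fun n f => F (LS.sc (4/7) (l n) f) -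
      ∫ f, F (LS.sc (4/7) (l n) f) ∂ρ with hg
  have mg : ∀ n, Measurable (g n) := fun n => (mF n).sub_const _
  have bg : ∀ n f, |g n f| ≤ 2 := by
    intro n f
    refine (abs_sub _ _).trans ?_
    linarith [hF1 (LS.sc (4/7) (l n) f), bF n]
  have ig : ∀ n, Integrable (g n) ρ := fun n =>
    Integrable.of_bound (mg n).aestronglyMeasurable 2 (Eventually.of_forall fun f => bg n f)
  refine weak_int (μ := ρ) mg bg (fun t ht => ?_) u hu
  rw [Metric.tendsto_atTop]
  intro ε hε
  obtain ⟨G, L, hL, hG0, hG1, hGL, hGI⟩ := approx ρ ht (δ := ε / 8) (by positivity)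
  have hGL' : ∀ f g : C(unitInterval, ℂ), |G f - G g| ≤ L * ‖f - g‖ := fun f g => by
    rw [← dist_eq_norm]; exact hGL f g
  have hGc : Continuous G := by
    rw [Metric.continuous_iff]
    intro f ε hε
    refine ⟨ε / (L + 1), by positivity, fun g hg => ?_⟩
    rw [Real.dist_eq]
    refine (hGL g f).trans_lt ?_
    rw [lt_div_iff₀ (by positivity)] at hg
    have h2 : L * dist g f ≤ dist g f * (L + 1) := by
      have := dist_nonneg (x := g) (y := f)
      nlinarith
    linarith
  have hGb : ∀ f, |G f| ≤ 1 := fun f => by rw [abs_of_nonneg (hG0 f)]; exact hG1 f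
  have iG : Integrable G ρ :=
    Integrable.of_bound hGc.measurable.aestronglyMeasurable 1 (Eventually.of_forall hGb)
  have hlim : Tendsto (fun n => C * (1 + L) * (l n) ^ c) atTop (𝓝 0) := by
    have := (hl.rpow_const (p := c) (Or.inr hc.le)).const_mul (C * (1 + L))
    rwa [Real.zero_rpow hc.ne', mul_zero] at this
  obtain ⟨N, hN⟩ := eventually_atTop.1 ((tendsto_order.1 hlim).2 (ε / 4) (by positivity))
  refine ⟨N, fun n hn => ?_⟩
  rw [Real.dist_eq, sub_zero]
  have h1 := h (l n) (hl0 n) (hl1 n) L hL F G hF hF1 hGb hGL'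
  have iI : Integrable (fun f => t.indicator (fun _ => (1 : ℝ)) f) ρ :=
    (integrable_const _).indicator ht
  have iFG : Integrable (fun f => F (LS.sc (4/7) (l n) f) * G f) ρ :=
    Integrable.of_bound ((mF n).mul hGc.measurable).aestronglyMeasurable 1
      (Eventually.of_forall fun f => by
        rw [Real.norm_eq_abs, abs_mul]; exact mul_le_one₀ (hF1 _) (abs_nonneg _) (hGb _))
  have iGg : Integrable (fun f => G f * g n f) ρ :=
    Integrable.of_bound (hGc.measurable.mul (mg n)).aestronglyMeasurable 2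
      (Eventually.of_forall fun f => by
        rw [Real.norm_eq_abs, abs_mul]
        calc |G f| * |g n f| ≤ 1 * 2 := mul_le_mul (hGb f) (bg n f) (abs_nonneg _) zero_le_one
          _ = 2 := one_mul _)
  have iD : Integrable (fun f => (t.indicator (fun _ => (1 : ℝ)) f - G f) * g n f) ρ := by
    refine (Integrable.bdd_mul (c := 2) (iI.sub iG) (mg n).aestronglyMeasurable
      (Eventually.of_forall fun f => by rw [Real.norm_eq_abs]; exact bg n f)).congr
      (Eventually.of_forall fun f => ?_)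
    exact mul_comm _ _
  have e1 : ∫ f in t, g n f ∂ρ = ∫ f, G f * g n f ∂ρ +
      ∫ f, (t.indicator (fun _ => (1 : ℝ)) f - G f) * g n f ∂ρ := by
    rw [← integral_indicator ht, ← integral_add iGg iD]
    refine integral_congr_ae (Eventually.of_forall fun f => ?_)
    by_cases hf : f ∈ t
    · simp only [Set.indicator_of_mem hf]
      ring
    · simp only [Set.indicator_of_notMem hf]
      ring
  have e2 : ∫ f, G f * g n f ∂ρ = ∫ f, F (LS.sc (4/7) (l n) f) * G f ∂ρ -
      (∫ f, F (LS.sc (4/7) (l n) f) ∂ρ) * ∫ f, G f ∂ρ := by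
    rw [← integral_const_mul, ← integral_sub iFG (iG.const_mul _)]
    refine integral_congr_ae (Eventually.of_forall fun f => ?_)
    simp only [hg]
    ring
  have e3 : |∫ f, (t.indicator (fun _ => (1 : ℝ)) f - G f) * g n f ∂ρ| ≤ 2 * (ε / 8) := by
    refine abs_integral_le_integral_abs.trans ?_
    have h5 : ∫ f, |(t.indicator (fun _ => (1 : ℝ)) f - G f) * g n f| ∂ρ ≤
        ∫ f, 2 * |t.indicator (fun _ => (1 : ℝ)) f - G f| ∂ρ := by
      refine integral_mono iD.abs ((iI.sub iG).abs.const_mul 2) fun f => ?_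
      show |(t.indicator (fun _ => (1 : ℝ)) f - G f) * g n f| ≤
        2 * |t.indicator (fun _ => (1 : ℝ)) f - G f|
      rw [abs_mul, mul_comm]
      exact mul_le_mul_of_nonneg_right (bg n f) (abs_nonneg _)
    rw [integral_const_mul] at h5
    linarith
  rw [e1, e2]
  refine (abs_add_le _ _).trans_lt ?_
  have h6 := hN n hn
  linarith

/-- Laws which are absolutely continuous with respect to a limit. -/
theorem mx_ac {μ : ProbabilityMeasure C(unitInterval, ℂ)} {c C : ℝ} (hc : 0 < c)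
    (h : Mx μ c C) (P : Measure C(unitInterval, ℂ)) [IsProbabilityMeasure P]
    (hP : P ≪ (μ : Measure C(unitInterval, ℂ)))
    (F : BoundedContinuousFunction C(unitInterval, ℂ) ℝ) :
    Tendsto (fun l : ℝ => ∫ f, F (LS.sc (4/7) l f) ∂P -
      ∫ f, F (LS.sc (4/7) l f) ∂(μ : Measure C(unitInterval, ℂ))) (𝓝[>] 0) (𝓝 0) := by
  set ρ : Measure C(unitInterval, ℂ) := (μ : Measure C(unitInterval, ℂ)) with hρ
  have : P.HaveLebesgueDecomposition ρ := Measure.haveLebesgueDecomposition_of_sigmaFinite _ _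
  rw [tendsto_iff_seq_tendsto]
  intro l hl
  rw [tendsto_nhdsWithin_iff] at hl
  obtain ⟨hl, hlpos⟩ := hl
  -- change finitely many terms
  set l' : ℕ → ℝ := fun n => if 0 < l n ∧ l n ≤ 1 then l n else 1 / ((n : ℝ) + 1) with hl'
  have hev : ∀ᶠ n in atTop, l' n = l n := by
    filter_upwards [hlpos, (tendsto_order.1 hl).2 1 one_pos] with n h1 h2
    simp only [hl']
    rw [if_pos ⟨h1, h2.le⟩]
  have hl'0 : ∀ n, 0 < l' n := by
    intro n
    simp only [hl']
    split_ifs with h
    · exact h.1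
    · positivity
  have hl'1 : ∀ n, l' n ≤ 1 := by
    intro n
    simp only [hl']
    split_ifs with h
    · exact h.2
    · rw [div_le_one (by positivity)]
      have : (0 : ℝ) ≤ n := Nat.cast_nonneg n
      linarith
  have hl't : Tendsto l' atTop (𝓝 0) := hl.congr' (hev.mono fun n h => h.symm)
  -- normalisation
  obtain ⟨M, hM0, hM⟩ : ∃ M : ℝ, 0 < M ∧ ∀ f, |F f| ≤ M := by
    refine ⟨‖F‖ + 1, by positivity, fun f => ?_⟩
    have := F.norm_coe_le_norm f
    rw [Real.norm_eq_abs] at this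
    linarith
  have hf : Integrable (fun f => (P.rnDeriv ρ f).toReal) ρ := Measure.integrable_toReal_rnDeriv
  have key := (mx_weak hc h hl'0 hl'1 hl't (F := fun f => F f / M)
    (F.continuous.div_const M) (fun f => by
      rw [abs_div, abs_of_pos hM0, div_le_one hM0]; exact hM f) _ hf).const_mul M
  rw [mul_zero] at key
  refine key.congr' ?_
  filter_upwards [hev] with n hn
  rw [hn]
  have mF : Measurable fun f => F (LS.sc (4/7) (l n) f) :=
    F.continuous.measurable.comp (LS.sc_meas _ _)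
  have e1 : ∫ f, (P.rnDeriv ρ f).toReal • F (LS.sc (4/7) (l n) f) ∂ρ =
      ∫ f, F (LS.sc (4/7) (l n) f) ∂P := integral_rnDeriv_smul hP
  have e2 : ∫ f, (P.rnDeriv ρ f).toReal ∂ρ = 1 := by
    rw [Measure.integral_toReal_rnDeriv hP]
    simp
  have i1 : Integrable (fun f => (P.rnDeriv ρ f).toReal * F (LS.sc (4/7) (l n) f)) ρ := by
    refine (Integrable.bdd_mul (c := M) hf mF.aestronglyMeasurable
      (Eventually.of_forall fun ω => by rw [Real.norm_eq_abs]; exact hM _)).congr
      (Eventually.of_forall fun ω => ?_)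
    exact mul_comm _ _
  rw [← integral_const_mul]
  calc ∫ f, M * ((P.rnDeriv ρ f).toReal * (F (LS.sc (4/7) (l n) f) / M -
        ∫ f, F (LS.sc (4/7) (l n) f) / M ∂ρ)) ∂ρ
      = ∫ f, ((P.rnDeriv ρ f).toReal * F (LS.sc (4/7) (l n) f) -
          (P.rnDeriv ρ f).toReal * ∫ f, F (LS.sc (4/7) (l n) f) ∂ρ) ∂ρ := by
        rw [integral_div]
        refine integral_congr_ae (Eventually.of_forall fun f => ?_)
        show M * ((P.rnDeriv ρ f).toReal * (F (LS.sc (4/7) (l n) f) / M -
          (∫ f, F (LS.sc (4/7) (l n) f) ∂ρ) / M)) = _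
        field_simp
    _ = ∫ f, (P.rnDeriv ρ f).toReal * F (LS.sc (4/7) (l n) f) ∂ρ -
        ∫ f, (P.rnDeriv ρ f).toReal * (∫ f, F (LS.sc (4/7) (l n) f) ∂ρ) ∂ρ :=
        integral_sub i1 (hf.mul_const _)
    _ = _ := by
        rw [integral_mul_const, e2, one_mul]
        congr 1

/-- Two limits are mutually singular or asymptotically equal at small scales. -/
theorem sing {μ ν : ProbabilityMeasure C(unitInterval, ℂ)} {c C : ℝ} (hc : 0 < c)
    (h : Mx μ c C) (h' : Mx ν c C)
    (hs : ¬ (μ : Measure C(unitInterval, ℂ)) ⟂ₘ (ν : Measure C(unitInterval, ℂ)))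
    (F : BoundedContinuousFunction C(unitInterval, ℂ) ℝ) :
    Tendsto (fun l : ℝ => ∫ f, F (LS.sc (4/7) l f) ∂(μ : Measure C(unitInterval, ℂ)) -
      ∫ f, F (LS.sc (4/7) l f) ∂(ν : Measure C(unitInterval, ℂ))) (𝓝[>] 0) (𝓝 0) := by
  set a : Measure C(unitInterval, ℂ) := (μ : Measure C(unitInterval, ℂ)) with ha
  set b : Measure C(unitInterval, ℂ) := (ν : Measure C(unitInterval, ℂ)) with hb
  have : a.HaveLebesgueDecomposition b := Measure.haveLebesgueDecomposition_of_sigmaFinite _ _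
  set P0 : Measure C(unitInterval, ℂ) := b.withDensity (a.rnDeriv b) with hP0
  have hle : P0 ≤ a := Measure.withDensity_rnDeriv_le a b
  have hac : P0 ≪ b := withDensity_absolutelyContinuous b _
  have hne : P0 Set.univ ≠ 0 := by
    intro h0
    apply hs
    have h1 : P0 = 0 := Measure.measure_univ_eq_zero.1 h0
    have h2 := Measure.haveLebesgueDecomposition_add a b
    rw [← hP0, h1, add_zero] at h2
    rw [h2]
    exact Measure.mutuallySingular_singularPart a b
  have hfin : P0 Set.univ ≠ ⊤ := ((hle Set.univ).trans_lt (measure_lt_top _ _)).ne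
  set P : Measure C(unitInterval, ℂ) := (P0 Set.univ)⁻¹ • P0 with hP
  have hprob : IsProbabilityMeasure P :=
    ⟨by rw [hP, Measure.smul_apply, smul_eq_mul, ENNReal.inv_mul_cancel hne hfin]⟩
  have hPa : P ≪ a := (Measure.smul_absolutelyContinuous).trans hle.absolutelyContinuous
  have hPb : P ≪ b := (Measure.smul_absolutelyContinuous).trans hac
  have t1 := mx_ac hc h P hPa F
  have t2 := mx_ac hc h' P hPb F
  have t3 := t2.sub t1
  rw [sub_zero] at t3
  refine t3.congr fun l => ?_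
  ring

/-- Two limits which are invariant under the same rescaling are mutually singular or equal. -/
theorem sing_eq {μ ν : ProbabilityMeasure C(unitInterval, ℂ)} {c C : ℝ} (hc : 0 < c)
    (h : Mx μ c C) (h' : Mx ν c C) {l : ℝ} (hl0 : 0 < l) (hl1 : l < 1)
    (hμ : LS.S (4/7) l μ = μ) (hν : LS.S (4/7) l ν = ν)
    (hs : ¬ (μ : Measure C(unitInterval, ℂ)) ⟂ₘ (ν : Measure C(unitInterval, ℂ))) : μ = ν := by
  apply LS.law_ext
  intro F
  have key := sing hc h h' hs F
  have hpow : ∀ (μ : ProbabilityMeasure C(unitInterval, ℂ)), LS.S (4/7) l μ = μ → ∀ k : ℕ,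
      LS.S (4/7) (l ^ k) μ = μ := by
    intro μ hμ k
    induction k with
    | zero => rw [pow_zero]; exact LS.S_one _ _
    | succ k ih =>
      rw [pow_succ, ← LS.S_comp (pow_pos hl0 k) (pow_le_one₀ hl0.le hl1.le) hl0 hl1.le]
      rw [hμ, ih]
  have hlim : Tendsto (fun k : ℕ => l ^ k) atTop (𝓝[>] 0) := by
    rw [tendsto_nhdsWithin_iff]
    exact ⟨tendsto_pow_atTop_nhds_zero_of_lt_one hl0.le hl1,
      Eventually.of_forall fun k => pow_pos hl0 k⟩
  have key2 := key.comp hlim
  have hint : ∀ (μ : ProbabilityMeasure C(unitInterval, ℂ)), LS.S (4/7) l μ = μ → ∀ k : ℕ,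
      ∫ f, F (LS.sc (4/7) (l ^ k) f) ∂(μ : Measure C(unitInterval, ℂ)) =
        ∫ f, F f ∂(μ : Measure C(unitInterval, ℂ)) := by
    intro μ hμ k
    have e := hpow μ hμ k
    have e2 : ∫ f, F f ∂(LS.S (4/7) (l ^ k) μ : Measure C(unitInterval, ℂ)) =
        ∫ f, F (LS.sc (4/7) (l ^ k) f) ∂(μ : Measure C(unitInterval, ℂ)) := by
      show ∫ f, F f ∂((μ : Measure C(unitInterval, ℂ)).map (LS.sc (4/7) (l ^ k))) = _
      rw [integral_map (LS.sc_meas _ _).aemeasurable F.continuous.aestronglyMeasurable]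
    rw [← e2, e]
  have key3 : Tendsto (fun _ : ℕ => ∫ f, F f ∂(μ : Measure C(unitInterval, ℂ)) -
      ∫ f, F f ∂(ν : Measure C(unitInterval, ℂ))) atTop (𝓝 0) := by
    refine key2.congr fun k => ?_
    show ∫ f, F (LS.sc (4/7) (l ^ k) f) ∂(μ : Measure C(unitInterval, ℂ)) -
      ∫ f, F (LS.sc (4/7) (l ^ k) f) ∂(ν : Measure C(unitInterval, ℂ)) = _
    rw [hint μ hμ k, hint ν hν k]
  have := tendsto_nhds_unique tendsto_const_nhds key3
  linarith

end Zk62.QS
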