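import Pool.Agent.Zk62.QS.Limit

/-!
The zero-one law at the starting point for all limits.
-/

set_option autoImplicit false

namespace Zk62.QS

open H974 Finset H342P H984P H984H MeasureTheory Filter Topology

/-- The inverse of the rescaling, on the initial part. -/
noncomputable def ex (l : ℝ) (g : LS.E) : LS.E := LS.Phi (g, (l ^ (4/7 : ℝ), l⁻¹))

theorem ex_cont (l : ℝ) : Continuous (ex l) := by
  have : ex l = fun g => LS.Phi (g, (l ^ (4/7 : ℝ), l⁻¹)) := rfl
  rw [this]
  exact LS.Phi_cont.comp (by fun_prop)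

theorem ex_sc {l : ℝ} (h0 : 0 < l) (h1 : l ≤ 1) (f : LS.E) (t : unitInterval) (ht : (t : ℝ) ≤ l) :
    ex l (LS.sc (4/7) l f) t = f t := by
  have e1 : ex l (LS.sc (4/7) l f) t =
      ((l ^ (4/7 : ℝ) : ℝ) : ℂ) * (LS.sc (4/7) l f) (LS.tc l⁻¹ t) := by
    show (l ^ (4/7 : ℝ) : ℝ) • (LS.sc (4/7) l f) (LS.tc l⁻¹ t) = _
    rw [Complex.real_smul]
  have e2 : ((LS.tc l⁻¹ t : unitInterval) : ℝ) = l⁻¹ * t := by
    show ((Set.projIcc 0 1 zero_le_one (l⁻¹ * t) : unitInterval) : ℝ) = _
    have h2 : 0 ≤ l⁻¹ * (t : ℝ) := mul_nonneg (inv_nonneg.2 h0.le) t.2.1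
    have h3 : l⁻¹ * (t : ℝ) ≤ 1 := by rw [inv_mul_le_iff₀ h0, mul_one]; exact ht
    rw [Set.coe_projIcc, max_eq_right, min_eq_right h3]
    exact le_min zero_le_one h2
  rw [e1, LS.sc_apply h0.le h1, ← mul_assoc, ← Complex.ofReal_mul, ← Real.rpow_add h0]
  have e3 : (4/7 : ℝ) + -(4/7) = 0 := by norm_num
  rw [e3, Real.rpow_zero, Complex.ofReal_one, one_mul]
  congr 1
  apply Subtype.ext
  show l * ((LS.tc l⁻¹ t : unitInterval) : ℝ) = t
  rw [e2]
  field_simp

theorem zero_one {c C : ℝ} (hc : 0 < c) (hC : 0 < C)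
    (hmix : ∀ (μ : ProbabilityMeasure C(unitInterval, ℂ)) (φ : ℕ → ℕ), Tendsto φ atTop atTop →
      Tendsto (fun i => lawH (φ i)) atTop (𝓝 μ) → ∀ (l : ℝ), 0 < l → l ≤ 1 → ∀ L : ℝ, 0 ≤ L →
      ∀ F G : C(unitInterval, ℂ) → ℝ, Continuous F → (∀ f, |F f| ≤ 1) → (∀ f, |G f| ≤ 1) →
      (∀ f g, |G f - G g| ≤ L * ‖f - g‖) →
      |∫ f, F (LS.sc (4/7) l f) * G f ∂(μ : Measure C(unitInterval, ℂ)) -
        (∫ f, F (LS.sc (4/7) l f) ∂(μ : Measure C(unitInterval, ℂ))) *
          ∫ f, G f ∂(μ : Measure C(unitInterval, ℂ))| ≤ C * (1 + L) * l ^ c)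
    {φ : ℕ → ℕ} (hφ : Tendsto φ atTop atTop) {μ : ProbabilityMeasure C(unitInterval, ℂ)}
    (hμ : Tendsto (fun i => lawH (φ i)) atTop (𝓝 μ)) {A : Set C(unitInterval, ℂ)}
    (hAm : MeasurableSet A)
    (hA : ∀ ε : ℝ, 0 < ε → ∀ f g : C(unitInterval, ℂ),
      (∀ t : unitInterval, (t : ℝ) ≤ ε → f t = g t) → (f ∈ A ↔ g ∈ A)) :
    (μ : Measure C(unitInterval, ℂ)) A = 0 ∨ (μ : Measure C(unitInterval, ℂ)) A = 1 := by
  set ρ : Measure C(unitInterval, ℂ) := (μ : Measure C(unitInterval, ℂ)) with hρ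
  set a : ℝ := ρ.real A with ha
  have ha0 : 0 ≤ a := measureReal_nonneg
  have ha1 : a ≤ 1 := measureReal_le_one
  set I : C(unitInterval, ℂ) → ℝ := A.indicator (fun _ => (1 : ℝ)) with hI
  have hIm : Measurable I := measurable_const.indicator hAm
  have hI01 : ∀ f, I f = 0 ∨ I f = 1 := by
    intro f
    by_cases h : f ∈ A
    · right; exact Set.indicator_of_mem h _
    · left; exact Set.indicator_of_notMem h _
  have hIb : ∀ f, |I f| ≤ 1 := by
    intro f
    rcases hI01 f with h | h <;> rw [h] <;> norm_num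
  have hIint : ∫ f, I f ∂ρ = a := by
    rw [hI, integral_indicator hAm]
    simp [ha]
  have key : ∀ δ : ℝ, 0 < δ → |a - a ^ 2| ≤ 5 * δ := by
    intro δ hδ
    obtain ⟨G, L, hL, hG0, hG1, hGL, hGI⟩ := approx ρ hAm hδ
    have hGL' : ∀ f g : C(unitInterval, ℂ), |G f - G g| ≤ L * ‖f - g‖ := fun f g => by
      rw [← dist_eq_norm]; exact hGL f g
    have hGc : Continuous G := by
      rw [Metric.continuous_iff]
      intro f ε hε
      refine ⟨ε / (L + 1), by positivity, fun g hg => ?_⟩
      rw [Real.dist_eq]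
      refine (hGL g f).trans_lt ?_
      rw [lt_div_iff₀ (by positivity)] at hg
      have h2 : L * dist g f ≤ dist g f * (L + 1) := by
        have := dist_nonneg (x := g) (y := f)
        nlinarith
      linarith
    have hGb : ∀ f, |G f| ≤ 1 := fun f => by rw [abs_of_nonneg (hG0 f)]; exact hG1 f
    -- the scale
    have hCL : 0 < C * (1 + L) := by positivity
    obtain ⟨l, hl⟩ : ∃ l : ℝ, l = min 1 ((δ / (C * (1 + L))) ^ (1 / c)) := ⟨_, rfl⟩
    have hl0 : 0 < l := by rw [hl]; exact lt_min one_pos (by positivity)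
    have hl1 : l ≤ 1 := by rw [hl]; exact min_le_left _ _
    have hlc : C * (1 + L) * l ^ c ≤ δ := by
      have h1 : l ^ c ≤ ((δ / (C * (1 + L))) ^ (1 / c)) ^ c :=
        Real.rpow_le_rpow hl0.le (by rw [hl]; exact min_le_right _ _) hc.le
      rw [← Real.rpow_mul (by positivity), one_div, inv_mul_cancel₀ hc.ne', Real.rpow_one] at h1
      rw [le_div_iff₀ hCL] at h1
      linarith
    -- the approximation of the rescaled event
    have hBm : MeasurableSet (ex l ⁻¹' A) := (ex_cont l).measurable hAm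
    have hBA : ∀ f, LS.sc (4/7) l f ∈ ex l ⁻¹' A ↔ f ∈ A := fun f =>
      hA l hl0 _ _ fun t ht => ex_sc hl0 hl1 f t ht
    have hscm : Measurable (LS.sc (4/7) l) := LS.sc_meas _ _
    have : IsProbabilityMeasure (ρ.map (LS.sc (4/7) l)) :=
      Measure.isProbabilityMeasure_map hscm.aemeasurable
    obtain ⟨F, L', hL', hF0, hF1, hFL, hFI⟩ := approx (ρ.map (LS.sc (4/7) l)) hBm hδ
    have hFc : Continuous F := by
      rw [Metric.continuous_iff]
      intro f ε hε
      refine ⟨ε / (L' + 1), by positivity, fun g hg => ?_⟩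
      rw [Real.dist_eq]
      refine (hFL g f).trans_lt ?_
      rw [lt_div_iff₀ (by positivity)] at hg
      have h2 : L' * dist g f ≤ dist g f * (L' + 1) := by
        have := dist_nonneg (x := g) (y := f)
        nlinarith
      linarith
    have hFb : ∀ f, |F f| ≤ 1 := fun f => by rw [abs_of_nonneg (hF0 f)]; exact hF1 f
    have hm := hmix μ φ hφ hμ l hl0 hl1 L hL F G hFc hFb hGb hGL'
    -- pull back
    have hFI' : ∫ f, |I f - F (LS.sc (4/7) l f)| ∂ρ ≤ δ := by
      have mBF : Measurable fun x : LS.E =>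
          |(ex l ⁻¹' A).indicator (fun _ => (1 : ℝ)) x - F x| :=
        ((measurable_const.indicator hBm).sub hFc.measurable).norm
      rw [integral_map hscm.aemeasurable mBF.aestronglyMeasurable] at hFI
      refine le_trans (le_of_eq ?_) hFI
      refine integral_congr_ae (Eventually.of_forall fun f => ?_)
      show |I f - F (LS.sc (4/7) l f)| = |(ex l ⁻¹' A).indicator (fun _ => (1 : ℝ))
        (LS.sc (4/7) l f) - F (LS.sc (4/7) l f)|
      congr 2
      by_cases h : f ∈ A
      · rw [Set.indicator_of_mem ((hBA f).2 h)]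
        exact Set.indicator_of_mem h _
      · rw [Set.indicator_of_notMem (fun h' => h ((hBA f).1 h'))]
        exact Set.indicator_of_notMem h _
    have hGI' : ∫ f, |I f - G f| ∂ρ ≤ δ := hGI
    have hF'm : Measurable fun f => F (LS.sc (4/7) l f) := hFc.measurable.comp hscm
    have bd : ∀ {g : C(unitInterval, ℂ) → ℝ} (M : ℝ), Measurable g → (∀ f, |g f| ≤ M) →
        Integrable g ρ := fun M hg hb =>
      Integrable.of_bound hg.aestronglyMeasurable M (Eventually.of_forall fun f => by
        rw [Real.norm_eq_abs]; exact hb f)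
    have iI : Integrable I ρ := bd 1 hIm hIb
    have iF : Integrable (fun f => F (LS.sc (4/7) l f)) ρ := bd 1 hF'm fun f => hFb _
    have iG : Integrable G ρ := bd 1 hGc.measurable hGb
    have iFG : Integrable (fun f => F (LS.sc (4/7) l f) * G f) ρ :=
      bd 1 (hF'm.mul hGc.measurable) fun f => by
        rw [abs_mul]; exact mul_le_one₀ (hFb _) (abs_nonneg _) (hGb _)
    have iIF : Integrable (fun f => |I f - F (LS.sc (4/7) l f)|) ρ := (iI.sub iF).abs
    have iIG : Integrable (fun f => |I f - G f|) ρ := (iI.sub iG).abs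
    have s1 : |a - ∫ f, F (LS.sc (4/7) l f) * G f ∂ρ| ≤ 2 * δ := by
      have e1 : a = ∫ f, I f * I f ∂ρ := by
        rw [← hIint]
        refine integral_congr_ae (Eventually.of_forall fun f => ?_)
        show I f = I f * I f
        rcases hI01 f with h | h <;> rw [h] <;> norm_num
      have iII : Integrable (fun f => I f * I f) ρ := bd 1 (hIm.mul hIm) fun f => by
        rw [abs_mul]; exact mul_le_one₀ (hIb _) (abs_nonneg _) (hIb _)
      rw [e1, ← integral_sub iII iFG]
      calc |∫ f, (I f * I f - F (LS.sc (4/7) l f) * G f) ∂ρ|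
          ≤ ∫ f, |I f * I f - F (LS.sc (4/7) l f) * G f| ∂ρ := abs_integral_le_integral_abs
        _ ≤ ∫ f, (|I f - F (LS.sc (4/7) l f)| + |I f - G f|) ∂ρ := by
            refine integral_mono (iII.sub iFG).abs (iIF.add iIG) fun f => ?_
            show |I f * I f - F (LS.sc (4/7) l f) * G f| ≤
              |I f - F (LS.sc (4/7) l f)| + |I f - G f|
            have e2 : I f * I f - F (LS.sc (4/7) l f) * G f =
                G f * (I f - F (LS.sc (4/7) l f)) + I f * (I f - G f) := by ring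
            rw [e2]
            refine (abs_add_le _ _).trans (add_le_add ?_ ?_)
            · rw [abs_mul]
              calc |G f| * |I f - F (LS.sc (4/7) l f)| ≤ 1 * |I f - F (LS.sc (4/7) l f)| :=
                    mul_le_mul_of_nonneg_right (hGb f) (abs_nonneg _)
                _ = _ := one_mul _
            · rw [abs_mul]
              calc |I f| * |I f - G f| ≤ 1 * |I f - G f| :=
                    mul_le_mul_of_nonneg_right (hIb f) (abs_nonneg _)
                _ = _ := one_mul _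
        _ = _ := integral_add iIF iIG
        _ ≤ δ + δ := add_le_add hFI' hGI'
        _ = 2 * δ := by ring
    have s2 : |a - ∫ f, F (LS.sc (4/7) l f) ∂ρ| ≤ δ := by
      rw [← hIint, ← integral_sub iI iF]
      exact abs_integral_le_integral_abs.trans hFI'
    have s3 : |a - ∫ f, G f ∂ρ| ≤ δ := by
      rw [← hIint, ← integral_sub iI iG]
      exact abs_integral_le_integral_abs.trans hGI'
    have s4 : |∫ f, G f ∂ρ| ≤ 1 := by
      have := norm_integral_le_of_norm_le_const (μ := ρ) (f := G) (C := 1)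
        (Eventually.of_forall fun f => by rw [Real.norm_eq_abs]; exact hGb f)
      simpa using this
    set x := ∫ f, F (LS.sc (4/7) l f) ∂ρ with hx
    set y := ∫ f, G f ∂ρ with hy
    set z := ∫ f, F (LS.sc (4/7) l f) * G f ∂ρ with hz
    have s5 : |z - x * y| ≤ δ := hm.trans hlc
    have s6 : |x * y - a ^ 2| ≤ 2 * δ := by
      have e : x * y - a ^ 2 = -((a - x) * y) - a * (a - y) := by ring
      rw [e]
      refine (abs_sub _ _).trans ?_
      rw [abs_neg, abs_mul, abs_mul, abs_of_nonneg ha0]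
      have g1 : |a - x| * |y| ≤ δ * 1 := mul_le_mul s2 s4 (abs_nonneg _) hδ.le
      have g2 : a * |a - y| ≤ 1 * δ := mul_le_mul ha1 s3 (abs_nonneg _) zero_le_one
      linarith
    have e5 : a - a ^ 2 = (a - z) + (z - x * y) + (x * y - a ^ 2) := by ring
    rw [e5]
    refine (abs_add_le _ _).trans ?_
    have := abs_add_le (a - z) (z - x * y)
    linarith
  have h0 : a - a ^ 2 = 0 := by
    by_contra hne
    have hp : 0 < |a - a ^ 2| := abs_pos.2 hne
    have := key (|a - a ^ 2| / 10) (by positivity)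
    linarith
  have h1 : a * (1 - a) = 0 := by linarith [h0]
  rcases mul_eq_zero.1 h1 with h | h
  · left
    have h2 : ρ.real A = 0 := h
    rwa [measureReal_eq_zero_iff] at h2
  · right
    have h2 : ρ.real A = 1 := by linarith
    rw [← ofReal_measureReal (μ := ρ), h2, ENNReal.ofReal_one]

end Zk62.QS
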